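import Mathlib

set_option autoImplicit false

namespace Pool.Agent.Helper559

open Finset

/-- Sum of the reciprocals of the primes up to `x`. -/
noncomputable def S (x : ℕ) : ℝ := ∑ p ∈ (Icc 1 x).filter Nat.Prime, (1 : ℝ) / p

/-- Sum of `log p / p` over the primes up to `x`. -/
noncomputable def A1 (x : ℕ) : ℝ := ∑ p ∈ (Icc 1 x).filter Nat.Prime, Real.log p / p

lemma log_factorial_eq (n : ℕ) :
    Real.log (n.factorial) =
      ∑ p ∈ (Icc 1 n).filter Nat.Prime, (n.factorial.factorization p : ℝ) * Real.log p := by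
  rw [Real.log_nat_eq_sum_factorization]
  rw [Finsupp.sum]
  apply Finset.sum_subset
  · intro p hp
    have hp' := Nat.support_factorization n.factorial ▸ hp
    have h1 := Nat.prime_of_mem_primeFactors hp'
    have h2 := Nat.dvd_of_mem_primeFactors hp'
    rw [Finset.mem_filter, Finset.mem_Icc]
    exact ⟨⟨h1.one_lt.le, (h1.dvd_factorial).1 h2⟩, h1⟩
  · intro p _ hp
    have : n.factorial.factorization p = 0 := Finsupp.notMem_support_iff.1 hp
    simp [this]

lemma log_factorial_le (n : ℕ) : Real.log (n.factorial) ≤ n * Real.log n := by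
  rw [← Real.log_pow]
  apply Real.log_le_log
  · exact_mod_cast Nat.factorial_pos n
  · exact_mod_cast Nat.factorial_le_pow n

lemma le_log_factorial (n : ℕ) : n * Real.log n - n ≤ Real.log (n.factorial) := by
  rcases Nat.eq_zero_or_pos n with rfl | hn
  · simp
  have h := Real.pow_div_factorial_le_exp (n : ℝ) (by positivity) n
  have hn' : (0 : ℝ) < n := by exact_mod_cast hn
  have hf : (0 : ℝ) < n.factorial := by exact_mod_cast Nat.factorial_pos n
  have h2 := Real.log_le_log (by positivity) h
  rw [Real.log_exp, Real.log_div (by positivity) (by positivity), Real.log_pow] at h2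
  linarith

lemma A1_le (n : ℕ) (hn : 1 ≤ n) : A1 n ≤ Real.log n + Real.log 4 := by
  have hn' : (0 : ℝ) < n := by exact_mod_cast hn
  have h1 : ∀ p ∈ (Icc 1 n).filter Nat.Prime,
      ((n : ℝ) / p - 1) * Real.log p ≤ (n.factorial.factorization p : ℝ) * Real.log p := by
    intro p hp
    rw [Finset.mem_filter, Finset.mem_Icc] at hp
    have hpp := hp.2
    have hp0 : (0 : ℝ) < p := by exact_mod_cast hpp.pos
    have hlog : 0 ≤ Real.log p := Real.log_natCast_nonneg p
    apply mul_le_mul_of_nonneg_right _ hlog
    have h2 : n / p ≤ n.factorial.factorization p := by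
      rw [Nat.factorization_factorial hpp (Nat.lt_succ_self (Nat.log p n + 1) |>.trans' (Nat.lt_succ_self _))]
      have : n / p = n / p ^ 1 := by simp
      rw [this]
      apply Finset.single_le_sum (f := fun i => n / p ^ i) (fun i _ => Nat.zero_le _)
      rw [Finset.mem_Ico]
      constructor
      · exact le_refl _
      · omega
    have h3 : (n : ℝ) / p - 1 ≤ ((n / p : ℕ) : ℝ) := by
      have := Nat.lt_div_mul_add (a := n) hpp.pos
      have h4 : (n : ℝ) < ((n / p : ℕ) : ℝ) * p + p := by exact_mod_cast this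
      rw [sub_le_iff_le_add, div_le_iff₀ hp0]
      linarith
    exact h3.trans (by exact_mod_cast h2)
  have h5 := Finset.sum_le_sum h1
  rw [← log_factorial_eq] at h5
  have h6 : ∑ p ∈ (Icc 1 n).filter Nat.Prime, ((n : ℝ) / p - 1) * Real.log p
      = n * A1 n - Chebyshev.theta n := by
    rw [A1, Finset.mul_sum, Chebyshev.theta, Nat.floor_natCast]
    have : (Ioc 0 n).filter Nat.Prime = (Icc 1 n).filter Nat.Prime := by
      ext x; simp [Finset.mem_filter, Finset.mem_Ioc, Finset.mem_Icc]; omega
    rw [this, ← Finset.sum_sub_distrib]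
    apply Finset.sum_congr rfl
    intro p _
    ring
  rw [h6] at h5
  have h7 := Chebyshev.theta_le_log4_mul_x (x := n) (by positivity)
  have h8 := log_factorial_le n
  have h9 : n * A1 n ≤ n * (Real.log n + Real.log 4) := by linarith
  exact le_of_mul_le_mul_left h9 hn'

lemma sum_aux (N : ℕ) (hN : 1 ≤ N) :
    ∑ m ∈ Icc 2 N, Real.log m / (m * (m - 1)) ≤ 6 - 6 / Real.sqrt N := by
  induction N, hN using Nat.le_induction with
  | base => simp
  | succ N hN ih =>
    rw [Finset.sum_Icc_succ_top (by omega)]
    have hN' : (1 : ℝ) ≤ N := by exact_mod_cast hN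
    have hs0 : (0 : ℝ) < Real.sqrt N := Real.sqrt_pos.2 (by linarith)
    have hs1 : (0 : ℝ) < Real.sqrt (N + 1 : ℝ) := Real.sqrt_pos.2 (by linarith)
    set a := Real.sqrt N with ha
    set b := Real.sqrt (N + 1 : ℝ) with hb
    have ha2 : a ^ 2 = N := Real.sq_sqrt (by linarith)
    have hb2 : b ^ 2 = N + 1 := Real.sq_sqrt (by linarith)
    have hab : a < b := Real.sqrt_lt_sqrt (by linarith) (by linarith)
    have ha1 : 1 ≤ a := by
      rw [ha]; exact Real.one_le_sqrt.2 hN'
    have hlog : Real.log (N + 1 : ℝ) ≤ 2 * b := by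
      have : Real.log (N + 1 : ℝ) = 2 * Real.log b := by
        rw [← hb2, Real.log_pow]; norm_num
      rw [this]
      have := Real.log_le_sub_one_of_pos hs1
      linarith
    have key : Real.log (N + 1 : ℝ) / ((N + 1) * ((N + 1 : ℝ) - 1)) ≤ 6 / a - 6 / b := by
      have h1 : Real.log (N + 1 : ℝ) / ((N + 1) * ((N + 1 : ℝ) - 1)) ≤ 2 * b / (b ^ 2 * a ^ 2) := by
        rw [hb2, ha2]
        have : (N + 1 : ℝ) - 1 = N := by ring
        rw [this]
        gcongr
      refine h1.trans ?_
      have h2 : b ^ 2 - a ^ 2 = 1 := by rw [ha2, hb2]; ring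
      have h3 : 6 / a - 6 / b = 6 * (b - a) / (a * b) := by
        field_simp
      rw [h3, div_le_div_iff₀ (by positivity) (by positivity)]
      have hb2a : b ≤ 3 / 2 * a := by
        have : b ^ 2 ≤ (3 / 2 * a) ^ 2 := by nlinarith
        exact le_of_sq_le_sq this (by positivity)
      have h4 : (b - a) * (b + a) = 1 := by linarith [h2, (by ring : (b - a) * (b + a) = b ^ 2 - a ^ 2)]
      have h5 : 1 ≤ 3 * a * (b - a) := by
        have : b + a ≤ 3 * a := by linarith
        nlinarith [sub_nonneg.2 hab.le]
      have h6 : 0 < a * b ^ 2 := by positivity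
      nlinarith [mul_le_mul_of_nonneg_left h5 h6.le]
    push_cast
    linarith
    
lemma le_A1 (n : ℕ) (hn : 1 ≤ n) : Real.log n - 7 ≤ A1 n := by
  have hn' : (0 : ℝ) < n := by exact_mod_cast hn
  have h1 : ∀ p ∈ (Icc 1 n).filter Nat.Prime,
      (n.factorial.factorization p : ℝ) * Real.log p ≤
        n * (Real.log p / p) + n * (Real.log p / (p * (p - 1))) := by
    intro p hp
    rw [Finset.mem_filter, Finset.mem_Icc] at hp
    have hpp := hp.2
    have : Fact p.Prime := ⟨hpp⟩
    have hp1 : (1 : ℝ) < p := by exact_mod_cast hpp.one_lt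
    have hlog : 0 ≤ Real.log p := Real.log_natCast_nonneg p
    have h2 : (p - 1) * n.factorial.factorization p ≤ n := by
      rw [Nat.factorization_def _ hpp, sub_one_mul_padicValNat_factorial]
      exact Nat.sub_le _ _
    have h3 : ((p : ℝ) - 1) * (n.factorial.factorization p : ℝ) ≤ n := by
      have : (((p - 1 : ℕ) : ℝ)) * (n.factorial.factorization p : ℝ) ≤ n := by exact_mod_cast h2
      rwa [Nat.cast_sub hpp.one_lt.le, Nat.cast_one] at this
    have h4 : (n.factorial.factorization p : ℝ) ≤ n / ((p : ℝ) - 1) := by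
      rw [le_div_iff₀ (by linarith)]; linarith
    have h5 : (n : ℝ) * (Real.log p / p) + n * (Real.log p / (p * (p - 1)))
        = n / ((p : ℝ) - 1) * Real.log p := by
      have : (p : ℝ) - 1 ≠ 0 := by linarith
      field_simp
      ring
    rw [h5]
    exact mul_le_mul_of_nonneg_right h4 hlog
  have h5 := Finset.sum_le_sum h1
  rw [← log_factorial_eq, Finset.sum_add_distrib, ← Finset.mul_sum, ← Finset.mul_sum] at h5
  have h6 : ∑ p ∈ (Icc 1 n).filter Nat.Prime, Real.log p / ((p : ℝ) * (p - 1))
      ≤ ∑ m ∈ Icc 2 n, Real.log m / ((m : ℝ) * (m - 1)) := by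
    apply Finset.sum_le_sum_of_subset_of_nonneg
    · intro p hp
      rw [Finset.mem_filter, Finset.mem_Icc] at hp
      rw [Finset.mem_Icc]
      exact ⟨hp.2.two_le, hp.1.2⟩
    · intro m hm _
      rw [Finset.mem_Icc] at hm
      have : (2 : ℝ) ≤ m := by exact_mod_cast hm.1
      have hlog : 0 ≤ Real.log m := Real.log_natCast_nonneg m
      apply div_nonneg hlog
      apply mul_nonneg <;> linarith
  have h7 := sum_aux n hn
  have h8 : (0 : ℝ) ≤ 6 / Real.sqrt n := by positivity
  have h9 := le_log_factorial n
  have h10 : n * (Real.log n - 7) ≤ n * A1 n := by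
    rw [A1]
    have : n * ∑ p ∈ (Icc 1 n).filter Nat.Prime, Real.log p / ((p : ℝ) * (p - 1)) ≤ n * 6 := by
      apply mul_le_mul_of_nonneg_left _ hn'.le
      linarith
    linarith
  exact le_of_mul_le_mul_left h10 hn'

lemma A1_succ (n : ℕ) : A1 (n + 1) = A1 n + (if (n + 1).Prime then Real.log (n + 1 : ℕ) / ((n + 1 : ℕ) : ℝ) else 0) := by
  rw [A1, A1, Finset.sum_filter, Finset.sum_filter, Finset.sum_Icc_succ_top (by omega)]

lemma S_succ (n : ℕ) : S (n + 1) = S n + (if (n + 1).Prime then 1 / ((n + 1 : ℕ) : ℝ) else 0) := by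
  rw [S, S, Finset.sum_filter, Finset.sum_filter, Finset.sum_Icc_succ_top (by omega)]

lemma S_mono : Monotone S := by
  apply monotone_nat_of_le_succ
  intro n
  rw [S_succ]
  split_ifs
  · have : (0 : ℝ) ≤ 1 / ((n + 1 : ℕ) : ℝ) := by positivity
    linarith
  · linarith

/-- Mertens type bound for the sum of reciprocals of primes. -/
theorem mertens : ∃ C : ℝ, 0 < C ∧ ∀ x : ℕ, 2 ≤ x → |S x - Real.log (Real.log x)| ≤ C := by
  -- error term
  have hE : ∀ n : ℕ, 1 ≤ n → |A1 n - Real.log n| ≤ 7 := by
    intro n hn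
    rw [abs_le]
    have h1 := A1_le n hn
    have h2 := le_A1 n hn
    have h3 : Real.log 4 ≤ 7 := by
      have := Real.log_le_sub_one_of_pos (x := 4) (by norm_num)
      linarith
    constructor <;> linarith
  set U : ℕ → ℝ := fun n => S n - (A1 n - Real.log n) / Real.log n with hU
  have hl2 : (0 : ℝ) < Real.log 2 := Real.log_pos (by norm_num)
  have key : ∀ n : ℕ, 2 ≤ n → |(U n - Real.log (Real.log n)) - (U 2 - Real.log (Real.log 2))|
      ≤ 8 * (1 / Real.log 2 - 1 / Real.log n) := by
    intro n hn
    induction n, hn using Nat.le_induction with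
    | base => simp
    | succ n hn ih =>
      have hn1 : (2 : ℝ) ≤ n := by exact_mod_cast hn
      set x := Real.log n with hx
      set y := Real.log (n + 1 : ℕ) with hy
      have hx0 : 0 < x := Real.log_pos (by linarith)
      have hxy : x < y := by
        apply Real.log_lt_log (by linarith)
        push_cast; linarith
      have hy0 : 0 < y := hx0.trans hxy
      have hyx : y - x ≤ 1 := by
        rw [hx, hy, ← Real.log_div (by positivity) (by positivity)]
        have : ((n + 1 : ℕ) : ℝ) / n ≤ 2 := by
          rw [div_le_iff₀ (by linarith)]; push_cast; linarith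
        have h := Real.log_le_sub_one_of_pos (x := ((n + 1 : ℕ) : ℝ) / n) (by positivity)
        linarith
      have hstep : U (n + 1) - U n = (y - x) / y + (A1 n - x) * (1 / x - 1 / y) := by
        have h1 : U (n + 1) = S (n + 1) - (A1 (n + 1) - y) / y := rfl
        have h2 : U n = S n - (A1 n - x) / x := rfl
        rw [h1, h2, S_succ, A1_succ]
        have h3 : (0 : ℝ) < ((n + 1 : ℕ) : ℝ) := by positivity
        split_ifs
        · rw [← hy]
          field_simp
          ring
        · field_simp
          ring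
      have hlog : Real.log y - Real.log x ≤ (y - x) / x := by
        rw [← Real.log_div hy0.ne' hx0.ne']
        have h := Real.log_le_sub_one_of_pos (x := y / x) (by positivity)
        have : y / x - 1 = (y - x) / x := by field_simp
        linarith
      have hlog2 : (y - x) / y ≤ Real.log y - Real.log x := by
        have h := Real.log_le_sub_one_of_pos (x := x / y) (by positivity)
        rw [Real.log_div hx0.ne' hy0.ne'] at h
        have : x / y - 1 = -((y - x) / y) := by field_simp; ring
        linarith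
      have hd : 0 ≤ 1 / x - 1 / y := by
        rw [sub_nonneg]
        exact one_div_le_one_div_of_le hx0 hxy.le
      have hEn := hE n (by omega)
      rw [← hx, abs_le] at hEn
      have h5 : (y - x) / x - (y - x) / y ≤ 1 * (1 / x - 1 / y) := by
        have : (y - x) / x - (y - x) / y = (y - x) * (1 / x - 1 / y) := by ring
        rw [this]
        exact mul_le_mul_of_nonneg_right hyx hd
      have h6 : (A1 n - x) * (1 / x - 1 / y) ≤ 7 * (1 / x - 1 / y) :=
        mul_le_mul_of_nonneg_right hEn.2 hd
      have h7 : -7 * (1 / x - 1 / y) ≤ (A1 n - x) * (1 / x - 1 / y) :=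
        mul_le_mul_of_nonneg_right hEn.1 hd
      rw [abs_le] at ih ⊢
      constructor
      · linarith [ih.1]
      · linarith [ih.2]
  refine ⟨|U 2 - Real.log (Real.log 2)| + 15 / Real.log 2 + 1, by positivity, ?_⟩
  intro n hn
  have h1 := key n hn
  have hn1 : (2 : ℝ) ≤ n := by exact_mod_cast hn
  have hln : Real.log 2 ≤ Real.log n := Real.log_le_log (by norm_num) hn1
  have hln0 : 0 < Real.log n := hl2.trans_le hln
  have h2 : S n - Real.log (Real.log n) = ((U n - Real.log (Real.log n)) - (U 2 - Real.log (Real.log 2)))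
      + (U 2 - Real.log (Real.log 2)) + (A1 n - Real.log n) / Real.log n := by
    simp only [hU]; ring
  rw [h2]
  have h3 : |(A1 n - Real.log n) / Real.log n| ≤ 7 / Real.log 2 := by
    rw [abs_div, abs_of_pos hln0]
    exact div_le_div₀ (by norm_num) (hE n (by omega)) hl2 hln
  have h4 : 8 * (1 / Real.log 2 - 1 / Real.log n) ≤ 8 / Real.log 2 := by
    have : 0 < 1 / Real.log n := by positivity
    have h : 8 / Real.log 2 = 8 * (1 / Real.log 2) := by ring
    rw [h]; linarith
  have h5 : 15 / Real.log 2 = 7 / Real.log 2 + 8 / Real.log 2 := by ring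
  calc _ ≤ |((U n - Real.log (Real.log n)) - (U 2 - Real.log (Real.log 2)))
      + (U 2 - Real.log (Real.log 2))| + |(A1 n - Real.log n) / Real.log n| := abs_add_le _ _
    _ ≤ |((U n - Real.log (Real.log n)) - (U 2 - Real.log (Real.log 2)))|
      + |(U 2 - Real.log (Real.log 2))| + |(A1 n - Real.log n) / Real.log n| := by
        gcongr; exact abs_add_le _ _
    _ ≤ _ := by linarith

end Pool.Agent.Helper559
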