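import Mathlib
import Pool.Agent.Helper559.Mertens

set_option autoImplicit false

namespace Pool.Agent.Helper559

open Finset

/-- Completely multiplicative weight with prescribed values at the primes. -/
noncomputable def wt (g : ℕ → ℝ) (n : ℕ) : ℝ := n.factorization.prod fun p e => g p ^ e

/-- Number of prime factors in `(T, y]` counted with multiplicity. -/
def Om (T y n : ℕ) : ℕ := ∑ p ∈ (Ioc T y).filter Nat.Prime, n.factorization p

lemma wt_mul (g : ℕ → ℝ) (m n : ℕ) (hm : m ≠ 0) (hn : n ≠ 0) : wt g (m * n) = wt g m * wt g n := by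
  rw [wt, Nat.factorization_mul hm hn, Finsupp.prod_add_index']
  · rfl
  · intro p; simp
  · intro p a b; rw [pow_add]

lemma wt_one (g : ℕ → ℝ) : wt g 1 = 1 := by simp [wt]

lemma wt_prime (g : ℕ → ℝ) (p : ℕ) (hp : p.Prime) : wt g p = g p := by
  rw [wt, hp.factorization, Finsupp.prod_single_index]
  · simp
  · simp

lemma wt_nonneg (g : ℕ → ℝ) (hg : ∀ p, 0 ≤ g p) (n : ℕ) : 0 ≤ wt g n := by
  rw [wt, Finsupp.prod]
  exact Finset.prod_nonneg fun p _ => pow_nonneg (hg p) _

lemma wt_div (g : ℕ → ℝ) (n : ℕ) (hn : n ≠ 0) : wt (fun p => g p / p) n = wt g n / n := by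
  have h : (n : ℝ) = n.factorization.prod fun p e => (p : ℝ) ^ e := by
    conv_lhs => rw [← Nat.prod_factorization_pow_eq_self hn]
    rw [Finsupp.prod, Finsupp.prod]
    push_cast
    rfl
  rw [wt, wt]
  conv_rhs => rw [h]
  rw [Finsupp.prod, Finsupp.prod, Finsupp.prod, ← Finset.prod_div_distrib]
  apply Finset.prod_congr rfl
  intro p _
  rw [div_pow]

/-- The weight as a monoid homomorphism. -/
noncomputable def wtHom (g : ℕ → ℝ) : ℕ →*₀ ℝ where
  toFun n := if n = 0 then 0 else wt g n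
  map_zero' := by simp
  map_one' := by simp [wt_one]
  map_mul' m n := by
    by_cases hm : m = 0
    · simp [hm]
    by_cases hn : n = 0
    · simp [hn]
    simp [hm, hn, wt_mul]

lemma inv_one_sub_le_exp (x : ℝ) (h0 : 0 ≤ x) (h1 : x ≤ 1 / 2) : (1 - x)⁻¹ ≤ Real.exp (x + x ^ 2) := by
  rw [inv_le_iff_one_le_mul₀ (by linarith)]
  have h := Real.quadratic_le_exp_of_nonneg (x := x + x ^ 2) (by positivity)
  have h2 : 1 ≤ (1 + (x + x ^ 2) + (x + x ^ 2) ^ 2 / 2) * (1 - x) := by
    have h3 : (1 + (x + x ^ 2) + (x + x ^ 2) ^ 2 / 2) * (1 - x) - 1 = x ^ 2 * ((1 - x - x ^ 2 - x ^ 3) / 2) := by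
      ring
    have h4 : 0 ≤ (1 - x - x ^ 2 - x ^ 3) / 2 := by
      have : x ^ 2 ≤ 1 / 4 := by nlinarith
      have : x ^ 3 ≤ 1 / 8 := by nlinarith
      linarith
    have := mul_nonneg (sq_nonneg x) h4
    linarith
  exact h2.trans (mul_le_mul_of_nonneg_right h (by linarith))

lemma sum_inv_sq (N : ℕ) : ∑ n ∈ Icc 2 N, (1 : ℝ) / (n : ℝ) ^ 2 ≤ 1 := by
  rcases Nat.lt_or_ge N 1 with h | h
  · have : Icc 2 N = ∅ := Finset.Icc_eq_empty (by omega)
    rw [this]; simp
  have key : ∑ n ∈ Icc 2 N, (1 : ℝ) / (n : ℝ) ^ 2 ≤ 1 - 1 / N := by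
    induction N, h using Nat.le_induction with
    | base => simp
    | succ N hN ih =>
      rw [Finset.sum_Icc_succ_top (by omega)]
      have hN' : (1 : ℝ) ≤ N := by exact_mod_cast hN
      have : (1 : ℝ) / ((N + 1 : ℕ) : ℝ) ^ 2 ≤ 1 / N - 1 / ((N + 1 : ℕ) : ℝ) := by
        push_cast
        rw [div_sub_div _ _ (by positivity) (by positivity), div_le_div_iff₀ (by positivity) (by positivity)]
        nlinarith
      linarith
  have : (0 : ℝ) ≤ 1 / N := by positivity
  linarith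

lemma sum_primes_inv_sq_le (P : Finset ℕ) (hP : ∀ p ∈ P, p.Prime) : ∑ p ∈ P, (1 : ℝ) / (p : ℝ) ^ 2 ≤ 1 := by
  refine le_trans ?_ (sum_inv_sq (P.sup id))
  apply Finset.sum_le_sum_of_subset_of_nonneg
  · intro p hp
    rw [Finset.mem_Icc]
    exact ⟨(hP p hp).two_le, Finset.le_sup (f := id) hp⟩
  · intro p _ _; positivity

lemma euler_bound (g : ℕ → ℝ) (hg0 : ∀ p, 0 ≤ g p) (hg1 : ∀ p, g p ≤ 3 / 2) (hg2 : g 2 ≤ 1) (M : ℕ) :
    ∑ k ∈ Icc 1 M, wt g k / k ≤
      Real.exp (∑ p ∈ (Icc 1 M).filter Nat.Prime, g p / p + 9 / 4) := by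
  set h : ℕ → ℝ := fun p => g p / p with hh
  have hval : ∀ {p : ℕ}, p.Prime → wtHom h p = g p / p := by
    intro p hp
    have : wtHom h p = if p = 0 then 0 else wt h p := rfl
    rw [this, if_neg hp.ne_zero, wt_prime h p hp]
  have hle : ∀ {p : ℕ}, p.Prime → g p / p ≤ 1 / 2 := by
    intro p hp
    rcases hp.eq_two_or_odd' with rfl | hodd
    · push_cast; linarith
    · have hp3 : 3 ≤ p := by
        rcases hodd with ⟨k, rfl⟩
        have := hp.two_le
        omega
      have hp3' : (3 : ℝ) ≤ p := by exact_mod_cast hp3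
      rw [div_le_iff₀ (by linarith)]
      have := hg1 p
      linarith
  have hnorm : ∀ {p : ℕ}, p.Prime → ‖(wtHom h : ℕ →* ℝ) p‖ < 1 := by
    intro p hp
    have e : (wtHom h : ℕ →* ℝ) p = g p / p := hval hp
    rw [e, Real.norm_of_nonneg (div_nonneg (hg0 p) (by positivity))]
    have := hle hp
    linarith
  have hsum := (EulerProduct.summable_and_hasSum_smoothNumbers_prod_primesBelow_geometric
    (f := (wtHom h : ℕ →* ℝ)) hnorm (M + 1)).2
  have hsum' : HasSum (Set.indicator ((M + 1).smoothNumbers) (fun m => (wtHom h : ℕ →* ℝ) m))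
      (∏ p ∈ (M + 1).primesBelow, (1 - (wtHom h : ℕ →* ℝ) p)⁻¹) := by
    rw [← hasSum_subtype_iff_indicator]
    exact hsum
  have hnn : ∀ m, 0 ≤ Set.indicator ((M + 1).smoothNumbers) (fun m => (wtHom h : ℕ →* ℝ) m) m := by
    intro m
    apply Set.indicator_nonneg
    intro x _
    have : (wtHom h : ℕ →* ℝ) x = if x = 0 then 0 else wt h x := rfl
    rw [this]
    split_ifs
    · exact le_refl _
    · exact wt_nonneg h (fun p => div_nonneg (hg0 p) (by positivity)) x
  have h1 : ∑ k ∈ Icc 1 M, wt g k / k ≤ ∏ p ∈ (M + 1).primesBelow, (1 - (wtHom h : ℕ →* ℝ) p)⁻¹ := by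
    have h2 : ∑ k ∈ Icc 1 M, wt g k / k =
        ∑ k ∈ Icc 1 M, Set.indicator ((M + 1).smoothNumbers) (fun m => (wtHom h : ℕ →* ℝ) m) k := by
      apply Finset.sum_congr rfl
      intro k hk
      rw [Finset.mem_Icc] at hk
      have hk0 : k ≠ 0 := by omega
      rw [Set.indicator_of_mem (Nat.mem_smoothNumbers_of_lt (by omega) (by omega))]
      have : (wtHom h : ℕ →* ℝ) k = if k = 0 then 0 else wt h k := rfl
      rw [this, if_neg hk0, hh, wt_div g k hk0]
    rw [h2]
    exact sum_le_hasSum _ (fun i _ => hnn i) hsum'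
  refine h1.trans ?_
  have hpb : (M + 1).primesBelow = (Icc 1 M).filter Nat.Prime := by
    ext p
    simp only [Nat.mem_primesBelow, Finset.mem_filter, Finset.mem_Icc]
    constructor
    · rintro ⟨h1, h2⟩; exact ⟨⟨h2.one_lt.le, by omega⟩, h2⟩
    · rintro ⟨⟨_, h1⟩, h2⟩; exact ⟨by omega, h2⟩
  rw [hpb]
  have h3 : ∏ p ∈ (Icc 1 M).filter Nat.Prime, (1 - (wtHom h : ℕ →* ℝ) p)⁻¹ ≤
      ∏ p ∈ (Icc 1 M).filter Nat.Prime, Real.exp (g p / p + (g p / p) ^ 2) := by
    apply Finset.prod_le_prod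
    · intro p hp
      rw [Finset.mem_filter] at hp
      have e : (wtHom h : ℕ →* ℝ) p = g p / p := hval hp.2
      rw [e]
      have := hle hp.2
      apply inv_nonneg.2; linarith
    · intro p hp
      rw [Finset.mem_filter] at hp
      have e : (wtHom h : ℕ →* ℝ) p = g p / p := hval hp.2
      rw [e]
      exact inv_one_sub_le_exp _ (div_nonneg (hg0 p) (by positivity)) (hle hp.2)
  refine h3.trans ?_
  rw [← Real.exp_sum]
  apply Real.exp_le_exp.2
  rw [Finset.sum_add_distrib]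
  have h4 : ∑ p ∈ (Icc 1 M).filter Nat.Prime, (g p / (p : ℝ)) ^ 2 ≤
      9 / 4 * ∑ p ∈ (Icc 1 M).filter Nat.Prime, (1 : ℝ) / (p : ℝ) ^ 2 := by
    rw [Finset.mul_sum]
    apply Finset.sum_le_sum
    intro p _
    rw [div_pow, div_eq_mul_one_div]
    apply mul_le_mul_of_nonneg_right _ (by positivity)
    have := hg0 p
    have := hg1 p
    nlinarith
  have h5 := sum_primes_inv_sq_le ((Icc 1 M).filter Nat.Prime) (fun p hp => (Finset.mem_filter.1 hp).2)
  linarith

lemma wt_eq_pow_Om (g : ℕ → ℝ) (T y n : ℕ) (ζ : ℝ) 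
    (h1 : ∀ p ∈ n.primeFactors, T < p → p ≤ y → g p = ζ)
    (h2 : ∀ p ∈ n.primeFactors, ¬ (T < p ∧ p ≤ y) → g p = 1) :
    wt g n = ζ ^ Om T y n := by
  set F := n.primeFactors ∪ (Ioc T y).filter Nat.Prime with hF
  have e1 : wt g n = ∏ p ∈ F, g p ^ n.factorization p := by
    rw [wt]
    apply Finsupp.prod_of_support_subset
    · rw [Nat.support_factorization]; exact Finset.subset_union_left
    · intro p _; simp
  have e2 : ζ ^ Om T y n = ∏ p ∈ F, (if T < p ∧ p ≤ y then ζ ^ n.factorization p else 1) := by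
    rw [Om, ← Finset.prod_pow_eq_pow_sum, ← Finset.prod_filter]
    apply Finset.prod_subset
    · intro p hp
      rw [Finset.mem_filter, Finset.mem_Ioc] at hp
      rw [Finset.mem_filter, hF, Finset.mem_union, Finset.mem_filter, Finset.mem_Ioc]
      exact ⟨Or.inr hp, hp.1⟩
    · intro p hp hp'
      rw [Finset.mem_filter] at hp
      have hnp : ¬ p.Prime := by
        intro hpp
        apply hp'
        rw [Finset.mem_filter, Finset.mem_Ioc]
        exact ⟨hp.2, hpp⟩
      rw [Nat.factorization_eq_zero_of_not_prime _ hnp]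
      simp
  rw [e1, e2]
  apply Finset.prod_congr rfl
  intro p hp
  by_cases hpn : p ∈ n.primeFactors
  · by_cases hT : T < p ∧ p ≤ y
    · rw [if_pos hT, h1 p hpn hT.1 hT.2]
    · rw [if_neg hT, h2 p hpn hT, one_pow]
  · have : n.factorization p = 0 := by
      rw [← Finsupp.notMem_support_iff, Nat.support_factorization]; exact hpn
    rw [this]; simp

lemma Om_mul (T y m n : ℕ) (hm : m ≠ 0) (hn : n ≠ 0) : Om T y (m * n) = Om T y m + Om T y n := by
  rw [Om, Om, Om, ← Finset.sum_add_distrib]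
  apply Finset.sum_congr rfl
  intro p _
  rw [Nat.factorization_mul hm hn]; rfl

/-- Weight function with values `a2` at 2, `a0` on `[3,T]`, `ζ` on `(T,y]`, `1` beyond. -/
noncomputable def gw (a2 a0 ζ : ℝ) (T y : ℕ) (p : ℕ) : ℝ :=
  if p ≤ 2 then a2 else if p ≤ T then a0 else if p ≤ y then ζ else 1

lemma sum_gw (a2 a0 ζ : ℝ) (ha21 : a2 ≤ 1) (ha0 : 0 ≤ a0) (T y M : ℕ) (hT : 2 ≤ T) (hTy : T ≤ y)
    (hTM : T ≤ M) :
    ∑ p ∈ (Icc 1 M).filter Nat.Prime, gw a2 a0 ζ T y p / p ≤
      1 / 2 + a0 * S T + ζ * (S (min y M) - S T) + (S M - S (min y M)) := by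
  have hsplit : ∀ a b : ℕ, a ≤ b → S b - S a = ∑ p ∈ (Ioc a b).filter Nat.Prime, (1 : ℝ) / p := by
    intro a b hab
    have hdis : (Icc 1 b).filter Nat.Prime = (Icc 1 a).filter Nat.Prime ∪ (Ioc a b).filter Nat.Prime := by
      ext p
      simp only [Finset.mem_filter, Finset.mem_Icc, Finset.mem_Ioc, Finset.mem_union]
      constructor
      · rintro ⟨⟨h1, h2⟩, h3⟩
        rcases Nat.lt_or_ge a p with h | h
        · right; exact ⟨⟨h, h2⟩, h3⟩
        · left; exact ⟨⟨h1, h⟩, h3⟩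
      · rintro (⟨⟨h1, h2⟩, h3⟩ | ⟨⟨h1, h2⟩, h3⟩)
        · exact ⟨⟨h1, by omega⟩, h3⟩
        · exact ⟨⟨by omega, h2⟩, h3⟩
    rw [S, S, hdis, Finset.sum_union]
    · ring
    · rw [Finset.disjoint_left]
      intro p h1 h2
      rw [Finset.mem_filter, Finset.mem_Icc] at h1
      rw [Finset.mem_filter, Finset.mem_Ioc] at h2
      omega
  set y' := min y M with hy'
  have hTy' : T ≤ y' := le_min hTy hTM
  have hy'M : y' ≤ M := min_le_right _ _
  have hdis : (Icc 1 M).filter Nat.Prime = (Icc 1 T).filter Nat.Prime ∪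
      ((Ioc T y').filter Nat.Prime ∪ (Ioc y' M).filter Nat.Prime) := by
    ext p
    simp only [Finset.mem_filter, Finset.mem_Icc, Finset.mem_Ioc, Finset.mem_union]
    constructor
    · rintro ⟨⟨h1, h2⟩, h3⟩
      rcases Nat.lt_or_ge T p with h | h
      · rcases Nat.lt_or_ge y' p with h' | h'
        · right; right; exact ⟨⟨h', h2⟩, h3⟩
        · right; left; exact ⟨⟨h, h'⟩, h3⟩
      · left; exact ⟨⟨h1, h⟩, h3⟩
    · rintro (⟨⟨h1, h2⟩, h3⟩ | ⟨⟨h1, h2⟩, h3⟩ | ⟨⟨h1, h2⟩, h3⟩)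
      · exact ⟨⟨h1, by omega⟩, h3⟩
      · exact ⟨⟨by omega, by omega⟩, h3⟩
      · exact ⟨⟨by omega, h2⟩, h3⟩
  rw [hdis, Finset.sum_union, Finset.sum_union]
  · have e1 : ∑ p ∈ (Icc 1 T).filter Nat.Prime, gw a2 a0 ζ T y p / p ≤ 1 / 2 + a0 * S T := by
      have h2mem : 2 ∈ (Icc 1 T).filter Nat.Prime := by
        rw [Finset.mem_filter, Finset.mem_Icc]; exact ⟨⟨by norm_num, hT⟩, Nat.prime_two⟩
      rw [← Finset.add_sum_erase _ _ h2mem]
      have e2 : gw a2 a0 ζ T y 2 / (2 : ℕ) ≤ 1 / 2 := by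
        simp only [gw]; simp; linarith
      have e3 : ∑ p ∈ ((Icc 1 T).filter Nat.Prime).erase 2, gw a2 a0 ζ T y p / p ≤ a0 * S T := by
        rw [S, Finset.mul_sum]
        calc _ = ∑ p ∈ ((Icc 1 T).filter Nat.Prime).erase 2, a0 * (1 / (p : ℝ)) := by
              apply Finset.sum_congr rfl
              intro p hp
              rw [Finset.mem_erase, Finset.mem_filter, Finset.mem_Icc] at hp
              have h1 : ¬ p ≤ 2 := by
                have := hp.2.2.two_le
                omega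
              simp only [gw]
              rw [if_neg h1, if_pos hp.2.1.2]; ring
          _ ≤ _ := by
              apply Finset.sum_le_sum_of_subset_of_nonneg (Finset.erase_subset _ _)
              intro p _ _
              positivity
      linarith
    have e4 : ∑ p ∈ (Ioc T y').filter Nat.Prime, gw a2 a0 ζ T y p / p = ζ * (S y' - S T) := by
      rw [hsplit T y' hTy', Finset.mul_sum]
      apply Finset.sum_congr rfl
      intro p hp
      rw [Finset.mem_filter, Finset.mem_Ioc] at hp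
      simp only [gw]
      rw [if_neg (by omega), if_neg (by omega), if_pos (hp.1.2.trans (min_le_left _ _))]
      ring
    have e5 : ∑ p ∈ (Ioc y' M).filter Nat.Prime, gw a2 a0 ζ T y p / p = S M - S y' := by
      rw [hsplit y' M hy'M]
      apply Finset.sum_congr rfl
      intro p hp
      rw [Finset.mem_filter, Finset.mem_Ioc] at hp
      have : ¬ p ≤ y := by
        intro h
        have : p ≤ y' := le_min h hp.1.2
        omega
      simp only [gw]
      rw [if_neg (by omega), if_neg (by omega), if_neg this]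
    linarith
  · rw [Finset.disjoint_left]
    intro p h1 h2
    rw [Finset.mem_filter, Finset.mem_Ioc] at h1
    rw [Finset.mem_filter, Finset.mem_Ioc] at h2
    omega
  · rw [Finset.disjoint_left]
    intro p h1 h2
    rw [Finset.mem_filter, Finset.mem_Icc] at h1
    rw [Finset.mem_union, Finset.mem_filter, Finset.mem_Ioc, Finset.mem_filter, Finset.mem_Ioc] at h2
    omega

end Pool.Agent.Helper559
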