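import Mathlib

set_option autoImplicit false

namespace Pool.Agent.Helper559

open Finset

/-- Truncated inclusion-exclusion sum. -/
noncomputable def trunc (c : ℕ → ℝ) (r : ℕ) (P : Finset ℕ) : ℝ :=
  ∑ D ∈ P.powerset, if D.card ≤ r then (-1 : ℝ) ^ D.card * ∏ p ∈ D, c p else 0

lemma trunc_insert_succ (c : ℕ → ℝ) (r : ℕ) (P : Finset ℕ) (a : ℕ) (ha : a ∉ P) :
    trunc c (r + 1) (insert a P) = trunc c (r + 1) P - c a * trunc c r P := by
  rw [trunc, Finset.sum_powerset_insert ha, trunc, trunc, Finset.mul_sum, sub_eq_add_neg,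
    ← Finset.sum_neg_distrib]
  congr 1
  apply Finset.sum_congr rfl
  intro D hD
  have haD : a ∉ D := fun h => ha (Finset.mem_powerset.1 hD h)
  rw [Finset.card_insert_of_notMem haD, Finset.prod_insert haD]
  by_cases h : D.card ≤ r
  · rw [if_pos (by omega), if_pos h]; ring
  · rw [if_neg (by omega), if_neg h]; ring

lemma trunc_zero (c : ℕ → ℝ) (P : Finset ℕ) : trunc c 0 P = 1 := by
  rw [trunc, Finset.sum_eq_single ∅]
  · simp
  · intro D _ hD
    rw [if_neg]
    simpa using hD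
  · intro h; simp at h

lemma bonferroni (c : ℕ → ℝ) (P : Finset ℕ) (h0 : ∀ p ∈ P, 0 ≤ c p) (h1 : ∀ p ∈ P, c p ≤ 1) :
    ∀ r : ℕ, 0 ≤ (-1 : ℝ) ^ r * (trunc c r P - ∏ p ∈ P, (1 - c p)) := by
  induction P using Finset.induction_on with
  | empty =>
    intro r
    have : trunc c r ∅ = 1 := by simp [trunc]
    simp [this]
  | insert a P ha ih =>
    intro r
    have h0' : ∀ p ∈ P, 0 ≤ c p := fun p hp => h0 p (Finset.mem_insert_of_mem hp)
    have h1' : ∀ p ∈ P, c p ≤ 1 := fun p hp => h1 p (Finset.mem_insert_of_mem hp)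
    have ih' := ih h0' h1'
    have ha0 := h0 a (Finset.mem_insert_self a P)
    rw [Finset.prod_insert ha]
    rcases r with _ | r
    · rw [trunc_zero]
      have : ∏ p ∈ P, (1 - c p) ≤ 1 := Finset.prod_le_one
        (fun p hp => by linarith [h1' p hp]) (fun p hp => by linarith [h0' p hp])
      have h2 : 0 ≤ ∏ p ∈ P, (1 - c p) := Finset.prod_nonneg (fun p hp => by linarith [h1' p hp])
      have h3 := h1 a (Finset.mem_insert_self a P)
      simp only [pow_zero, one_mul, sub_nonneg]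
      nlinarith
    · rw [trunc_insert_succ c r P a ha]
      have e1 := ih' (r + 1)
      have e2 := ih' r
      have : (-1 : ℝ) ^ (r + 1) * (trunc c (r + 1) P - c a * trunc c r P - (1 - c a) * ∏ p ∈ P, (1 - c p))
          = (-1 : ℝ) ^ (r + 1) * (trunc c (r + 1) P - ∏ p ∈ P, (1 - c p))
            + c a * ((-1 : ℝ) ^ r * (trunc c r P - ∏ p ∈ P, (1 - c p))) := by
        rw [pow_succ]; ring
      rw [this]
      have := mul_nonneg ha0 e2
      linarith

lemma crt_two (q d : ℕ) (hq : 0 < q) (hd : 0 < d) (hco : Nat.Coprime q d) (f g : ℕ → ℝ)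
    (hf : Function.Periodic f q) (hg : Function.Periodic g d) :
    ∑ n ∈ range (q * d), f n * g n = (∑ n ∈ range q, f n) * ∑ n ∈ range d, g n := by
  rw [Finset.sum_mul_sum, ← Finset.sum_product']
  apply Finset.sum_nbij (fun n => (n % q, n % d))
  · intro n _
    simp only [Finset.mem_product, Finset.mem_range]
    exact ⟨Nat.mod_lt _ hq, Nat.mod_lt _ hd⟩
  · intro n hn m hm h
    simp only [Finset.coe_range, Set.mem_Iio] at hn hm
    simp only [Prod.mk.injEq] at h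
    have h1 : n ≡ m [MOD q * d] := (Nat.modEq_and_modEq_iff_modEq_mul hco).1 ⟨h.1, h.2⟩
    exact Nat.ModEq.eq_of_lt_of_lt h1 hn hm
  · rintro ⟨a, b⟩ hab
    simp only [Finset.coe_product, Finset.coe_range, Set.mem_prod, Set.mem_Iio] at hab
    have h := (Nat.chineseRemainder hco a b).2
    refine ⟨Nat.chineseRemainder hco a b, ?_, ?_⟩
    · simp only [Finset.coe_range, Set.mem_Iio]
      exact Nat.chineseRemainder_lt_mul hco a b hq.ne' hd.ne'
    · simp only [Prod.mk.injEq]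
      constructor
      · rw [h.1, Nat.mod_eq_of_lt hab.1]
      · rw [h.2, Nat.mod_eq_of_lt hab.2]
  · intro n _
    rw [hf.map_mod_nat, hg.map_mod_nat]

lemma periodic_prod (c : ℕ → ℕ → ℝ) (D : Finset ℕ)
    (hper : ∀ p ∈ D, Function.Periodic (c p) p) :
    Function.Periodic (fun n => ∏ p ∈ D, c p n) (∏ p ∈ D, p) := by
  intro n
  apply Finset.prod_congr rfl
  intro p hp
  obtain ⟨k, hk⟩ := Finset.dvd_prod_of_mem (fun p => p) hp
  have hk' : ∏ p ∈ D, p = k * p := by rw [mul_comm]; exact hk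
  rw [hk']
  exact (hper p hp).nat_mul k n

lemma crt_prod (c : ℕ → ℕ → ℝ) (D : Finset ℕ) (hD : ∀ p ∈ D, p.Prime)
    (hper : ∀ p ∈ D, Function.Periodic (c p) p) :
    ∑ n ∈ range (∏ p ∈ D, p), ∏ p ∈ D, c p n = ∏ p ∈ D, ∑ n ∈ range p, c p n := by
  induction D using Finset.induction_on with
  | empty => simp
  | insert a D ha ih =>
    have hD' : ∀ p ∈ D, p.Prime := fun p hp => hD p (Finset.mem_insert_of_mem hp)
    have hper' : ∀ p ∈ D, Function.Periodic (c p) p := fun p hp => hper p (Finset.mem_insert_of_mem hp)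
    have hap := hD a (Finset.mem_insert_self a D)
    rw [Finset.prod_insert ha, Finset.prod_insert ha, ← ih hD' hper']
    rw [← crt_two a (∏ p ∈ D, p) hap.pos (Finset.prod_pos fun p hp => (hD' p hp).pos) _ (c a)
      (fun n => ∏ p ∈ D, c p n) (hper a (Finset.mem_insert_self a D)) (periodic_prod c D hper')]
    · apply Finset.sum_congr rfl
      intro n _
      rw [Finset.prod_insert ha]
    · apply Nat.Coprime.prod_right
      intro p hp
      exact (Nat.coprime_primes hap (hD' p hp)).2 (fun h => ha (h ▸ hp))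

lemma sum_period (f : ℕ → ℝ) (d : ℕ) (hf : Function.Periodic f d) (B : ℕ) :
    ∑ n ∈ Ico B (B + d), f n = ∑ n ∈ range d, f n := by
  induction B with
  | zero => simp
  | succ B ih =>
    rcases Nat.eq_zero_or_pos d with rfl | hd
    · simp
    rw [← ih]
    have h1 : ∑ n ∈ Ico B (B + 1 + d), f n = ∑ n ∈ Ico B (B + d), f n + f (B + d) := by
      rw [show B + 1 + d = B + d + 1 by ring, Finset.sum_Ico_succ_top (by omega)]
    have h2 : ∑ n ∈ Ico B (B + 1 + d), f n = f B + ∑ n ∈ Ico (B + 1) (B + 1 + d), f n := by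
      rw [Finset.sum_eq_sum_Ico_succ_bot (by omega)]
    have h3 := hf B
    linarith

lemma sum_blocks (f : ℕ → ℝ) (d : ℕ) (hf : Function.Periodic f d) (B q : ℕ) :
    ∑ n ∈ Ico B (B + q * d), f n = q * ∑ n ∈ range d, f n := by
  induction q with
  | zero => simp
  | succ q ih =>
    have h1 : B + (q + 1) * d = (B + q * d) + d := by ring
    rw [h1, ← Finset.sum_Ico_consecutive f (Nat.le_add_right B (q * d)) (Nat.le_add_right _ d), ih,
      sum_period f d hf]
    push_cast; ring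

lemma sum_interval (f : ℕ → ℝ) (d : ℕ) (hd : 0 < d) (hf : Function.Periodic f d)
    (h0 : ∀ n, 0 ≤ f n) (B H : ℕ) :
    |∑ n ∈ Ico B (B + H), f n - (H : ℝ) / d * ∑ n ∈ range d, f n| ≤ ∑ n ∈ range d, f n := by
  have hH : H = H / d * d + H % d := (Nat.div_add_mod' H d).symm
  set q := H / d with hq
  set t := H % d with ht
  have htd : t < d := Nat.mod_lt _ hd
  have h1 : B + H = (B + q * d) + t := by omega
  have hS0 : 0 ≤ ∑ n ∈ range d, f n := Finset.sum_nonneg fun n _ => h0 n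
  have h2 : ∑ n ∈ Ico B (B + H), f n = q * ∑ n ∈ range d, f n + ∑ n ∈ Ico (B + q * d) (B + q * d + t), f n := by
    rw [h1, ← Finset.sum_Ico_consecutive f (Nat.le_add_right B (q * d)) (Nat.le_add_right _ t),
      sum_blocks f d hf]
  have h3 : ∑ n ∈ Ico (B + q * d) (B + q * d + t), f n ≤ ∑ n ∈ range d, f n := by
    rw [← sum_period f d hf (B + q * d)]
    apply Finset.sum_le_sum_of_subset_of_nonneg
    · apply Finset.Ico_subset_Ico_right; omega
    · intro n _ _; exact h0 n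
  have h4 : 0 ≤ ∑ n ∈ Ico (B + q * d) (B + q * d + t), f n := Finset.sum_nonneg fun n _ => h0 n
  have hd' : (0 : ℝ) < d := by exact_mod_cast hd
  have h5 : (H : ℝ) / d = q + t / d := by
    rw [hH]; push_cast; field_simp
  have h6 : (t : ℝ) / d ≤ 1 := by
    rw [div_le_one hd']; exact_mod_cast htd.le
  have h7 : 0 ≤ (t : ℝ) / d := by positivity
  have h8 : (t : ℝ) / d * ∑ n ∈ range d, f n ≤ ∑ n ∈ range d, f n := by
    nlinarith
  have h9 : 0 ≤ (t : ℝ) / d * ∑ n ∈ range d, f n := mul_nonneg h7 hS0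
  rw [h2, h5, abs_le]
  constructor
  · linarith
  · linarith

/-- One dimensional weighted Brun pure sieve. -/
lemma sieve1 (P : Finset ℕ) (hP : ∀ p ∈ P, p.Prime) (c : ℕ → ℕ → ℝ)
    (hper : ∀ p ∈ P, Function.Periodic (c p) p) (h0 : ∀ p ∈ P, ∀ n, 0 ≤ c p n)
    (h1 : ∀ p ∈ P, ∀ n, c p n ≤ 1) (hG : ∀ p ∈ P, ∑ n ∈ range p, c p n ≤ 1)
    (z : ℕ) (hz : P.card ≤ z) (hz1 : 1 ≤ z) (r : ℕ) (hr : Even r) (B H : ℕ) :
    ∑ n ∈ Ico B (B + H), ∏ p ∈ P, (1 - c p n) ≤
      H * (∏ p ∈ P, (1 - (∑ n ∈ range p, c p n) / p)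
        + Real.exp (8 * ∑ p ∈ P, (1 : ℝ) / p) / 8 ^ r) + z ^ r * Real.exp 1 := by
  set G : ℕ → ℝ := fun p => ∑ n ∈ range p, c p n with hGdef
  have hG0 : ∀ p ∈ P, 0 ≤ G p := fun p hp => Finset.sum_nonneg fun n _ => h0 p hp n
  have hz0 : (0 : ℝ) < z := by exact_mod_cast hz1
  -- pointwise
  have step1 : ∀ n, ∏ p ∈ P, (1 - c p n) ≤
      ∑ D ∈ P.powerset, if D.card ≤ r then (-1 : ℝ) ^ D.card * ∏ p ∈ D, c p n else 0 := by
    intro n
    have := bonferroni (fun p => c p n) P (fun p hp => h0 p hp n) (fun p hp => h1 p hp n) r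
    rw [hr.neg_one_pow, one_mul, sub_nonneg] at this
    exact this
  have step2 : ∑ n ∈ Ico B (B + H), ∏ p ∈ P, (1 - c p n) ≤
      ∑ D ∈ P.powerset, if D.card ≤ r then (-1 : ℝ) ^ D.card * ∑ n ∈ Ico B (B + H), ∏ p ∈ D, c p n else 0 := by
    refine (Finset.sum_le_sum fun n _ => step1 n).trans (le_of_eq ?_)
    rw [Finset.sum_comm]
    apply Finset.sum_congr rfl
    intro D _
    split_ifs
    · rw [Finset.mul_sum]
    · simp
  have step3 : ∀ D ∈ P.powerset, (if D.card ≤ r then (-1 : ℝ) ^ D.card * ∑ n ∈ Ico B (B + H), ∏ p ∈ D, c p n else 0)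
      ≤ H * ((-1 : ℝ) ^ D.card * ∏ p ∈ D, (G p / p)) + H * ((1 / 8 ^ r) * ∏ p ∈ D, (8 * (1 / (p : ℝ))))
        + z ^ r * ∏ p ∈ D, (1 / (z : ℝ)) := by
    intro D hD
    rw [Finset.mem_powerset] at hD
    have hDp : ∀ p ∈ D, p.Prime := fun p hp => hP p (hD hp)
    have hd0 : 0 < ∏ p ∈ D, p := Finset.prod_pos fun p hp => (hDp p hp).pos
    have hperD : ∀ p ∈ D, Function.Periodic (c p) p := fun p hp => hper p (hD hp)
    have hGprod : ∏ p ∈ D, G p ≤ 1 := Finset.prod_le_one (fun p hp => hG0 p (hD hp)) (fun p hp => hG p (hD hp))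
    have hGprod0 : 0 ≤ ∏ p ∈ D, G p := Finset.prod_nonneg (fun p hp => hG0 p (hD hp))
    have hquot : ∏ p ∈ D, (G p / p) = (∏ p ∈ D, G p) / ((∏ p ∈ D, p : ℕ) : ℝ) := by
      rw [Finset.prod_div_distrib]; push_cast; rfl
    have h8 : ∏ p ∈ D, (8 * (1 / (p : ℝ))) = 8 ^ D.card * ∏ p ∈ D, (1 / (p : ℝ)) := by
      rw [Finset.prod_mul_distrib, Finset.prod_const]
    have hz' : ∏ p ∈ D, (1 / (z : ℝ)) = (1 / (z : ℝ)) ^ D.card := by
      rw [Finset.prod_const]
    have hinv0 : (0 : ℝ) ≤ ∏ p ∈ D, (1 / (p : ℝ)) := Finset.prod_nonneg fun p _ => by positivity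
    have hgle : ∏ p ∈ D, (G p / p) ≤ ∏ p ∈ D, (1 / (p : ℝ)) := by
      apply Finset.prod_le_prod
      · intro p hp
        exact div_nonneg (hG0 p (hD hp)) (by positivity)
      · intro p hp
        exact div_le_div_of_nonneg_right (hG p (hD hp)) (by positivity)
    have hg0 : 0 ≤ ∏ p ∈ D, (G p / p) := by
      apply Finset.prod_nonneg
      intro p hp
      exact div_nonneg (hG0 p (hD hp)) (by positivity)
    split_ifs with hcard
    · have hint := sum_interval (fun n => ∏ p ∈ D, c p n) (∏ p ∈ D, p) hd0 (periodic_prod c D hperD)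
        (fun n => Finset.prod_nonneg fun p hp => h0 p (hD hp) n) B H
      rw [crt_prod c D hDp hperD] at hint
      have hmain : (H : ℝ) / ((∏ p ∈ D, p : ℕ) : ℝ) * ∏ p ∈ D, ∑ n ∈ range p, c p n
          = H * ∏ p ∈ D, (G p / p) := by
        rw [hquot]; ring
      rw [hmain] at hint
      have hle : ∏ p ∈ D, ∑ n ∈ range p, c p n ≤ 1 := hGprod
      have habs := hint.trans hle
      rw [abs_le] at habs
      have e1 : (-1 : ℝ) ^ D.card * ∑ n ∈ Ico B (B + H), ∏ p ∈ D, c p n ≤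
          H * ((-1 : ℝ) ^ D.card * ∏ p ∈ D, (G p / p)) + 1 := by
        rcases neg_one_pow_eq_or ℝ D.card with h | h
        · rw [h]; linarith [habs.2]
        · rw [h]; linarith [habs.1]
      have e2 : (0 : ℝ) ≤ H * ((1 / 8 ^ r) * ∏ p ∈ D, (8 * (1 / (p : ℝ)))) := by
        rw [h8]; positivity
      have e3 : (1 : ℝ) ≤ z ^ r * ∏ p ∈ D, (1 / (z : ℝ)) := by
        rw [hz', one_div, inv_pow, ← div_eq_mul_inv, one_le_div (by positivity)]
        exact pow_le_pow_right₀ (by exact_mod_cast hz1) hcard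
      linarith
    · push Not at hcard
      have e3 : (0 : ℝ) ≤ z ^ r * ∏ p ∈ D, (1 / (z : ℝ)) := by
        rw [hz']; positivity
      have e2 : ∏ p ∈ D, (G p / p) ≤ (1 / 8 ^ r) * ∏ p ∈ D, (8 * (1 / (p : ℝ))) := by
        rw [h8]
        have : (1 : ℝ) ≤ (1 / 8 ^ r) * 8 ^ D.card := by
          rw [one_div, inv_mul_eq_div, one_le_div (by positivity)]
          exact pow_le_pow_right₀ (by norm_num) hcard.le
        calc ∏ p ∈ D, (G p / p) ≤ 1 * ∏ p ∈ D, (1 / (p : ℝ)) := by rw [one_mul]; exact hgle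
          _ ≤ ((1 / 8 ^ r) * 8 ^ D.card) * ∏ p ∈ D, (1 / (p : ℝ)) :=
            mul_le_mul_of_nonneg_right this hinv0
          _ = _ := by ring
      have e4 : 0 ≤ (-1 : ℝ) ^ D.card * ∏ p ∈ D, (G p / p) + (1 / 8 ^ r) * ∏ p ∈ D, (8 * (1 / (p : ℝ))) := by
        rcases neg_one_pow_eq_or ℝ D.card with h | h
        · rw [h]; linarith
        · rw [h]; linarith
      have e5 : 0 ≤ (H : ℝ) * ((-1 : ℝ) ^ D.card * ∏ p ∈ D, (G p / p) + (1 / 8 ^ r) * ∏ p ∈ D, (8 * (1 / (p : ℝ)))) :=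
        mul_nonneg (by positivity) e4
      linarith
  refine step2.trans ((Finset.sum_le_sum step3).trans ?_)
  rw [Finset.sum_add_distrib, Finset.sum_add_distrib, ← Finset.mul_sum, ← Finset.mul_sum,
    ← Finset.mul_sum, ← Finset.mul_sum]
  have f1 : ∑ D ∈ P.powerset, (-1 : ℝ) ^ D.card * ∏ p ∈ D, (G p / p) = ∏ p ∈ P, (1 - G p / p) := by
    have : ∀ D ∈ P.powerset, (-1 : ℝ) ^ D.card * ∏ p ∈ D, (G p / p) = ∏ p ∈ D, (-(G p / p)) := by
      intro D _
      rw [Finset.prod_neg]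
    rw [Finset.sum_congr rfl this]
    have := Finset.prod_one_add (f := fun p => -(G p / (p : ℝ))) (s := P)
    rw [← this]
    apply Finset.prod_congr rfl
    intro p _; ring
  have f2 : ∑ D ∈ P.powerset, ∏ p ∈ D, (8 * (1 / (p : ℝ))) ≤ Real.exp (8 * ∑ p ∈ P, (1 : ℝ) / p) := by
    rw [← Finset.prod_one_add, Finset.mul_sum, Real.exp_sum]
    apply Finset.prod_le_prod
    · intro p _; positivity
    · intro p _
      have := Real.add_one_le_exp (8 * (1 / (p : ℝ)))
      linarith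
  have f3 : ∑ D ∈ P.powerset, ∏ p ∈ D, (1 / (z : ℝ)) ≤ Real.exp 1 := by
    rw [← Finset.prod_one_add, Finset.prod_const]
    have h5 : 1 + 1 / (z : ℝ) ≤ Real.exp (1 / z) := by
      have := Real.add_one_le_exp (1 / (z : ℝ)); linarith
    calc (1 + 1 / (z : ℝ)) ^ P.card ≤ (Real.exp (1 / z)) ^ P.card :=
          pow_le_pow_left₀ (by positivity) h5 _
      _ ≤ (Real.exp (1 / z)) ^ z := pow_le_pow_right₀ (Real.one_le_exp (by positivity)) hz
      _ = Real.exp 1 := by
        rw [← Real.exp_nat_mul]; congr 1; field_simp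
  rw [f1]
  have g1 : (H : ℝ) * (1 / 8 ^ r * ∑ D ∈ P.powerset, ∏ p ∈ D, (8 * (1 / (p : ℝ)))) ≤
      H * (Real.exp (8 * ∑ p ∈ P, (1 : ℝ) / p) / 8 ^ r) := by
    apply mul_le_mul_of_nonneg_left _ (by positivity)
    rw [one_div, inv_mul_eq_div]
    exact div_le_div_of_nonneg_right f2 (by positivity)
  have g2 : (z : ℝ) ^ r * ∑ D ∈ P.powerset, ∏ p ∈ D, (1 / (z : ℝ)) ≤ z ^ r * Real.exp 1 :=
    mul_le_mul_of_nonneg_left f3 (by positivity)
  linarith

end Pool.Agent.Helper559
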