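import Mathlib
import Pool.Agent.Helper559.Sieve

set_option autoImplicit false

namespace Pool.Agent.Helper559

open Finset

lemma one_sub_ge_exp (g : ℝ) (h0 : 0 ≤ g) (h1 : g ≤ 1 / 2) : Real.exp (-(2 * g)) ≤ 1 - g := by
  rw [Real.exp_neg, inv_le_comm₀ (Real.exp_pos _) (by linarith)]
  have h2 := Real.add_one_le_exp (2 * g)
  refine le_trans ?_ h2
  rw [inv_le_iff_one_le_mul₀ (by linarith)]
  nlinarith

/-- Clean form of the one dimensional sieve bound. -/
lemma sieve1' (P : Finset ℕ) (hP : ∀ p ∈ P, p.Prime) (hP3 : ∀ p ∈ P, 3 ≤ p) (c : ℕ → ℕ → ℝ)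
    (hper : ∀ p ∈ P, Function.Periodic (c p) p) (h0 : ∀ p ∈ P, ∀ n, 0 ≤ c p n)
    (h1 : ∀ p ∈ P, ∀ n, c p n ≤ 1) (hG : ∀ p ∈ P, ∑ n ∈ range p, c p n ≤ 1)
    (z : ℕ) (hz : P.card ≤ z) (hz1 : 1 ≤ z) (r : ℕ) (hr : Even r) (B H : ℕ) (s : ℝ)
    (hs : ∑ p ∈ P, (1 : ℝ) / p ≤ s) (hc1 : Real.exp (8 * s) / 8 ^ r ≤ Real.exp (-(2 * s)))
    (hc2 : z ^ r * Real.exp 1 ≤ H * Real.exp (-(2 * s))) :
    ∑ n ∈ Ico B (B + H), ∏ p ∈ P, (1 - c p n) ≤
      3 * H * ∏ p ∈ P, (1 - (∑ n ∈ range p, c p n) / p) := by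
  have hmain := sieve1 P hP c hper h0 h1 hG z hz hz1 r hr B H
  have hprod : Real.exp (-(2 * s)) ≤ ∏ p ∈ P, (1 - (∑ n ∈ range p, c p n) / p) := by
    have h2 : Real.exp (-(2 * s)) ≤ Real.exp (∑ p ∈ P, -(2 * ((∑ n ∈ range p, c p n) / p))) := by
      apply Real.exp_le_exp.2
      rw [Finset.sum_neg_distrib, ← Finset.mul_sum]
      have : ∑ p ∈ P, (∑ n ∈ range p, c p n) / (p : ℝ) ≤ ∑ p ∈ P, (1 : ℝ) / p := by
        apply Finset.sum_le_sum
        intro p hp
        exact div_le_div_of_nonneg_right (hG p hp) (by positivity)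
      linarith
    refine h2.trans ?_
    rw [Real.exp_sum]
    apply Finset.prod_le_prod
    · intro p _; exact (Real.exp_pos _).le
    · intro p hp
      have hp3 : (3 : ℝ) ≤ p := by exact_mod_cast hP3 p hp
      apply one_sub_ge_exp
      · exact div_nonneg (Finset.sum_nonneg fun n _ => h0 p hp n) (by positivity)
      · rw [div_le_iff₀ (by linarith)]
        have := hG p hp
        linarith
  have h8 : Real.exp (8 * ∑ p ∈ P, (1 : ℝ) / p) / 8 ^ r ≤ Real.exp (8 * s) / 8 ^ r := by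
    apply div_le_div_of_nonneg_right _ (by positivity)
    apply Real.exp_le_exp.2; linarith
  have hH : (0 : ℝ) ≤ H := by positivity
  have e1 : (H : ℝ) * (Real.exp (8 * ∑ p ∈ P, (1 : ℝ) / p) / 8 ^ r) ≤
      H * ∏ p ∈ P, (1 - (∑ n ∈ range p, c p n) / p) :=
    mul_le_mul_of_nonneg_left (h8.trans (hc1.trans hprod)) hH
  have e2 : (z : ℝ) ^ r * Real.exp 1 ≤ H * ∏ p ∈ P, (1 - (∑ n ∈ range p, c p n) / p) :=
    hc2.trans (mul_le_mul_of_nonneg_left hprod hH)
  linarith

lemma sum_ind_dvd (p : ℕ) (hp : 0 < p) (x : ℝ) :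
    ∑ n ∈ range p, (if p ∣ n then x else 0) = x := by
  rw [Finset.sum_eq_single 0]
  · simp
  · intro n hn hn0
    rw [if_neg]
    intro h
    exact hn0 (Nat.eq_zero_of_dvd_of_lt h (Finset.mem_range.1 hn))
  · intro h
    exact absurd (Finset.mem_range.2 hp) h

lemma sum_ind_dvd_add (p m : ℕ) (hp : 0 < p) (x : ℝ) :
    ∑ n ∈ range p, (if p ∣ m + n then x else 0) = x := by
  rw [Finset.sum_eq_single ((p - m % p) % p)]
  · rw [if_pos]
    have h1 : m % p < p := Nat.mod_lt _ hp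
    have h2 : (m + (p - m % p) % p) % p = 0 := by
      rw [Nat.add_mod, Nat.mod_mod, Nat.mod_add_mod, Nat.add_mod_mod]
      have : m % p + (p - m % p) = p := by omega
      have h3 : (m + (p - m % p)) % p = (m % p + (p - m % p)) % p := by
        rw [Nat.mod_add_mod]
      rw [h3, this, Nat.mod_self]
    exact Nat.dvd_of_mod_eq_zero h2
  · intro n hn hn0
    rw [if_neg]
    intro h
    apply hn0
    have h1 : m % p < p := Nat.mod_lt _ hp
    have hn' := Finset.mem_range.1 hn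
    have h2 : (m % p + n) % p = 0 := by
      rw [Nat.mod_add_mod]; exact Nat.mod_eq_zero_of_dvd h
    have h3 : m % p + n = 0 ∨ m % p + n = p := by
      have h4 : p ∣ m % p + n := Nat.dvd_of_mod_eq_zero h2
      obtain ⟨k, hk⟩ := h4
      have : k < 2 := by
        by_contra hk2
        push Not at hk2
        have : p * 2 ≤ p * k := Nat.mul_le_mul_left p hk2
        omega
      interval_cases k
      · left; simpa using hk
      · right; simpa using hk
    rcases h3 with h3 | h3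
    · have : m % p = 0 := by omega
      rw [this]; simp; omega
    · have : p - m % p = n := by omega
      rw [this, Nat.mod_eq_of_lt hn']
  · intro h
    exact absurd (Finset.mem_range.2 (Nat.mod_lt _ hp)) h

/-- Two dimensional weighted sieve. -/
lemma sieve2 (P : Finset ℕ) (hP : ∀ p ∈ P, p.Prime) (hP3 : ∀ p ∈ P, 3 ≤ p)
    (α β γ : ℕ → ℝ) (hα1 : ∀ p ∈ P, α p ≤ 1) (hβ0 : ∀ p ∈ P, 0 ≤ β p) (hγ0 : ∀ p ∈ P, 0 ≤ γ p)
    (hβγ : ∀ p ∈ P, β p + γ p ≤ 1) (hα0 : ∀ p ∈ P, (β p + γ p) / p ≤ α p)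
    (z : ℕ) (hz : P.card ≤ z) (hz1 : 1 ≤ z) (r : ℕ) (hr : Even r) (A B H1 H2 : ℕ) (s : ℝ)
    (hs : ∑ p ∈ P, (1 : ℝ) / p ≤ s) (hc1 : Real.exp (8 * s) / 8 ^ r ≤ Real.exp (-(2 * s)))
    (hc2 : z ^ r * Real.exp 1 ≤ H1 * Real.exp (-(2 * s)))
    (hc3 : z ^ r * Real.exp 1 ≤ H2 * Real.exp (-(2 * s))) :
    ∑ m ∈ Ico A (A + H1), ∑ n ∈ Ico B (B + H2),
      (if Nat.Coprime m n then ∏ p ∈ P, ((if p ∣ m then 1 - α p else 1) *
        ((if p ∣ n then 1 - β p else 1) * (if p ∣ m + n then 1 - γ p else 1))) else 0) ≤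
      9 * H1 * H2 * Real.exp (- ∑ p ∈ P, (α p + β p + γ p) / p + ∑ p ∈ P, (1 : ℝ) / p ^ 2) := by
  set g : ℕ → ℝ := fun p => (β p + γ p) / p with hg
  have hg0 : ∀ p ∈ P, 0 ≤ g p := fun p hp => div_nonneg (add_nonneg (hβ0 p hp) (hγ0 p hp)) (by positivity)
  have hg1 : ∀ p ∈ P, g p ≤ 1 / 3 := by
    intro p hp
    have hp3 : (3 : ℝ) ≤ p := by exact_mod_cast hP3 p hp
    simp only [hg]
    rw [div_le_iff₀ (by linarith)]
    have := hβγ p hp
    linarith
  -- inner sum
  have inner : ∀ m ∈ Ico A (A + H1), ∑ n ∈ Ico B (B + H2),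
      (if Nat.Coprime m n then ∏ p ∈ P, ((if p ∣ m then 1 - α p else 1) *
        ((if p ∣ n then 1 - β p else 1) * (if p ∣ m + n then 1 - γ p else 1))) else 0) ≤
      3 * H2 * ∏ p ∈ P, (if p ∣ m then 1 - α p else 1 - g p) := by
    intro m _
    set P' := P.filter (fun p => ¬ p ∣ m) with hP'
    have hsub : P' ⊆ P := Finset.filter_subset _ _
    set c : ℕ → ℕ → ℝ := fun p n => (if p ∣ n then β p else 0) + (if p ∣ m + n then γ p else 0) with hc
    have hcper : ∀ p ∈ P', Function.Periodic (c p) p := by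
      intro p _ n
      simp only [hc]
      congr 1
      · simp
      · rw [← add_assoc]; simp
    have hc0 : ∀ p ∈ P', ∀ n, 0 ≤ c p n := by
      intro p hp n
      simp only [hc]
      have := hβ0 p (hsub hp)
      have := hγ0 p (hsub hp)
      split_ifs <;> linarith
    have hcle : ∀ p ∈ P', ∀ n, c p n ≤ 1 := by
      intro p hp n
      simp only [hc]
      have := hβ0 p (hsub hp)
      have := hγ0 p (hsub hp)
      have := hβγ p (hsub hp)
      split_ifs <;> linarith
    have hcG : ∀ p ∈ P', ∑ n ∈ range p, c p n = β p + γ p := by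
      intro p hp
      simp only [hc]
      have hp0 := (hP p (hsub hp)).pos
      rw [Finset.sum_add_distrib, sum_ind_dvd p hp0, sum_ind_dvd_add p m hp0]
    have hsieve := sieve1' P' (fun p hp => hP p (hsub hp)) (fun p hp => hP3 p (hsub hp)) c hcper hc0 hcle
      (fun p hp => by rw [hcG p hp]; exact hβγ p (hsub hp)) z ((Finset.card_le_card hsub).trans hz) hz1 r hr
      B H2 s ((Finset.sum_le_sum_of_subset_of_nonneg hsub (fun p _ _ => by positivity)).trans hs) hc1 hc3
    have hprodle : ∀ n, (if Nat.Coprime m n then ∏ p ∈ P, ((if p ∣ m then 1 - α p else 1) *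
        ((if p ∣ n then 1 - β p else 1) * (if p ∣ m + n then 1 - γ p else 1))) else 0) ≤
        (∏ p ∈ P, (if p ∣ m then 1 - α p else 1)) * ∏ p ∈ P', (1 - c p n) := by
      intro n
      have hA0 : 0 ≤ ∏ p ∈ P, (if p ∣ m then 1 - α p else 1) := by
        apply Finset.prod_nonneg
        intro p hp
        have := hα1 p hp
        split_ifs <;> linarith
      have hC0 : 0 ≤ ∏ p ∈ P', (1 - c p n) := Finset.prod_nonneg fun p hp => by linarith [hcle p hp n]
      split_ifs with hco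
      · rw [Finset.prod_mul_distrib]
        apply mul_le_mul_of_nonneg_left _ hA0
        apply le_of_eq
        rw [hP', Finset.prod_filter]
        apply Finset.prod_congr rfl
        intro p hp
        have hpp := hP p hp
        by_cases hpm : p ∣ m
        · have hpn : ¬ p ∣ n := fun h => hpp.one_lt.ne' (Nat.dvd_one.1 (hco ▸ Nat.dvd_gcd hpm h))
          have hpmn : ¬ p ∣ m + n := fun h => hpn ((Nat.dvd_add_right hpm).1 h)
          simp [hpm, hpn, hpmn]
        · simp only [hc]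
          by_cases hpn : p ∣ n
          · have hpmn : ¬ p ∣ m + n := fun h => hpm ((Nat.dvd_add_left hpn).1 h)
            simp [hpm, hpn, hpmn]
          · by_cases hpmn : p ∣ m + n <;> simp [hpm, hpn, hpmn]
      · exact mul_nonneg hA0 hC0
    calc _ ≤ ∑ n ∈ Ico B (B + H2), (∏ p ∈ P, (if p ∣ m then 1 - α p else 1)) * ∏ p ∈ P', (1 - c p n) :=
          Finset.sum_le_sum fun n _ => hprodle n
      _ = (∏ p ∈ P, (if p ∣ m then 1 - α p else 1)) * ∑ n ∈ Ico B (B + H2), ∏ p ∈ P', (1 - c p n) := by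
          rw [Finset.mul_sum]
      _ ≤ (∏ p ∈ P, (if p ∣ m then 1 - α p else 1)) *
          (3 * H2 * ∏ p ∈ P', (1 - (∑ n ∈ range p, c p n) / p)) := by
          apply mul_le_mul_of_nonneg_left hsieve
          apply Finset.prod_nonneg
          intro p hp
          have := hα1 p hp
          split_ifs <;> linarith
      _ = 3 * H2 * ((∏ p ∈ P, (if p ∣ m then 1 - α p else 1)) *
          ∏ p ∈ P', (1 - (∑ n ∈ range p, c p n) / p)) := by ring
      _ = 3 * H2 * ∏ p ∈ P, (if p ∣ m then 1 - α p else 1 - g p) := by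
          congr 1
          have : ∏ p ∈ P', (1 - (∑ n ∈ range p, c p n) / p) = ∏ p ∈ P', (1 - g p) := by
            apply Finset.prod_congr rfl
            intro p hp
            rw [hcG p hp]
          rw [this, hP', Finset.prod_filter, ← Finset.prod_mul_distrib]
          apply Finset.prod_congr rfl
          intro p _
          by_cases hpm : p ∣ m <;> simp [hpm]
  refine (Finset.sum_le_sum inner).trans ?_
  rw [← Finset.mul_sum]
  -- outer sum
  set a' : ℕ → ℝ := fun p => (α p - g p) / (1 - g p) with ha'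
  have hg1' : ∀ p ∈ P, 0 < 1 - g p := fun p hp => by linarith [hg1 p hp]
  have ha0 : ∀ p ∈ P, 0 ≤ a' p := fun p hp => div_nonneg (by linarith [hα0 p hp]) (hg1' p hp).le
  have ha1 : ∀ p ∈ P, a' p ≤ 1 := by
    intro p hp
    simp only [ha']
    rw [div_le_one (hg1' p hp)]
    linarith [hα1 p hp]
  set c2 : ℕ → ℕ → ℝ := fun p m => if p ∣ m then a' p else 0 with hc2def
  have hfac : ∀ m, ∏ p ∈ P, (if p ∣ m then 1 - α p else 1 - g p) =
      (∏ p ∈ P, (1 - g p)) * ∏ p ∈ P, (1 - c2 p m) := by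
    intro m
    rw [← Finset.prod_mul_distrib]
    apply Finset.prod_congr rfl
    intro p hp
    have := (hg1' p hp).ne'
    simp only [hc2def, ha']
    split_ifs
    · field_simp; ring
    · simp
  have hG2 : ∀ p ∈ P, ∑ n ∈ range p, c2 p n = a' p := by
    intro p hp
    simp only [hc2def]
    exact sum_ind_dvd p (hP p hp).pos _
  have hsieve2 := sieve1' P hP hP3 c2 (by
      intro p _ n
      simp only [hc2def]
      simp) (by
      intro p hp n
      simp only [hc2def]
      have := ha0 p hp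
      split_ifs <;> linarith) (by
      intro p hp n
      simp only [hc2def]
      have := ha1 p hp
      split_ifs <;> linarith) (fun p hp => by rw [hG2 p hp]; exact ha1 p hp) z hz hz1 r hr A H1 s hs hc1 hc2
  rw [Finset.sum_congr rfl (fun m _ => hfac m), ← Finset.mul_sum]
  have hpg : 0 ≤ ∏ p ∈ P, (1 - g p) := Finset.prod_nonneg fun p hp => (hg1' p hp).le
  have e1 : (∏ p ∈ P, (1 - g p)) * ∑ m ∈ Ico A (A + H1), ∏ p ∈ P, (1 - c2 p m) ≤
      (∏ p ∈ P, (1 - g p)) * (3 * H1 * ∏ p ∈ P, (1 - a' p / p)) := by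
    apply mul_le_mul_of_nonneg_left _ hpg
    refine hsieve2.trans (le_of_eq ?_)
    congr 1
    apply Finset.prod_congr rfl
    intro p hp
    rw [hG2 p hp]
  have e2 : (∏ p ∈ P, (1 - g p)) * ∏ p ∈ P, (1 - a' p / p) ≤
      Real.exp (- ∑ p ∈ P, (α p + β p + γ p) / p + ∑ p ∈ P, (1 : ℝ) / p ^ 2) := by
    rw [← Finset.prod_mul_distrib, ← Finset.sum_neg_distrib, ← Finset.sum_add_distrib, Real.exp_sum]
    apply Finset.prod_le_prod
    · intro p hp
      have hp3 : (3 : ℝ) ≤ p := by exact_mod_cast hP3 p hp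
      apply mul_nonneg (hg1' p hp).le
      have : a' p / p ≤ 1 := by
        rw [div_le_one (by linarith)]
        linarith [ha1 p hp]
      linarith
    · intro p hp
      have hp3 : (3 : ℝ) ≤ p := by exact_mod_cast hP3 p hp
      have hp0 : (p : ℝ) ≠ 0 := by positivity
      have h1 : (1 - g p) * (1 - a' p / p) = 1 - g p - (α p - g p) / p := by
        simp only [ha']
        have := (hg1' p hp).ne'
        field_simp
      rw [h1]
      have h2 := Real.add_one_le_exp (-((α p + β p + γ p) / p) + 1 / (p : ℝ) ^ 2)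
      refine le_trans ?_ h2
      have h3 : g p / p ≤ 1 / (p : ℝ) ^ 2 := by
        simp only [hg]
        rw [div_div, ← sq]
        exact div_le_div_of_nonneg_right (hβγ p hp) (by positivity)
      have h4 : (α p + β p + γ p) / (p : ℝ) = g p + α p / p := by
        simp only [hg]; ring
      have h5 : (α p - g p) / (p : ℝ) = α p / p - g p / p := by ring
      rw [h4, h5]
      linarith
  calc 3 * (H2 : ℝ) * ((∏ p ∈ P, (1 - g p)) * ∑ m ∈ Ico A (A + H1), ∏ p ∈ P, (1 - c2 p m))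
      ≤ 3 * (H2 : ℝ) * ((∏ p ∈ P, (1 - g p)) * (3 * H1 * ∏ p ∈ P, (1 - a' p / p))) :=
        mul_le_mul_of_nonneg_left e1 (by positivity)
    _ = 9 * H1 * H2 * ((∏ p ∈ P, (1 - g p)) * ∏ p ∈ P, (1 - a' p / p)) := by ring
    _ ≤ _ := mul_le_mul_of_nonneg_left e2 (by positivity)

end Pool.Agent.Helper559
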