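import Mathlib
import Pool.Agent.Helper559.Euler
import Pool.Agent.Helper559.Sieve2

set_option autoImplicit false

namespace Pool.Agent.Helper559

open Finset

/-- Every odd prime factor exceeds `T`. -/
def orough (T n : ℕ) : Prop := ∀ p : ℕ, p.Prime → p ∣ n → p = 2 ∨ T < p

/-- Every prime factor exceeds `T`. -/
def rough (T n : ℕ) : Prop := ∀ p : ℕ, p.Prime → p ∣ n → T < p

lemma pow_Om_le (ζ : ℝ) (h0 : 0 < ζ) (h1 : ζ ≤ 1) (T y m : ℕ) (hm : m ≠ 0) (P : Finset ℕ)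
    (hP : ∀ p ∈ P, p.Prime) (hPy : ∀ p ∈ P, p ≤ y) (w : ℕ → ℝ)
    (hw1 : ∀ p ∈ P, T < p → w p = ζ) (hw2 : ∀ p ∈ P, p ≤ T → p ∣ m → w p = 1) :
    ζ ^ Om T y m ≤ ∏ p ∈ P, (if p ∣ m then w p else 1) := by
  rw [Om, ← Finset.prod_pow_eq_pow_sum]
  have hsub : P.filter (fun p => T < p) ⊆ (Ioc T y).filter Nat.Prime := by
    intro p hp
    rw [Finset.mem_filter] at hp
    rw [Finset.mem_filter, Finset.mem_Ioc]
    exact ⟨⟨hp.2, hPy p hp.1⟩, hP p hp.1⟩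
  have e1 : ∏ p ∈ (Ioc T y).filter Nat.Prime, ζ ^ m.factorization p ≤
      ∏ p ∈ P.filter (fun p => T < p), ζ ^ m.factorization p := by
    rw [← Finset.prod_sdiff hsub]
    have : ∏ p ∈ (Ioc T y).filter Nat.Prime \ P.filter (fun p => T < p), ζ ^ m.factorization p ≤ 1 :=
      Finset.prod_le_one (fun p _ => pow_nonneg h0.le _) (fun p _ => pow_le_one₀ h0.le h1)
    have h2 : 0 ≤ ∏ p ∈ P.filter (fun p => T < p), ζ ^ m.factorization p :=
      Finset.prod_nonneg fun p _ => pow_nonneg h0.le _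
    nlinarith
  refine e1.trans ?_
  rw [Finset.prod_filter]
  apply Finset.prod_le_prod
  · intro p _
    split_ifs
    · exact pow_nonneg h0.le _
    · norm_num
  · intro p hp
    by_cases hT : T < p
    · rw [if_pos hT]
      by_cases hpm : p ∣ m
      · rw [if_pos hpm, hw1 p hp hT]
        have : 1 ≤ m.factorization p := (hP p hp).factorization_pos_of_dvd hm hpm
        calc ζ ^ m.factorization p ≤ ζ ^ 1 := pow_le_pow_of_le_one h0.le h1 this
          _ = ζ := pow_one ζ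
      · rw [if_neg hpm]
        exact pow_le_one₀ h0.le h1
    · rw [if_neg hT]
      by_cases hpm : p ∣ m
      · rw [if_pos hpm, hw2 p hp (not_lt.1 hT) hpm]
      · rw [if_neg hpm]

open scoped Classical in
/-- Pairs `(m,n)` that can occur at the scale `y`. -/
noncomputable def Qs (T y R : ℕ) : Finset (ℕ × ℕ) :=
  ((Icc 1 (y ^ 2)) ×ˢ (Icc 1 (y ^ 2))).filter (fun x => Nat.Coprime x.1 x.2 ∧ y < x.1 + x.2 ∧
    x.1 + x.2 ≤ y ^ 2 ∧ x.1 ≤ R * x.2 ∧ x.2 ≤ R * x.1 ∧ orough T x.1 ∧ orough T (x.1 + x.2))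

/-- The odd primes up to `z`. -/
def oddP (z : ℕ) : Finset ℕ := (Icc 3 z).filter Nat.Prime

lemma box_sum (z1 z2 : ℝ) (h10 : 0 < z1) (h11 : z1 ≤ 1) (h20 : 0 < z2) (h21 : z2 ≤ 1)
    (hz12 : 1 ≤ z2 + z1 * z2) (hz12' : (2 - z2 - z1 * z2) ≤ 3 * (1 - z1))
    (T y R z r : ℕ) (s : ℝ) (hzy : z ≤ y) (hz1 : 1 ≤ z) (hr : Even r)
    (hs : ∑ p ∈ oddP z, (1 : ℝ) / p ≤ s) (hc1 : Real.exp (8 * s) / 8 ^ r ≤ Real.exp (-(2 * s)))
    (hc2 : z ^ r * Real.exp 1 * (2 * (R + 1)) ≤ y * Real.exp (-(2 * s))) (a c : ℕ) :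
    ∑ x ∈ (Qs T y R).filter (fun x => Nat.log 2 x.1 = a ∧ Nat.log 2 x.2 = c),
      z1 ^ Om T y x.1 * z2 ^ Om T y x.2 * (z1 * z2) ^ Om T y (x.1 + x.2) / ((x.2 : ℝ) * ((x.1 : ℝ) + x.2))
    ≤ 9 * Real.exp (1 - ∑ p ∈ oddP z, (if p ≤ T then 2 else 3 - z1 - z2 - z1 * z2) / (p : ℝ)) := by
  classical
  set Q := (Qs T y R).filter (fun x => Nat.log 2 x.1 = a ∧ Nat.log 2 x.2 = c) with hQ
  rcases Q.eq_empty_or_nonempty with hemp | ⟨x0, hx0⟩
  · rw [hemp, Finset.sum_empty]; positivity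
  -- conditions
  have hz120 : 0 < z1 * z2 := by positivity
  have hz121 : z1 * z2 ≤ 1 := mul_le_one₀ h11 h20.le h21
  have hmem : ∀ x ∈ Q, 1 ≤ x.1 ∧ 1 ≤ x.2 ∧ Nat.Coprime x.1 x.2 ∧ y < x.1 + x.2 ∧ x.1 ≤ R * x.2 ∧ x.2 ≤ R * x.1 ∧
      orough T x.1 ∧ orough T (x.1 + x.2) ∧ 2 ^ a ≤ x.1 ∧ x.1 < 2 ^ (a + 1) ∧ 2 ^ c ≤ x.2 ∧ x.2 < 2 ^ (c + 1) := by
    intro x hx
    rw [hQ, Finset.mem_filter, Qs, Finset.mem_filter, Finset.mem_product, Finset.mem_Icc, Finset.mem_Icc] at hx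
    obtain ⟨⟨⟨⟨h1, _⟩, ⟨h2, _⟩⟩, h3, h4, h5, h6, h7, h8, h9⟩, h10, h11⟩ := hx
    refine ⟨h1, h2, h3, h4, h6, h7, h8, h9, ?_, ?_, ?_, ?_⟩
    · rw [← h10]; exact Nat.pow_log_le_self 2 (by omega)
    · rw [← h10]; exact Nat.lt_pow_succ_log_self (by norm_num) _
    · rw [← h11]; exact Nat.pow_log_le_self 2 (by omega)
    · rw [← h11]; exact Nat.lt_pow_succ_log_self (by norm_num) _
  have hea : 0 < Real.exp (-(2 * s)) := Real.exp_pos _
  obtain ⟨g1, g2, g3, g4, g5, g6, g7, g8, g9, g10, g11, g12⟩ := hmem x0 hx0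
  have hyR1 : (y : ℝ) ≤ 2 ^ a * (2 * (R + 1)) := by
    have : y ≤ 2 ^ a * (2 * (R + 1)) := by
      have e1 : x0.1 + x0.2 ≤ (R + 1) * x0.1 := by nlinarith
      have e2 : x0.1 ≤ 2 ^ a * 2 := by rw [← pow_succ]; exact g10.le
      nlinarith
    exact_mod_cast this
  have hyR2 : (y : ℝ) ≤ 2 ^ c * (2 * (R + 1)) := by
    have : y ≤ 2 ^ c * (2 * (R + 1)) := by
      have e1 : x0.1 + x0.2 ≤ (R + 1) * x0.2 := by nlinarith
      have e2 : x0.2 ≤ 2 ^ c * 2 := by rw [← pow_succ]; exact g12.le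
      nlinarith
    exact_mod_cast this
  have hR2 : (0 : ℝ) < 2 * (R + 1) := by positivity
  have hcA : z ^ r * Real.exp 1 ≤ ((2 ^ a : ℕ) : ℝ) * Real.exp (-(2 * s)) := by
    have h1 : z ^ r * Real.exp 1 * (2 * (R + 1)) ≤ (2 ^ a * Real.exp (-(2 * s))) * (2 * (R + 1)) := by
      refine hc2.trans ?_
      calc (y : ℝ) * Real.exp (-(2 * s)) ≤ 2 ^ a * (2 * (R + 1)) * Real.exp (-(2 * s)) :=
            mul_le_mul_of_nonneg_right hyR1 hea.le
        _ = _ := by ring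
    push_cast
    exact le_of_mul_le_mul_right h1 hR2
  have hcB : z ^ r * Real.exp 1 ≤ ((2 ^ c : ℕ) : ℝ) * Real.exp (-(2 * s)) := by
    have h1 : z ^ r * Real.exp 1 * (2 * (R + 1)) ≤ (2 ^ c * Real.exp (-(2 * s))) * (2 * (R + 1)) := by
      refine hc2.trans ?_
      calc (y : ℝ) * Real.exp (-(2 * s)) ≤ 2 ^ c * (2 * (R + 1)) * Real.exp (-(2 * s)) :=
            mul_le_mul_of_nonneg_right hyR2 hea.le
        _ = _ := by ring
    push_cast
    exact le_of_mul_le_mul_right h1 hR2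
  set α : ℕ → ℝ := fun p => if p ≤ T then 1 else 1 - z1 with hα
  set β : ℕ → ℝ := fun p => if p ≤ T then 0 else 1 - z2 with hβ
  set γ : ℕ → ℝ := fun p => if p ≤ T then 1 else 1 - z1 * z2 with hγ
  have hPp : ∀ p ∈ oddP z, p.Prime := fun p hp => (Finset.mem_filter.1 hp).2
  have hP3 : ∀ p ∈ oddP z, 3 ≤ p := fun p hp => (Finset.mem_Icc.1 (Finset.mem_filter.1 hp).1).1
  have hPz : ∀ p ∈ oddP z, p ≤ z := fun p hp => (Finset.mem_Icc.1 (Finset.mem_filter.1 hp).1).2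
  have hcard : (oddP z).card ≤ z := by
    refine (Finset.card_filter_le _ _).trans ?_
    simp
  have hsieve := sieve2 (oddP z) hPp hP3 α β γ
    (by intro p _; simp only [hα]; split_ifs <;> linarith)
    (by intro p _; simp only [hβ]; split_ifs <;> linarith)
    (by intro p _; simp only [hγ]; split_ifs <;> linarith)
    (by intro p _; simp only [hβ, hγ]; split_ifs <;> linarith)
    (by
      intro p hp
      have h3 : (3 : ℝ) ≤ p := by exact_mod_cast hP3 p hp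
      simp only [hα, hβ, hγ]
      split_ifs
      · rw [div_le_iff₀ (by linarith)]; linarith
      · rw [div_le_iff₀ (by linarith)]
        have : 0 ≤ 1 - z1 := by linarith
        nlinarith)
    z hcard hz1 r hr (2 ^ a) (2 ^ c) (2 ^ a) (2 ^ c) s hs hc1 hcA hcB
  -- pointwise bound
  have hpt : ∀ x ∈ Q, z1 ^ Om T y x.1 * z2 ^ Om T y x.2 * (z1 * z2) ^ Om T y (x.1 + x.2) /
      ((x.2 : ℝ) * ((x.1 : ℝ) + x.2)) ≤ (1 / (2 ^ a * 2 ^ c)) *
      (if Nat.Coprime x.1 x.2 then ∏ p ∈ oddP z, ((if p ∣ x.1 then 1 - α p else 1) *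
        ((if p ∣ x.2 then 1 - β p else 1) * (if p ∣ x.1 + x.2 then 1 - γ p else 1))) else 0) := by
    intro x hx
    obtain ⟨g1, g2, g3, g4, g5, g6, g7, g8, g9, g10, g11, g12⟩ := hmem x hx
    rw [if_pos g3, Finset.prod_mul_distrib, Finset.prod_mul_distrib]
    have e1 : z1 ^ Om T y x.1 ≤ ∏ p ∈ oddP z, (if p ∣ x.1 then 1 - α p else 1) := by
      apply pow_Om_le z1 h10 h11 T y x.1 (by omega) (oddP z) hPp (fun p hp => (hPz p hp).trans hzy)
      · intro p _ hT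
        simp only [hα]
        rw [if_neg (by omega)]; ring
      · intro p hp hT hd
        exfalso
        rcases g7 p (hPp p hp) hd with h | h
        · have := hP3 p hp; omega
        · omega
    have e2 : z2 ^ Om T y x.2 ≤ ∏ p ∈ oddP z, (if p ∣ x.2 then 1 - β p else 1) := by
      apply pow_Om_le z2 h20 h21 T y x.2 (by omega) (oddP z) hPp (fun p hp => (hPz p hp).trans hzy)
      · intro p _ hT
        simp only [hβ]
        rw [if_neg (by omega)]; ring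
      · intro p _ hT _
        simp only [hβ]
        rw [if_pos hT]; ring
    have e3 : (z1 * z2) ^ Om T y (x.1 + x.2) ≤ ∏ p ∈ oddP z, (if p ∣ x.1 + x.2 then 1 - γ p else 1) := by
      apply pow_Om_le (z1 * z2) hz120 hz121 T y (x.1 + x.2) (by omega) (oddP z) hPp
        (fun p hp => (hPz p hp).trans hzy)
      · intro p _ hT
        simp only [hγ]
        rw [if_neg (by omega)]; ring
      · intro p hp hT hd
        exfalso
        rcases g8 p (hPp p hp) hd with h | h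
        · have := hP3 p hp; omega
        · omega
    have f1 : 0 ≤ z1 ^ Om T y x.1 := by positivity
    have f2 : 0 ≤ z2 ^ Om T y x.2 := by positivity
    have f3 : 0 ≤ (z1 * z2) ^ Om T y (x.1 + x.2) := by positivity
    have e4 : z1 ^ Om T y x.1 * z2 ^ Om T y x.2 * (z1 * z2) ^ Om T y (x.1 + x.2) ≤
        (∏ p ∈ oddP z, (if p ∣ x.1 then 1 - α p else 1)) *
        ((∏ p ∈ oddP z, (if p ∣ x.2 then 1 - β p else 1)) *
          ∏ p ∈ oddP z, (if p ∣ x.1 + x.2 then 1 - γ p else 1)) := by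
      rw [mul_assoc]
      exact mul_le_mul e1 (mul_le_mul e2 e3 f3 (f2.trans e2)) (by positivity) (f1.trans e1)
    have hx1 : ((2 : ℝ) ^ a) ≤ x.1 := by exact_mod_cast g9
    have hx2 : ((2 : ℝ) ^ c) ≤ x.2 := by exact_mod_cast g11
    have hden : (2 : ℝ) ^ a * 2 ^ c ≤ (x.2 : ℝ) * ((x.1 : ℝ) + x.2) := by
      have : (0 : ℝ) ≤ x.2 := by positivity
      have h2a : (0 : ℝ) ≤ 2 ^ a := by positivity
      nlinarith [mul_le_mul hx1 hx2 (by positivity) (h2a.trans hx1)]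
    rw [div_eq_mul_one_div, mul_comm]
    apply mul_le_mul _ e4 (by positivity) (by positivity)
    exact one_div_le_one_div_of_le (by positivity) hden
  have hnn : ∀ m n : ℕ, 0 ≤ (if Nat.Coprime m n then ∏ p ∈ oddP z, ((if p ∣ m then 1 - α p else 1) *
        ((if p ∣ n then 1 - β p else 1) * (if p ∣ m + n then 1 - γ p else 1))) else 0) := by
    intro m n
    split_ifs
    · apply Finset.prod_nonneg
      intro p _
      apply mul_nonneg
      · simp only [hα]; split_ifs <;> linarith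
      · apply mul_nonneg
        · simp only [hβ]; split_ifs <;> linarith
        · simp only [hγ]; split_ifs <;> linarith
    · exact le_refl _
  have hsubset : Q ⊆ (Ico (2 ^ a) (2 ^ a + 2 ^ a)) ×ˢ (Ico (2 ^ c) (2 ^ c + 2 ^ c)) := by
    intro x hx
    obtain ⟨g1, g2, g3, g4, g5, g6, g7, g8, g9, g10, g11, g12⟩ := hmem x hx
    rw [Finset.mem_product, Finset.mem_Ico, Finset.mem_Ico]
    rw [pow_succ] at g10 g12
    refine ⟨⟨g9, by omega⟩, ⟨g11, by omega⟩⟩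
  calc _ ≤ ∑ x ∈ Q, (1 / ((2 : ℝ) ^ a * 2 ^ c)) *
      (if Nat.Coprime x.1 x.2 then ∏ p ∈ oddP z, ((if p ∣ x.1 then 1 - α p else 1) *
        ((if p ∣ x.2 then 1 - β p else 1) * (if p ∣ x.1 + x.2 then 1 - γ p else 1))) else 0) :=
        Finset.sum_le_sum hpt
    _ ≤ ∑ x ∈ (Ico (2 ^ a) (2 ^ a + 2 ^ a)) ×ˢ (Ico (2 ^ c) (2 ^ c + 2 ^ c)), (1 / ((2 : ℝ) ^ a * 2 ^ c)) *
      (if Nat.Coprime x.1 x.2 then ∏ p ∈ oddP z, ((if p ∣ x.1 then 1 - α p else 1) *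
        ((if p ∣ x.2 then 1 - β p else 1) * (if p ∣ x.1 + x.2 then 1 - γ p else 1))) else 0) := by
        apply Finset.sum_le_sum_of_subset_of_nonneg hsubset
        intro x _ _
        exact mul_nonneg (by positivity) (hnn _ _)
    _ = (1 / ((2 : ℝ) ^ a * 2 ^ c)) * ∑ m ∈ Ico (2 ^ a) (2 ^ a + 2 ^ a), ∑ n ∈ Ico (2 ^ c) (2 ^ c + 2 ^ c),
      (if Nat.Coprime m n then ∏ p ∈ oddP z, ((if p ∣ m then 1 - α p else 1) *
        ((if p ∣ n then 1 - β p else 1) * (if p ∣ m + n then 1 - γ p else 1))) else 0) := by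
        rw [← Finset.mul_sum, Finset.sum_product]
    _ ≤ (1 / ((2 : ℝ) ^ a * 2 ^ c)) * (9 * (2 ^ a : ℕ) * (2 ^ c : ℕ) *
        Real.exp (- ∑ p ∈ oddP z, (α p + β p + γ p) / p + ∑ p ∈ oddP z, (1 : ℝ) / p ^ 2)) :=
        mul_le_mul_of_nonneg_left hsieve (by positivity)
    _ = 9 * Real.exp (- ∑ p ∈ oddP z, (α p + β p + γ p) / p + ∑ p ∈ oddP z, (1 : ℝ) / p ^ 2) := by
        push_cast
        field_simp
    _ ≤ _ := by
        apply mul_le_mul_of_nonneg_left _ (by norm_num)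
        apply Real.exp_le_exp.2
        have h1 := sum_primes_inv_sq_le (oddP z) hPp
        have h2 : ∑ p ∈ oddP z, (α p + β p + γ p) / (p : ℝ) =
            ∑ p ∈ oddP z, (if p ≤ T then 2 else 3 - z1 - z2 - z1 * z2) / (p : ℝ) := by
          apply Finset.sum_congr rfl
          intro p _
          congr 1
          simp only [hα, hβ, hγ]
          split_ifs <;> ring
        rw [h2]
        linarith

lemma log_le_log_add (R m n : ℕ) (hm : 1 ≤ m) (h : m ≤ R * n) :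
    Nat.log 2 m ≤ Nat.log 2 n + (Nat.log 2 R + 1) := by
  have hR : R < 2 ^ (Nat.log 2 R + 1) := Nat.lt_pow_succ_log_self (by norm_num) R
  have hn2 : n < 2 ^ (Nat.log 2 n + 1) := Nat.lt_pow_succ_log_self (by norm_num) n
  have h1 : m < 2 ^ (Nat.log 2 n + (Nat.log 2 R + 1) + 1) := by
    calc m ≤ R * n := h
      _ < 2 ^ (Nat.log 2 R + 1) * 2 ^ (Nat.log 2 n + 1) := by
        apply Nat.mul_lt_mul_of_lt_of_le hR hn2.le
        positivity
      _ = _ := by rw [← pow_add]; congr 1; ring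
  have := Nat.log_lt_of_lt_pow (by omega) h1
  omega

lemma mn_sum (z1 z2 : ℝ) (h10 : 0 < z1) (h11 : z1 ≤ 1) (h20 : 0 < z2) (h21 : z2 ≤ 1)
    (hz12 : 1 ≤ z2 + z1 * z2) (hz12' : (2 - z2 - z1 * z2) ≤ 3 * (1 - z1))
    (T y R z r : ℕ) (s : ℝ) (hzy : z ≤ y) (hz1 : 1 ≤ z) (hr : Even r)
    (hs : ∑ p ∈ oddP z, (1 : ℝ) / p ≤ s) (hc1 : Real.exp (8 * s) / 8 ^ r ≤ Real.exp (-(2 * s)))
    (hc2 : z ^ r * Real.exp 1 * (2 * (R + 1)) ≤ y * Real.exp (-(2 * s))) :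
    ∑ x ∈ Qs T y R,
      z1 ^ Om T y x.1 * z2 ^ Om T y x.2 * (z1 * z2) ^ Om T y (x.1 + x.2) / ((x.2 : ℝ) * ((x.1 : ℝ) + x.2))
    ≤ ((Nat.log 2 (y ^ 2) + 1 : ℕ) : ℝ) * ((2 * (Nat.log 2 R + 1) + 1 : ℕ) : ℝ) *
      (9 * Real.exp (1 - ∑ p ∈ oddP z, (if p ≤ T then 2 else 3 - z1 - z2 - z1 * z2) / (p : ℝ))) := by
  classical
  set b := Nat.log 2 R + 1 with hb
  set A := Nat.log 2 (y ^ 2) with hA
  set F : ℕ × ℕ → ℝ := fun x => z1 ^ Om T y x.1 * z2 ^ Om T y x.2 * (z1 * z2) ^ Om T y (x.1 + x.2) /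
    ((x.2 : ℝ) * ((x.1 : ℝ) + x.2)) with hF
  have hF0 : ∀ x, 0 ≤ F x := by
    intro x
    simp only [hF]
    positivity
  have hmaps : ∀ x ∈ Qs T y R, (Nat.log 2 x.1, Nat.log 2 x.2 + b - Nat.log 2 x.1) ∈
      (range (A + 1)) ×ˢ (range (2 * b + 1)) := by
    intro x hx
    rw [Qs, Finset.mem_filter, Finset.mem_product, Finset.mem_Icc, Finset.mem_Icc] at hx
    obtain ⟨⟨⟨h1, h1'⟩, ⟨h2, h2'⟩⟩, h3, h4, h5, h6, h7, h8, h9⟩ := hx
    rw [Finset.mem_product, Finset.mem_range, Finset.mem_range]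
    have e1 : Nat.log 2 x.1 ≤ A := Nat.log_mono_right h1'
    have e2 := log_le_log_add R x.1 x.2 h1 h6
    have e3 := log_le_log_add R x.2 x.1 h2 h7
    simp only
    constructor <;> omega
  rw [← Finset.sum_fiberwise_of_maps_to hmaps]
  have hfib : ∀ j ∈ (range (A + 1)) ×ˢ (range (2 * b + 1)),
      ∑ x ∈ (Qs T y R).filter (fun x => (Nat.log 2 x.1, Nat.log 2 x.2 + b - Nat.log 2 x.1) = j), F x ≤
      9 * Real.exp (1 - ∑ p ∈ oddP z, (if p ≤ T then 2 else 3 - z1 - z2 - z1 * z2) / (p : ℝ)) := by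
    rintro ⟨a, t⟩ _
    refine le_trans ?_ (box_sum z1 z2 h10 h11 h20 h21 hz12 hz12' T y R z r s hzy hz1 hr hs hc1 hc2 a (t + a - b))
    apply Finset.sum_le_sum_of_subset_of_nonneg
    · intro x hx
      rw [Finset.mem_filter, Prod.mk.injEq] at hx
      rw [Finset.mem_filter]
      obtain ⟨hx1, hx2, hx3⟩ := hx
      refine ⟨hx1, hx2, ?_⟩
      rw [Qs, Finset.mem_filter, Finset.mem_product, Finset.mem_Icc, Finset.mem_Icc] at hx1
      obtain ⟨⟨⟨h1, h1'⟩, ⟨h2, h2'⟩⟩, h3, h4, h5, h6, h7, h8, h9⟩ := hx1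
      have e2 := log_le_log_add R x.1 x.2 h1 h6
      omega
    · intro x _ _
      exact hF0 x
  refine (Finset.sum_le_sum hfib).trans (le_of_eq ?_)
  rw [Finset.sum_const, Finset.card_product, Finset.card_range, Finset.card_range, nsmul_eq_mul]
  push_cast
  ring

end Pool.Agent.Helper559
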