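import Mathlib

set_option autoImplicit false

namespace Pool.Agent.Helper559

open Finset
open scoped Classical in
/-- Logarithmic sum over a set. -/
noncomputable def LM (A : Set ℕ) (M : ℕ) : ℝ := ∑ n ∈ (Icc 1 M).filter (fun n => n ∈ A), (1 : ℝ) / n

open scoped Classical in
/-- Counting function of a set. -/
noncomputable def cnt (A : Set ℕ) (M : ℕ) : ℕ := ((Icc 1 M).filter (fun n => n ∈ A)).card

lemma cnt_succ (A : Set ℕ) (M : ℕ) : 
    (cnt A (M + 1) : ℝ) = cnt A M + Set.indicator A (fun _ => (1 : ℝ)) (M + 1) := by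
  classical
  rw [cnt, cnt, ← Finset.insert_Icc_right_eq_Icc_add_one (by omega), Finset.filter_insert]
  split_ifs with h
  · rw [Finset.card_insert_of_notMem, Set.indicator_of_mem h]
    · push_cast; ring
    · simp
  · rw [Set.indicator_of_notMem h]; simp

lemma LM_succ (A : Set ℕ) (M : ℕ) : 
    LM A (M + 1) = LM A M + Set.indicator A (fun _ => (1 : ℝ)) (M + 1) / ((M + 1 : ℕ) : ℝ) := by
  classical
  rw [LM, LM, ← Finset.insert_Icc_right_eq_Icc_add_one (by omega), Finset.filter_insert]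
  split_ifs with h
  · rw [Finset.sum_insert, Set.indicator_of_mem h]
    · ring
    · simp
  · rw [Set.indicator_of_notMem h]; simp

lemma abel (A : Set ℕ) (M : ℕ) :
    LM A M = ∑ n ∈ Icc 1 M, (cnt A n : ℝ) / ((n : ℝ) * (n + 1)) + (cnt A M : ℝ) / ((M : ℝ) + 1) := by
  induction M with
  | zero => simp [LM, cnt]
  | succ M ih =>
    rw [LM_succ, ih, Finset.sum_Icc_succ_top (by omega), cnt_succ]
    push_cast
    field_simp
    ring

lemma harm_bound (M : ℕ) : ∑ n ∈ Icc 1 M, (1 : ℝ) / n ≤ 1 + Real.log M := by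
  have h := harmonic_le_one_add_log M
  have h2 : ((harmonic M : ℚ) : ℝ) = ∑ n ∈ Icc 1 M, (1 : ℝ) / n := by
    rw [harmonic_eq_sum_Icc]
    push_cast
    apply Finset.sum_congr rfl
    intro n _
    rw [one_div]
  rw [← h2]; exact h

lemma harm_lower (M : ℕ) : Real.log (M + 1) ≤ ∑ n ∈ Icc 1 M, (1 : ℝ) / n := by
  have h := log_add_one_le_harmonic M
  have h2 : ((harmonic M : ℚ) : ℝ) = ∑ n ∈ Icc 1 M, (1 : ℝ) / n := by
    rw [harmonic_eq_sum_Icc]
    push_cast
    apply Finset.sum_congr rfl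
    intro n _
    rw [one_div]
  rw [← h2]
  exact_mod_cast h

lemma sum_tel (M : ℕ) : ∑ n ∈ Icc 1 M, (1 : ℝ) / ((n : ℝ) * (n + 1)) ≤ 1 := by
  have key : ∑ n ∈ Icc 1 M, (1 : ℝ) / ((n : ℝ) * (n + 1)) = 1 - 1 / ((M : ℝ) + 1) := by
    induction M with
    | zero => simp
    | succ M ih =>
      rw [Finset.sum_Icc_succ_top (by omega), ih]
      push_cast
      field_simp
      ring
  rw [key]
  have : (0 : ℝ) ≤ 1 / ((M : ℝ) + 1) := by positivity
  linarith

/-- From a set that is admissible inside multiplicative windows and has large logarithmic density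
to the failure of the density one half bound. -/
theorem contradiction_lemma (A : Set ℕ) (R : ℕ) (η : ℝ) (hR : 0 < R) (hη : 0 < η)
    (hRη : 1 / (R : ℝ) ≤ η / 2)
    (hA : ∀ a ∈ A, ∀ b ∈ A, a ≠ b → a ≤ R * b → b ≤ R * a → ¬ (a + b ∣ a * b))
    (hLM : ∃ C : ℝ, ∀ M : ℕ, 1 ≤ M → (1 / 2 + η) * Real.log M - C ≤ LM A M) :
    ¬ (∀ ε : ℝ, 0 < ε → ∃ N : ℕ, ∀ n : ℕ, N ≤ n → ∀ A : Finset ℕ,
      A ⊆ Finset.Icc 1 n →
      (∀ a ∈ A, ∀ b ∈ A, a ≠ b → ¬ (a + b ∣ a * b)) →
      (A.card : ℝ) ≤ (1 / 2 + ε) * (n : ℝ)) := by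
  classical
  intro hconj
  obtain ⟨N0, hN0⟩ := hconj (η / 4) (by linarith)
  obtain ⟨C, hC⟩ := hLM
  have hR' : (0 : ℝ) < R := by exact_mod_cast hR
  have hcnt : ∀ n : ℕ, (cnt A n : ℝ) ≤ (1 / 2 + 3 * η / 4) * n + N0 := by
    intro n
    rcases Nat.lt_or_ge n N0 with h | h
    · have h1 : cnt A n ≤ n := by
        rw [cnt]
        refine (Finset.card_filter_le _ _).trans ?_
        simp
      have h2 : (cnt A n : ℝ) ≤ N0 := by exact_mod_cast h1.trans h.le
      have h3 : 0 ≤ (1 / 2 + 3 * η / 4) * (n : ℝ) := by positivity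
      linarith
    · set B := ((Icc 1 n).filter (fun x => x ∈ A)).filter (fun x => n < x * R) with hB
      have hBc := hN0 n h B (by
        intro x hx
        rw [hB, Finset.mem_filter, Finset.mem_filter] at hx
        exact hx.1.1) (by
        intro a ha b hb hab
        rw [hB, Finset.mem_filter, Finset.mem_filter, Finset.mem_Icc] at ha hb
        apply hA a ha.1.2 b hb.1.2 hab
        · rw [mul_comm]; exact ha.1.1.2.trans hb.2.le
        · rw [mul_comm]; exact hb.1.1.2.trans ha.2.le)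
      have hrest : (((Icc 1 n).filter (fun x => x ∈ A)).filter (fun x => ¬ n < x * R)).card ≤ n / R := by
        have : ((Icc 1 n).filter (fun x => x ∈ A)).filter (fun x => ¬ n < x * R) ⊆ Icc 1 (n / R) := by
          intro x hx
          rw [Finset.mem_filter, Finset.mem_filter, Finset.mem_Icc] at hx
          rw [Finset.mem_Icc]
          refine ⟨hx.1.1.1, ?_⟩
          rw [Nat.le_div_iff_mul_le hR]
          exact not_lt.1 hx.2
        refine (Finset.card_le_card this).trans ?_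
        simp
      have hsum := Finset.card_filter_add_card_filter_not (s := (Icc 1 n).filter (fun x => x ∈ A)) (fun x => n < x * R)
      have h4 : (cnt A n : ℝ) ≤ B.card + ((n / R : ℕ) : ℝ) := by
        rw [cnt, ← hsum]
        push_cast
        have : ((((Icc 1 n).filter (fun x => x ∈ A)).filter (fun x => ¬ n < x * R)).card : ℝ) ≤ ((n / R : ℕ) : ℝ) := by
          exact_mod_cast hrest
        linarith
      have h5 : ((n / R : ℕ) : ℝ) ≤ η / 2 * n := by
        calc ((n / R : ℕ) : ℝ) ≤ (n : ℝ) / R := Nat.cast_div_le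
          _ = 1 / R * n := by ring
          _ ≤ _ := mul_le_mul_of_nonneg_right hRη (by positivity)
      have h6 : (0 : ℝ) ≤ N0 := by positivity
      nlinarith
  have hup : ∀ M : ℕ, 1 ≤ M → LM A M ≤ (1 / 2 + 3 * η / 4) * (1 + Real.log M) + N0 + (1 / 2 + 3 * η / 4) + N0 := by
    intro M hM
    have hM' : (1 : ℝ) ≤ M := by exact_mod_cast hM
    rw [abel]
    have h1 : ∑ n ∈ Icc 1 M, (cnt A n : ℝ) / ((n : ℝ) * (n + 1)) ≤
        ∑ n ∈ Icc 1 M, ((1 / 2 + 3 * η / 4) * (1 / (n : ℝ)) + N0 * (1 / ((n : ℝ) * (n + 1)))) := by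
      apply Finset.sum_le_sum
      intro n hn
      rw [Finset.mem_Icc] at hn
      have hn' : (1 : ℝ) ≤ n := by exact_mod_cast hn.1
      have h2 := hcnt n
      have h3 : (cnt A n : ℝ) / ((n : ℝ) * (n + 1)) ≤ ((1 / 2 + 3 * η / 4) * n + N0) / ((n : ℝ) * (n + 1)) :=
        div_le_div_of_nonneg_right h2 (by positivity)
      refine h3.trans ?_
      have h4 : ((1 / 2 + 3 * η / 4) * n + N0) / ((n : ℝ) * (n + 1)) =
          (1 / 2 + 3 * η / 4) * (1 / ((n : ℝ) + 1)) + N0 * (1 / ((n : ℝ) * (n + 1))) := by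
        field_simp
      rw [h4]
      have h5 : 1 / ((n : ℝ) + 1) ≤ 1 / (n : ℝ) := one_div_le_one_div_of_le (by linarith) (by linarith)
      have h6 := mul_le_mul_of_nonneg_left h5 (show 0 ≤ 1 / 2 + 3 * η / 4 by positivity)
      linarith
    rw [Finset.sum_add_distrib, ← Finset.mul_sum, ← Finset.mul_sum] at h1
    have h2 := harm_bound M
    have h3 := sum_tel M
    have h4 : (cnt A M : ℝ) / ((M : ℝ) + 1) ≤ (1 / 2 + 3 * η / 4) + N0 := by
      rw [div_le_iff₀ (by linarith)]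
      have h5 := hcnt M
      have h6 : (0 : ℝ) ≤ N0 := by positivity
      nlinarith
    have h7 := mul_le_mul_of_nonneg_left h2 (show 0 ≤ 1 / 2 + 3 * η / 4 by positivity)
    have h8 := mul_le_mul_of_nonneg_left h3 (show (0 : ℝ) ≤ N0 by positivity)
    linarith
  have hlim : Filter.Tendsto (fun M : ℕ => Real.log (M : ℝ)) Filter.atTop Filter.atTop :=
    Real.tendsto_log_atTop.comp tendsto_natCast_atTop_atTop
  have hev := hlim.eventually_gt_atTop ((C + ((1 / 2 + 3 * η / 4) + N0 + (1 / 2 + 3 * η / 4) + N0)) / (η / 4))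
  obtain ⟨M, hM1, hM2⟩ := (hev.and (Filter.eventually_ge_atTop 1)).exists
  have h1 := hC M hM2
  have h2 := hup M hM2
  rw [div_lt_iff₀ (by linarith)] at hM1
  linarith

end Pool.Agent.Helper559
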