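import Mathlib
import Pool.Agent.Helper559.Box
import Pool.Agent.Helper559.Final

set_option autoImplicit false

namespace Pool.Agent.Helper559

open Finset

lemma edge (a b : ℕ) (ha : 0 < a) (hb : 0 < b) (hab : a ≠ b) (h : a + b ∣ a * b) :
    ∃ k m n : ℕ, 0 < k ∧ 0 < m ∧ 0 < n ∧ Nat.Coprime m n ∧ m ≠ n ∧
      a = k * m * (m + n) ∧ b = k * n * (m + n) := by
  obtain ⟨m, n, hco, hm, hn⟩ := Nat.exists_coprime a b
  set g := Nat.gcd a b with hg
  have hg0 : 0 < g := Nat.gcd_pos_of_pos_left b ha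
  have hm0 : 0 < m := by
    rcases Nat.eq_zero_or_pos m with h0 | h0
    · rw [h0] at hm; simp at hm; omega
    · exact h0
  have hn0 : 0 < n := by
    rcases Nat.eq_zero_or_pos n with h0 | h0
    · rw [h0] at hn; simp at hn; omega
    · exact h0
  have h1 : (m + n) * g ∣ (g * (m * n)) * g := by
    have e1 : a + b = (m + n) * g := by
      calc a + b = m * g + n * g := by rw [← hm, ← hn]
        _ = _ := by ring
    have e2 : a * b = (g * (m * n)) * g := by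
      calc a * b = (m * g) * (n * g) := by rw [← hm, ← hn]
        _ = _ := by ring
    rw [← e1, ← e2]; exact h
  have h2 : m + n ∣ g * (m * n) := Nat.dvd_of_mul_dvd_mul_right hg0 h1
  have hco2 : Nat.Coprime (m + n) (m * n) := by
    apply Nat.Coprime.mul_right
    · rw [Nat.coprime_self_add_left]
      exact hco.symm
    · rw [Nat.coprime_add_self_left]
      exact hco
  have h3 : m + n ∣ g := hco2.dvd_of_dvd_mul_right h2
  obtain ⟨k, hk⟩ := h3
  refine ⟨k, m, n, ?_, hm0, hn0, hco, ?_, ?_, ?_⟩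
  · rcases Nat.eq_zero_or_pos k with h0 | h0
    · rw [h0] at hk; simp at hk; omega
    · exact h0
  · intro hmn
    apply hab
    rw [hm, hn, hmn]
  · rw [hm, hk]; ring
  · rw [hn, hk]; ring

/-- The added even numbers. -/
def Wset (T : ℕ) (κ : ℕ → ℝ) : Set ℕ :=
  {w | ∃ u : ℕ, w = 2 * u ∧ 0 < u ∧ rough T u ∧ ∀ i : ℕ, (Om T (T ^ (2 ^ i)) u : ℝ) ≤ κ i}

/-- Atypical numbers. -/
def Bset (T : ℕ) (c : ℕ → ℝ) : Set ℕ := {b | ∃ i : ℕ, c i < (Om T (T ^ (2 ^ i)) b : ℝ)}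

/-- Numbers with a neighbour in `Wset`. -/
def Dset (T R : ℕ) (κ : ℕ → ℝ) : Set ℕ :=
  {b | 0 < b ∧ ∃ w ∈ Wset T κ, w ≠ b ∧ w + b ∣ w * b ∧ w ≤ R * b ∧ b ≤ R * w}

/-- The final set. -/
def Aset (T R : ℕ) (κ : ℕ → ℝ) : Set ℕ := ({n | Odd n} ∪ Wset T κ) \ Dset T R κ

lemma Aset_adm (T R : ℕ) (κ : ℕ → ℝ) : ∀ a ∈ Aset T R κ, ∀ b ∈ Aset T R κ, a ≠ b → a ≤ R * b → b ≤ R * a →
    ¬ (a + b ∣ a * b) := by
  intro a ha b hb hab hab1 hab2 hdvd
  have ha0 : 0 < a := by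
    rcases ha.1 with h | ⟨u, h1, h2, _⟩
    · exact h.pos
    · omega
  have hb0 : 0 < b := by
    rcases hb.1 with h | ⟨u, h1, h2, _⟩
    · exact h.pos
    · omega
  rcases ha.1 with h | h
  · rcases hb.1 with h' | h'
    · have h1 : Even (a + b) := h.add_odd h'
      have h2 : Odd (a * b) := h.mul h'
      have h3 : 2 ∣ a * b := (even_iff_two_dvd.1 h1).trans hdvd
      exact (Nat.not_even_iff_odd.2 h2) (even_iff_two_dvd.2 h3)
    · exact ha.2 ⟨ha0, b, h', hab.symm, by rw [add_comm, mul_comm]; exact hdvd, hab2, hab1⟩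
  · exact hb.2 ⟨hb0, a, h, hab, hdvd, hab1, hab2⟩

lemma Om_two (T y : ℕ) (hT : 2 ≤ T) : Om T y 2 = 0 := by
  rw [Om]
  apply Finset.sum_eq_zero
  intro p hp
  rw [Finset.mem_filter, Finset.mem_Ioc] at hp
  apply Nat.factorization_eq_zero_of_not_dvd
  intro h
  have := Nat.le_of_dvd (by norm_num) h
  omega

lemma le_pow_two_pow (T M : ℕ) (hT : 2 ≤ T) : M < T ^ (2 ^ M) := by
  calc M < 2 ^ M := Nat.lt_two_pow_self
    _ ≤ T ^ M := Nat.pow_le_pow_left hT M
    _ ≤ T ^ (2 ^ M) := Nat.pow_le_pow_right (by omega) Nat.lt_two_pow_self.le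

open scoped Classical in
lemma cover (T R : ℕ) (hT : 2 ≤ T) (κ c : ℕ → ℝ) (M b : ℕ) (hbM : b ≤ M) (hb : b ∈ Dset T R κ)
    (hbB : b ∉ Bset T c) :
    ∃ i k m n : ℕ, i < M ∧ T ^ (2 ^ i) ≤ M ∧ b = k * (n * (m + n)) ∧ k ∈ (Icc 1 M).filter (fun k => orough T k) ∧
      (m, n) ∈ Qs T (T ^ (2 ^ i)) R ∧
      ((Om T (T ^ (2 ^ i)) k + Om T (T ^ (2 ^ i)) m + Om T (T ^ (2 ^ i)) (m + n) : ℕ) : ℝ) ≤ κ i ∧
      ((Om T (T ^ (2 ^ i)) k + Om T (T ^ (2 ^ i)) n + Om T (T ^ (2 ^ i)) (m + n) : ℕ) : ℝ) ≤ c i := by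
  obtain ⟨hb0, w, ⟨u, hwu, hu0, hru, hκ⟩, hwb, hdvd, hwR, hbR⟩ := hb
  have hw0 : 0 < w := by omega
  obtain ⟨k, m, n, hk0, hm0, hn0, hco, hmn, hw, hbk⟩ := edge w b hw0 hb0 hwb hdvd
  have horw : orough T w := by
    intro p hp hpw
    rw [hwu] at hpw
    rcases (hp.dvd_mul).1 hpw with h | h
    · left; exact (Nat.prime_dvd_prime_iff_eq hp Nat.prime_two).1 h
    · right; exact hru p hp h
  have hdk : k ∣ w := ⟨m * (m + n), by rw [hw]; ring⟩
  have hdm : m ∣ w := ⟨k * (m + n), by rw [hw]; ring⟩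
  have hds : m + n ∣ w := ⟨k * m, by rw [hw]; ring⟩
  have hok : orough T k := fun p hp h => horw p hp (h.trans hdk)
  have hom : orough T m := fun p hp h => horw p hp (h.trans hdm)
  have hos : orough T (m + n) := fun p hp h => horw p hp (h.trans hds)
  -- s > T
  have hsT : T < m + n := by
    by_contra hcon
    push Not at hcon
    have hall : ∀ {d : ℕ}, d.Prime → d ∣ m + n → d = 2 := by
      intro d hd hdd
      rcases hos d hd hdd with h | h
      · exact h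
      · have := Nat.le_of_dvd (by omega) hdd
        omega
    have hpow := Nat.eq_prime_pow_of_unique_prime_dvd (by omega : m + n ≠ 0) hall
    set e := (m + n).primeFactorsList.length with he
    have he2 : 2 ≤ e := by
      by_contra h
      have : e = 0 ∨ e = 1 := by omega
      rcases this with h | h
      · rw [h] at hpow; omega
      · rw [h] at hpow; omega
    have h4 : 4 ∣ w := by
      have : 2 ^ 2 ∣ 2 ^ e := Nat.pow_dvd_pow 2 he2
      rw [← hpow] at this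
      exact (by norm_num : (4 : ℕ) = 2 ^ 2) ▸ this.trans hds
    have h2u : 2 ∣ u := by
      rw [hwu] at h4
      obtain ⟨q, hq⟩ := h4
      exact ⟨q, by omega⟩
    have := hru 2 Nat.prime_two h2u
    omega
  -- the scale
  have hex : ∃ j : ℕ, m + n ≤ T ^ (2 ^ j) := ⟨m + n, (le_pow_two_pow T (m + n) hT).le⟩
  classical
  set j := Nat.find hex with hj
  have hj1 : m + n ≤ T ^ (2 ^ j) := Nat.find_spec hex
  have hj0 : j ≠ 0 := by
    intro h
    rw [h] at hj1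
    simp at hj1
    omega
  obtain ⟨i, hi⟩ : ∃ i, j = i + 1 := ⟨j - 1, by omega⟩
  have hi1 : T ^ (2 ^ i) < m + n := by
    have := Nat.find_min hex (m := i) (by omega)
    exact not_le.1 this
  have hi2 : m + n ≤ (T ^ (2 ^ i)) ^ 2 := by
    rw [hi] at hj1
    rw [← pow_mul, ← pow_succ]
    exact hj1
  have hsM : m + n ≤ M := by
    have : m + n ≤ b := by
      rw [hbk]
      exact Nat.le_mul_of_pos_left _ (by positivity)
    omega
  have hiM : i < M := by
    have h1 : i < 2 ^ i := Nat.lt_two_pow_self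
    have h2 : 2 ^ i < T ^ (2 ^ i) := by
      calc 2 ^ i < 2 ^ (2 ^ i) := Nat.lt_two_pow_self
        _ ≤ T ^ (2 ^ i) := Nat.pow_le_pow_left hT _
    omega
  refine ⟨i, k, m, n, hiM, by omega, by rw [hbk]; ring, ?_, ?_, ?_, ?_⟩
  · rw [Finset.mem_filter, Finset.mem_Icc]
    refine ⟨⟨hk0, ?_⟩, hok⟩
    have : k ≤ b := Nat.le_of_dvd hb0 ⟨n * (m + n), by rw [hbk]; ring⟩
    omega
  · rw [Qs, Finset.mem_filter, Finset.mem_product, Finset.mem_Icc, Finset.mem_Icc]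
    refine ⟨⟨⟨hm0, by omega⟩, ⟨hn0, by omega⟩⟩, hco, hi1, hi2, ?_, ?_, hom, hos⟩
    · have h1 : (k * (m + n)) * m ≤ (k * (m + n)) * (R * n) := by
        calc (k * (m + n)) * m = w := by rw [hw]; ring
          _ ≤ R * b := hwR
          _ = (k * (m + n)) * (R * n) := by rw [hbk]; ring
      exact Nat.le_of_mul_le_mul_left h1 (by positivity)
    · have h1 : (k * (m + n)) * n ≤ (k * (m + n)) * (R * m) := by
        calc (k * (m + n)) * n = b := by rw [hbk]; ring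
          _ ≤ R * w := hbR
          _ = (k * (m + n)) * (R * m) := by rw [hw]; ring
      exact Nat.le_of_mul_le_mul_left h1 (by positivity)
  · have h1 : Om T (T ^ (2 ^ i)) w = Om T (T ^ (2 ^ i)) u := by
      rw [hwu, Om_mul _ _ _ _ (by norm_num) (by omega), Om_two _ _ hT, zero_add]
    have h2 : Om T (T ^ (2 ^ i)) w = Om T (T ^ (2 ^ i)) k + Om T (T ^ (2 ^ i)) m + Om T (T ^ (2 ^ i)) (m + n) := by
      rw [hw, Om_mul _ _ _ _ (by positivity) (by positivity), Om_mul _ _ _ _ (by positivity) (by positivity)]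
    rw [← h2, h1]
    exact hκ i
  · have h2 : Om T (T ^ (2 ^ i)) b = Om T (T ^ (2 ^ i)) k + Om T (T ^ (2 ^ i)) n + Om T (T ^ (2 ^ i)) (m + n) := by
      rw [hbk, Om_mul _ _ _ _ (by positivity) (by positivity), Om_mul _ _ _ _ (by positivity) (by positivity)]
    rw [← h2]
    by_contra hcon
    exact hbB ⟨i, not_le.1 hcon⟩

/-- Covering lemma for sums. -/
lemma sum_cover {ι J : Type*} [DecidableEq ι] [DecidableEq J] (s : Finset ι) (t : Finset J) (f : ι → ℝ) (g : J → ℝ)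
    (φ : J → ι) (hg : ∀ j ∈ t, 0 ≤ g j) (h : ∀ i ∈ s, ∃ j ∈ t, φ j = i ∧ f i ≤ g j) :
    ∑ i ∈ s, f i ≤ ∑ j ∈ t, g j := by
  classical
  rcases s.eq_empty_or_nonempty with hs | ⟨i0, hi0⟩
  · rw [hs, Finset.sum_empty]
    exact Finset.sum_nonneg hg
  have hne : Nonempty J := ⟨(h i0 hi0).choose⟩
  choose! ψ hψ1 hψ2 hψ3 using h
  calc ∑ i ∈ s, f i ≤ ∑ i ∈ s, g (ψ i) := Finset.sum_le_sum hψ3
    _ = ∑ j ∈ s.image ψ, g j := by
        rw [Finset.sum_image]
        intro a ha b hb hab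
        rw [← hψ2 a ha, ← hψ2 b hb, hab]
    _ ≤ ∑ j ∈ t, g j := by
        apply Finset.sum_le_sum_of_subset_of_nonneg
        · intro j hj
          rw [Finset.mem_image] at hj
          obtain ⟨i, hi, rfl⟩ := hj
          exact hψ1 i hi
        · intro j hj _
          exact hg j hj

lemma one_le_rpow_mul_pow (z : ℝ) (h0 : 0 < z) (h1 : z ≤ 1) (N : ℕ) (κ : ℝ) (h : (N : ℝ) ≤ κ) :
    1 ≤ z ^ (-κ) * z ^ N := by
  rw [← Real.rpow_natCast z N, ← Real.rpow_add h0]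
  exact Real.one_le_rpow_of_pos_of_le_one_of_nonpos h0 h1 (by linarith)

end Pool.Agent.Helper559
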