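import Mathlib
import Pool.Agent.Helper559.Box

set_option autoImplicit false

namespace Pool.Agent.Helper559

open Finset

open scoped Classical in
lemma Ksum (T y M : ℕ) (hT : 2 ≤ T) (hTy : T ≤ y) (hTM : T ≤ M) (ζ : ℝ) (h0 : 0 ≤ ζ) (h1 : ζ ≤ 3 / 2) :
    ∑ k ∈ (Icc 1 M).filter (fun k => orough T k), ζ ^ Om T y k / k ≤
      Real.exp (11 / 4 + ζ * (S (min y M) - S T) + (S M - S (min y M))) := by
  have hg0 : ∀ p, 0 ≤ gw 1 0 ζ T y p := by
    intro p; simp only [gw]; split_ifs <;> linarith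
  have hg1 : ∀ p, gw 1 0 ζ T y p ≤ 3 / 2 := by
    intro p; simp only [gw]; split_ifs <;> linarith
  have hg2 : gw 1 0 ζ T y 2 ≤ 1 := by simp [gw]
  have e1 := euler_bound (gw 1 0 ζ T y) hg0 hg1 hg2 M
  have e2 := sum_gw 1 0 ζ le_rfl le_rfl T y M hT hTy hTM
  calc ∑ k ∈ (Icc 1 M).filter (fun k => orough T k), ζ ^ Om T y k / k
      = ∑ k ∈ (Icc 1 M).filter (fun k => orough T k), wt (gw 1 0 ζ T y) k / k := by
        apply Finset.sum_congr rfl
        intro k hk
        rw [Finset.mem_filter, Finset.mem_Icc] at hk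
        rw [wt_eq_pow_Om (gw 1 0 ζ T y) T y k ζ]
        · intro p _ h2 h3
          simp only [gw]
          rw [if_neg (by omega), if_neg (by omega), if_pos h3]
        · intro p hp h2
          have hpp := Nat.prime_of_mem_primeFactors hp
          rcases hk.2 p hpp (Nat.dvd_of_mem_primeFactors hp) with h | h
          · simp [gw, h]
          · simp only [gw]
            rw [if_neg (by omega), if_neg (by omega), if_neg (by omega)]
    _ ≤ ∑ k ∈ Icc 1 M, wt (gw 1 0 ζ T y) k / k := by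
        apply Finset.sum_le_sum_of_subset_of_nonneg (Finset.filter_subset _ _)
        intro k _ _
        exact div_nonneg (wt_nonneg _ hg0 k) (by positivity)
    _ ≤ _ := by
        refine e1.trans ?_
        apply Real.exp_le_exp.2
        linarith

lemma Bsum (T y M : ℕ) (hT : 2 ≤ T) (hTy : T ≤ y) (hTM : T ≤ M) (ζ : ℝ) (h0 : 0 ≤ ζ) (h1 : ζ ≤ 3 / 2) :
    ∑ k ∈ Icc 1 M, ζ ^ Om T y k / k ≤
      Real.exp (11 / 4 + S T + ζ * (S (min y M) - S T) + (S M - S (min y M))) := by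
  have hg0 : ∀ p, 0 ≤ gw 1 1 ζ T y p := by
    intro p; simp only [gw]; split_ifs <;> linarith
  have hg1 : ∀ p, gw 1 1 ζ T y p ≤ 3 / 2 := by
    intro p; simp only [gw]; split_ifs <;> linarith
  have hg2 : gw 1 1 ζ T y 2 ≤ 1 := by simp [gw]
  have e1 := euler_bound (gw 1 1 ζ T y) hg0 hg1 hg2 M
  have e2 := sum_gw 1 1 ζ le_rfl zero_le_one T y M hT hTy hTM
  calc ∑ k ∈ Icc 1 M, ζ ^ Om T y k / k
      = ∑ k ∈ Icc 1 M, wt (gw 1 1 ζ T y) k / k := by
        apply Finset.sum_congr rfl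
        intro k hk
        rw [wt_eq_pow_Om (gw 1 1 ζ T y) T y k ζ]
        · intro p _ h2 h3
          simp only [gw]
          rw [if_neg (by omega), if_neg (by omega), if_pos h3]
        · intro p hp h2
          simp only [gw]
          split_ifs with h3 h4 h5
          · rfl
          · rfl
          · exact absurd ⟨not_le.1 h4, h5⟩ h2
          · rfl
    _ ≤ _ := by
        refine e1.trans ?_
        apply Real.exp_le_exp.2
        linarith

lemma S_eq (z : ℕ) (hz : 2 ≤ z) : S z = 1 / 2 + ∑ p ∈ oddP z, (1 : ℝ) / p := by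
  have h2mem : 2 ∈ (Icc 1 z).filter Nat.Prime := by
    rw [Finset.mem_filter, Finset.mem_Icc]; exact ⟨⟨by norm_num, hz⟩, Nat.prime_two⟩
  rw [S, ← Finset.add_sum_erase _ _ h2mem]
  have : ((Icc 1 z).filter Nat.Prime).erase 2 = oddP z := by
    ext p
    simp only [oddP, Finset.mem_erase, Finset.mem_filter, Finset.mem_Icc]
    constructor
    · rintro ⟨h1, ⟨_, h2⟩, h3⟩
      have := h3.two_le
      exact ⟨⟨by omega, h2⟩, h3⟩
    · rintro ⟨⟨h1, h2⟩, h3⟩
      exact ⟨by omega, ⟨by omega, h2⟩, h3⟩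
  rw [this]
  push_cast
  rfl

lemma theta_sum (T z : ℕ) (hz : 2 ≤ z) (hT : 2 ≤ T) :
    ∑ p ∈ oddP z, (if p ≤ T then (2 : ℝ) else 3 - 2 / 5 - 3 / 4 - 2 / 5 * (3 / 4)) / (p : ℝ) =
      31 / 20 * (S z - 1 / 2) + 9 / 20 * (S (min z T) - 1 / 2) := by
  rw [S_eq z hz, S_eq (min z T) (le_min hz hT)]
  have h1 : oddP (min z T) = (oddP z).filter (fun p => p ≤ T) := by
    ext p
    simp only [oddP, Finset.mem_filter, Finset.mem_Icc, le_min_iff]
    tauto
  rw [h1, Finset.sum_filter]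
  have h2 : ∀ a b : ℝ, 1 / 2 + a - 1 / 2 = a := by intro a _; ring
  rw [h2 _ 0, h2 _ 0, Finset.mul_sum, Finset.mul_sum, ← Finset.sum_add_distrib]
  apply Finset.sum_congr rfl
  intro p _
  split_ifs <;> ring

end Pool.Agent.Helper559
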