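import Mathlib
import Pool.Agent.Helper559.Scale

set_option autoImplicit false
set_option maxHeartbeats 4000000

namespace Pool.Agent.Helper559

open Finset

lemma exists_large (C : ℝ) (N : ℝ) : ∃ τ0 : ℝ, 3 ≤ τ0 ∧ ∀ t : ℝ, τ0 ≤ t →
    6 * Real.exp (1 + 2 * C) * t ^ 4 ≤ Real.exp (7 / 8 * t) ∧ N * (Real.log t + 2) ≤ t := by
  have h1 : ∀ᶠ t : ℝ in Filter.atTop, 6 * Real.exp (1 + 2 * C) * t ^ 4 ≤ Real.exp (7 / 8 * t) := by
    have h := tendsto_exp_mul_div_rpow_atTop 4 (7 / 8) (by norm_num)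
    filter_upwards [h.eventually_ge_atTop (6 * Real.exp (1 + 2 * C)), Filter.eventually_gt_atTop 0] with t ht ht0
    have e : t ^ (4 : ℝ) = t ^ 4 := by
      rw [← Real.rpow_natCast]; norm_num
    rw [e, le_div_iff₀ (by positivity)] at ht
    exact ht
  have h2 : ∀ᶠ t : ℝ in Filter.atTop, N * (Real.log t + 2) ≤ t := by
    have ho : (fun t : ℝ => Real.log t) =o[Filter.atTop] (fun t => t) := Real.isLittleO_log_id_atTop
    have hN : 0 < 1 / (2 * (|N| + 1)) := by positivity
    filter_upwards [ho.def hN, Filter.eventually_ge_atTop (4 * (|N| + 1)), Filter.eventually_ge_atTop 1] with t ht ht1 ht2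
    have hl : 0 ≤ Real.log t := Real.log_nonneg ht2
    rw [Real.norm_of_nonneg hl, Real.norm_of_nonneg (by linarith)] at ht
    have hN1 : N ≤ |N| + 1 := by linarith [le_abs_self N]
    have hN0 : 0 < |N| + 1 := by positivity
    have e1 : (|N| + 1) * Real.log t ≤ t / 2 := by
      calc (|N| + 1) * Real.log t ≤ (|N| + 1) * (1 / (2 * (|N| + 1)) * t) :=
            mul_le_mul_of_nonneg_left ht hN0.le
        _ = t / 2 := by field_simp
    have e2 : N * (Real.log t + 2) ≤ (|N| + 1) * (Real.log t + 2) :=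
      mul_le_mul_of_nonneg_right hN1 (by linarith)
    linarith
  obtain ⟨τ0, h⟩ := Filter.eventually_atTop.1 ((h1.and h2).and (Filter.eventually_ge_atTop 3))
  refine ⟨max τ0 3, le_max_right _ _, ?_⟩
  intro t ht
  exact (h t ((le_max_left _ _).trans ht)).1

lemma natlog_le (n : ℕ) (hn : 1 ≤ n) : (Nat.log 2 n : ℝ) ≤ 3 / 2 * Real.log n := by
  have h1 : 2 ^ Nat.log 2 n ≤ n := Nat.pow_log_le_self 2 (by omega)
  have h2 : (2 : ℝ) ^ Nat.log 2 n ≤ n := by exact_mod_cast h1
  have h3 := Real.log_le_log (by positivity) h2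
  rw [Real.log_pow] at h3
  have h4 := Real.log_two_gt_d9
  have h5 : (0 : ℝ) ≤ Nat.log 2 n := by positivity
  nlinarith

open scoped Classical in
lemma E_bound (C : ℝ) (hC1 : 1 ≤ C) (hC : ∀ x : ℕ, 2 ≤ x → |S x - Real.log (Real.log x)| ≤ C) :
    ∃ C3 τ0 : ℝ, 0 < C3 ∧ 3 ≤ τ0 ∧ ∀ T R : ℕ, τ0 ≤ Real.log T → (R : ℝ) ≤ (Real.log T) ^ 2 + 1 →
      ∀ Λ : ℕ, Real.log (Real.log T) ≤ Λ → 1 ≤ Λ → (Λ : ℝ) ≤ Real.log (Real.log T) + 2 →
      ∀ i M : ℕ, T ^ (2 ^ i) ≤ M →
      (∑ k ∈ (Icc 1 M).filter (fun k => orough T k), (2 / 5 * (3 / 4) : ℝ) ^ Om T (T ^ (2 ^ i)) k / k) *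
      (∑ x ∈ Qs T (T ^ (2 ^ i)) R, (2 / 5 : ℝ) ^ Om T (T ^ (2 ^ i)) x.1 * (3 / 4) ^ Om T (T ^ (2 ^ i)) x.2 *
        (2 / 5 * (3 / 4)) ^ Om T (T ^ (2 ^ i)) (x.1 + x.2) / ((x.2 : ℝ) * ((x.1 : ℝ) + x.2))) ≤
      C3 * Real.log M * (Λ : ℝ) ^ 3 * ((i : ℝ) + 1) ^ 2 *
        Real.exp (-(2 * Real.log (Real.log T)) - 5 / 4 * (i * Real.log 2)) := by
  set N0 : ℕ := ⌈3 * (1 + C)⌉₊ with hN0
  have hN0le : 3 * (1 + C) ≤ N0 := Nat.le_ceil _
  have hN01 : (1 : ℝ) ≤ N0 := by linarith
  obtain ⟨τ0, hτ03, hτ0⟩ := exists_large C (32 * N0)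
  refine ⟨Real.exp (11 / 4 + 2 * C) * (4 * 12 * 9) * Real.exp (2 + 2 * C) * (32 * N0) ^ 2, τ0, by positivity, hτ03, ?_⟩
  intro T R hT hR Λ hΛ hΛ1 hΛ2 i M hM
  set τ := Real.log T with hτ
  set L := Real.log τ with hL
  have hτ3 : 3 ≤ τ := hτ03.trans hT
  have hL0 : 0 ≤ L := Real.log_nonneg (by linarith)
  have hl2a := Real.log_two_gt_d9
  have hl2b := Real.log_two_lt_d9
  have hT2 : 2 ≤ T := by
    by_contra h
    have h2 : (T : ℝ) ≤ 1 := by
      have : T ≤ 1 := by omega
      exact_mod_cast this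
    have h3 : τ ≤ 0 := Real.log_nonpos (by positivity) h2
    linarith
  set y := T ^ (2 ^ i) with hy
  set Y : ℝ := 2 ^ i * τ with hY
  have hlogy : Real.log (y : ℝ) = Y := by
    rw [hy, hY, hτ]; push_cast; rw [Real.log_pow]; push_cast; ring
  have h2i : (1 : ℝ) ≤ 2 ^ i := one_le_pow₀ (by norm_num)
  have hτY : τ ≤ Y := by
    rw [hY]; nlinarith
  have hY3 : 3 ≤ Y := hτ3.trans hτY
  have hY0 : 0 < Y := by linarith
  set u : ℝ := i * Real.log 2 with hu
  have hu0 : 0 ≤ u := by positivity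
  have hlogY : Real.log Y = u + L := by
    rw [hY, Real.log_mul (by positivity) (by linarith), Real.log_pow]
  have hTy : T ≤ y := by
    rw [hy]
    exact Nat.le_self_pow (by positivity) T
  have hTM : T ≤ M := hTy.trans hM
  have hy0 : (0 : ℝ) < y := by
    have : 0 < y := by omega
    exact_mod_cast this
  have hyexp : (y : ℝ) = Real.exp Y := by rw [← hlogy, Real.exp_log hy0]
  have hM2 : 2 ≤ M := hT2.trans hTM
  have hΛ1' : (1 : ℝ) ≤ Λ := by exact_mod_cast hΛ1
  -- the parameter r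
  set r : ℕ := 2 * N0 * (i + Λ) with hr
  have hreven : Even r := by rw [hr, mul_assoc]; exact even_two_mul _
  have hrR : (r : ℝ) = 2 * N0 * (i + Λ) := by rw [hr]; push_cast; ring
  have hi0 : (0 : ℝ) ≤ i := by positivity
  have hr1 : (1 : ℝ) ≤ r := by
    rw [hrR]; nlinarith
  have hi2 : (i : ℝ) + 1 ≤ 2 ^ i := by
    have : i + 1 ≤ 2 ^ i := Nat.lt_two_pow_self
    exact_mod_cast this
  have hrle : (r : ℝ) ≤ 2 * N0 * (Λ * 2 ^ i) := by
    rw [hrR]
    apply mul_le_mul_of_nonneg_left _ (by positivity)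
    have : (i : ℝ) + Λ ≤ Λ * (i + 1) := by nlinarith
    have h2 : (Λ : ℝ) * (i + 1) ≤ Λ * 2 ^ i := mul_le_mul_of_nonneg_left hi2 (by positivity)
    linarith
  -- s
  set s : ℝ := u + L + C with hs
  have hSy : S y ≤ s := by
    have := hC y (by omega)
    rw [abs_le, hlogy, hlogY] at this
    linarith [this.2]
  set x : ℝ := Real.exp (Y / (8 * r)) with hx
  set z : ℕ := ⌊x⌋₊ with hz
  have hx0 : 0 < x := Real.exp_pos _
  have hlogx : Real.log x = Y / (8 * r) := by rw [hx, Real.log_exp]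
  have hbig : 16 * (r : ℝ) * Real.log 2 ≤ Y := by
    have h1 := (hτ0 τ hT).2
    have h2 : 32 * (N0 : ℝ) * Λ ≤ τ := by
      have : 32 * (N0 : ℝ) * Λ ≤ 32 * N0 * (Real.log τ + 2) :=
        mul_le_mul_of_nonneg_left hΛ2 (by positivity)
      linarith
    have h3 : 16 * (r : ℝ) * Real.log 2 ≤ 16 * r * 1 :=
      mul_le_mul_of_nonneg_left (by linarith) (by positivity)
    have h4 : 16 * (r : ℝ) * 1 ≤ (32 * (N0 : ℝ) * Λ) * 2 ^ i := by nlinarith
    have h5 : (32 * (N0 : ℝ) * Λ) * 2 ^ i ≤ τ * 2 ^ i := mul_le_mul_of_nonneg_right h2 (by positivity)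
    rw [hY]; linarith
  have hYr : 2 * Real.log 2 ≤ Y / (8 * r) := by
    rw [le_div_iff₀ (by positivity)]; linarith
  have hx4 : 4 ≤ x := by
    have : Real.exp (2 * Real.log 2) = 4 := by
      rw [mul_comm, Real.exp_mul, Real.exp_log (by norm_num)]; norm_num
    rw [← this, hx]; exact Real.exp_le_exp.2 hYr
  have hzx : (z : ℝ) ≤ x := Nat.floor_le hx0.le
  have hxz : x < z + 1 := Nat.lt_floor_add_one x
  have hz2x : x / 2 ≤ z := by linarith
  have hz2 : 2 ≤ z := by
    have : (2 : ℝ) ≤ z := by linarith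
    exact_mod_cast this
  have hlogz : Y / (16 * r) ≤ Real.log z := by
    have h1 : Real.log (x / 2) ≤ Real.log z := Real.log_le_log (by positivity) hz2x
    rw [Real.log_div hx0.ne' (by norm_num), hlogx] at h1
    have h2 : Y / (8 * r) = 2 * (Y / (16 * r)) := by field_simp; ring
    linarith
  have hzy : z ≤ y := by
    have : (z : ℝ) ≤ y := by
      refine hzx.trans ?_
      rw [hyexp, hx]
      apply Real.exp_le_exp.2
      exact div_le_self hY0.le (by linarith)
    exact_mod_cast this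
  have hsum_le : ∑ p ∈ oddP z, (1 : ℝ) / p ≤ s := by
    have h1 := S_eq z hz2
    have h2 : S z ≤ S y := S_mono hzy
    linarith
  have hc1 : Real.exp (8 * s) / 8 ^ r ≤ Real.exp (-(2 * s)) := by
    rw [div_le_iff₀ (by positivity)]
    have h8 : (8 : ℝ) ^ r = Real.exp (r * Real.log 8) := by
      rw [mul_comm, Real.exp_mul, Real.exp_log (by norm_num), Real.rpow_natCast]
    rw [h8, ← Real.exp_add]
    apply Real.exp_le_exp.2
    have hlog8 : 2 ≤ Real.log 8 := by
      have : Real.log 8 = 3 * Real.log 2 := by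
        rw [show (8 : ℝ) = 2 ^ 3 by norm_num, Real.log_pow]; norm_num
      rw [this]; linarith
    have h1 : (r : ℝ) * 2 ≤ r * Real.log 8 := mul_le_mul_of_nonneg_left hlog8 (by positivity)
    have h2 : 6 * (1 + C) * (i + Λ) ≤ r := by
      rw [hrR]
      apply mul_le_mul_of_nonneg_right _ (by positivity)
      linarith
    have h3 : u ≤ i := by
      rw [hu]; nlinarith
    have h4 : C ≤ C * Λ := by nlinarith
    have h5 : 0 ≤ C * i := by positivity
    nlinarith
  have hc2 : z ^ r * Real.exp 1 * (2 * (R + 1)) ≤ y * Real.exp (-(2 * s)) := by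
    have h1 : (z : ℝ) ^ r ≤ Real.exp (Y / 8) := by
      calc (z : ℝ) ^ r ≤ x ^ r := pow_le_pow_left₀ (by positivity) hzx r
        _ = Real.exp (Y / 8) := by
          rw [hx, ← Real.exp_nat_mul]
          congr 1
          field_simp
    have h2 : (R : ℝ) + 1 ≤ 3 * Y ^ 2 := by nlinarith
    have h3 : Real.exp (-(2 * s)) * Y ^ 2 = Real.exp (-(2 * C)) := by
      have : Y ^ 2 = Real.exp (2 * (u + L)) := by
        rw [← hlogY, mul_comm, Real.exp_mul, Real.exp_log hY0]
        norm_num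
      rw [this, ← Real.exp_add]
      congr 1
      rw [hs]; ring
    have h4 := (hτ0 Y (hT.trans hτY)).1
    have hY2 : 0 < Y ^ 2 := by positivity
    have h5 : (z ^ r * Real.exp 1 * (2 * (R + 1))) * Y ^ 2 ≤ (y * Real.exp (-(2 * s))) * Y ^ 2 := by
      rw [mul_assoc (y : ℝ), h3, hyexp]
      calc (z : ℝ) ^ r * Real.exp 1 * (2 * (R + 1)) * Y ^ 2 ≤
          Real.exp (Y / 8) * Real.exp 1 * (2 * (3 * Y ^ 2)) * Y ^ 2 := by
            gcongr
        _ = Real.exp (Y / 8) * Real.exp (-(2 * C)) * (6 * Real.exp (1 + 2 * C) * Y ^ 4) := by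
            rw [Real.exp_add 1 (2 * C), Real.exp_neg]
            have := (Real.exp_pos (2 * C)).ne'
            field_simp
            ring
        _ ≤ Real.exp (Y / 8) * Real.exp (-(2 * C)) * Real.exp (7 / 8 * Y) :=
            mul_le_mul_of_nonneg_left h4 (by positivity)
        _ = Real.exp Y * Real.exp (-(2 * C)) := by
            rw [← Real.exp_add, ← Real.exp_add, ← Real.exp_add]
            congr 1; ring
    exact le_of_mul_le_mul_right h5 hY2
  have hmn := mn_sum (2 / 5) (3 / 4) (by norm_num) (by norm_num) (by norm_num) (by norm_num) (by norm_num)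
    (by norm_num) T y R z r s hzy (by omega) hreven hsum_le hc1 hc2
  rw [theta_sum T z hz2 hT2] at hmn
  have hK := Ksum T y M hT2 hTy hTM (2 / 5 * (3 / 4)) (by norm_num) (by norm_num)
  rw [min_eq_left hM] at hK
  -- bounds
  have hST : L - C ≤ S T := by
    have := hC T hT2
    rw [abs_le] at this
    have := this.1
    simp only [hL, hτ]; linarith
  have hSy' : u + L - C ≤ S y := by
    have := hC y (by omega)
    rw [abs_le, hlogy, hlogY] at this
    linarith [this.1]
  have hSM : S M ≤ Real.log (Real.log M) + C := by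
    have := hC M hM2
    rw [abs_le] at this
    linarith [this.2]
  have hlogM : 0 < Real.log M := Real.log_pos (by exact_mod_cast (by omega : 1 < M))
  have hK2 : Real.exp (11 / 4 + 2 / 5 * (3 / 4) * (S y - S T) + (S M - S y)) ≤
      Real.exp (11 / 4 + 2 * C) * Real.log M * Real.exp (-L - 7 / 10 * u) := by
    have : Real.exp (11 / 4 + 2 * C) * Real.log M * Real.exp (-L - 7 / 10 * u) =
        Real.exp (11 / 4 + 2 * C + Real.log (Real.log M) + (-L - 7 / 10 * u)) := by
      rw [Real.exp_add (11 / 4 + 2 * C + Real.log (Real.log M)),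
        Real.exp_add (11 / 4 + 2 * C) (Real.log (Real.log M)), Real.exp_log hlogM]
    rw [this]
    apply Real.exp_le_exp.2
    linarith
  have h16 : (0 : ℝ) < 16 * r := by positivity
  have hSz : u + L - Real.log (16 * r) - C ≤ S z := by
    have h1 := hC z hz2
    rw [abs_le] at h1
    have h2 : Real.log (Y / (16 * r)) ≤ Real.log (Real.log z) := Real.log_le_log (by positivity) hlogz
    rw [Real.log_div hY0.ne' h16.ne', hlogY] at h2
    linarith [h1.1]
  have hSm : L - Real.log (16 * r) - C ≤ S (min z T) := by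
    have h1 := hC (min z T) (le_min hz2 hT2)
    rw [abs_le] at h1
    have h3 : τ / (16 * r) ≤ Real.log ((min z T : ℕ) : ℝ) := by
      rcases le_total z T with h | h
      · rw [min_eq_left h]
        refine le_trans ?_ hlogz
        exact div_le_div_of_nonneg_right hτY h16.le
      · rw [min_eq_right h]
        rw [div_le_iff₀ h16, ← hτ]
        exact le_mul_of_one_le_right (by linarith) (by linarith)
    have h2 := Real.log_le_log (by positivity) h3
    rw [Real.log_div (by linarith) h16.ne'] at h2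
    linarith [h1.1]
  have hE : Real.exp (1 - (31 / 20 * (S z - 1 / 2) + 9 / 20 * (S (min z T) - 1 / 2))) ≤
      Real.exp (2 + 2 * C) * (16 * r) ^ 2 * Real.exp (-(2 * L) - 31 / 20 * u) := by
    have : Real.exp (2 + 2 * C) * (16 * r) ^ 2 * Real.exp (-(2 * L) - 31 / 20 * u) =
        Real.exp (2 + 2 * C + 2 * Real.log (16 * r) + (-(2 * L) - 31 / 20 * u)) := by
      rw [Real.exp_add (2 + 2 * C + 2 * Real.log (16 * r)), Real.exp_add (2 + 2 * C) (2 * Real.log (16 * r))]
      congr 2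
      rw [mul_comm 2 (Real.log _), Real.exp_mul, Real.exp_log h16]
      norm_num
    rw [this]
    apply Real.exp_le_exp.2
    linarith
  have hbox1 : ((Nat.log 2 (y ^ 2) + 1 : ℕ) : ℝ) ≤ 4 * Real.exp (u + L) := by
    have h1 := natlog_le (y ^ 2) (Nat.one_le_pow _ _ (by omega))
    push_cast at h1 ⊢
    rw [Real.log_pow, hlogy] at h1
    rw [← hlogY, Real.exp_log hY0]
    push_cast at h1
    linarith
  have hbox2 : ((2 * (Nat.log 2 R + 1) + 1 : ℕ) : ℝ) ≤ 12 * Λ := by
    have h1 : (Nat.log 2 R : ℝ) ≤ 3 / 2 * (1 + 2 * L) := by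
      rcases Nat.eq_zero_or_pos R with h | h
      · rw [h]; simp; positivity
      · refine (natlog_le R h).trans ?_
        apply mul_le_mul_of_nonneg_left _ (by norm_num)
        have h2 : (R : ℝ) ≤ 2 * τ ^ 2 := by nlinarith
        have h3 := Real.log_le_log (by exact_mod_cast h) h2
        rw [Real.log_mul (by norm_num) (by positivity), Real.log_pow] at h3
        push_cast at h3
        linarith
    push_cast
    linarith
  have hr2 : (16 * (r : ℝ)) ^ 2 ≤ (32 * N0) ^ 2 * (Λ ^ 2 * (i + 1) ^ 2) := by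
    have : 16 * (r : ℝ) ≤ 32 * N0 * (Λ * (i + 1)) := by
      rw [hrR]
      have : (i : ℝ) + Λ ≤ Λ * (i + 1) := by nlinarith
      nlinarith
    calc (16 * (r : ℝ)) ^ 2 ≤ (32 * N0 * (Λ * (i + 1))) ^ 2 := pow_le_pow_left₀ (by positivity) this 2
      _ = _ := by ring
  have hKnn : 0 ≤ ∑ k ∈ (Icc 1 M).filter (fun k => orough T k), (2 / 5 * (3 / 4) : ℝ) ^ Om T y k / k :=
    Finset.sum_nonneg fun k _ => by positivity
  calc _ ≤ (Real.exp (11 / 4 + 2 * C) * Real.log M * Real.exp (-L - 7 / 10 * u)) *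
      ((4 * Real.exp (u + L)) * (12 * Λ) * (9 * (Real.exp (2 + 2 * C) * ((32 * N0) ^ 2 * (Λ ^ 2 * (i + 1) ^ 2)) * Real.exp (-(2 * L) - 31 / 20 * u)))) := by
        apply mul_le_mul (hK.trans hK2) _ (Finset.sum_nonneg fun x _ => by positivity) (by positivity)
        refine hmn.trans ?_
        apply mul_le_mul (mul_le_mul hbox1 hbox2 (by positivity) (by positivity)) _ (by positivity) (by positivity)
        apply mul_le_mul_of_nonneg_left _ (by norm_num)
        refine hE.trans ?_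
        gcongr
    _ = Real.exp (11 / 4 + 2 * C) * (4 * 12 * 9) * Real.exp (2 + 2 * C) * (32 * N0) ^ 2 * Real.log M * (Λ : ℝ) ^ 3 * ((i : ℝ) + 1) ^ 2 *
        (Real.exp (-L - 7 / 10 * u) * Real.exp (u + L) * Real.exp (-(2 * L) - 31 / 20 * u)) := by ring
    _ = _ := by
        rw [← Real.exp_add, ← Real.exp_add]
        congr 2
        ring

end Pool.Agent.Helper559
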