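import Mathlib
import Pool.Agent.Helper559.Box

set_option autoImplicit false
set_option maxHeartbeats 4000000

namespace Pool.Agent.Helper559

open Finset

lemma gbox_sum (zm zn zs : ℝ) (hm0 : 0 < zm) (hm1 : zm ≤ 1) (hn0 : 0 < zn) (hn1 : zn ≤ 1) (hs0 : 0 < zs)
    (hs1 : zs ≤ 1) (hz12 : 1 ≤ zn + zs) (hz12' : (2 - zn - zs) ≤ 3 * (1 - zm))
    (bn bs : ℝ) (hb : (bn = 1 ∧ bs = 0) ∨ (bn = 0 ∧ bs = 1))
    (T y R z r : ℕ) (s : ℝ) (hzy : z ≤ y) (hz1 : 1 ≤ z) (hr : Even r)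
    (hs : ∑ p ∈ oddP z, (1 : ℝ) / p ≤ s) (hc1 : Real.exp (8 * s) / 8 ^ r ≤ Real.exp (-(2 * s)))
    (hc2 : z ^ r * Real.exp 1 * (2 * (R + 1)) ≤ y * Real.exp (-(2 * s)))
    (Q0 : Finset (ℕ × ℕ))
    (hQ0 : ∀ x ∈ Q0, 1 ≤ x.1 ∧ 1 ≤ x.2 ∧ Nat.Coprime x.1 x.2 ∧ y < x.1 + x.2 ∧ x.1 + x.2 ≤ y ^ 2 ∧
      x.1 ≤ R * x.2 ∧ x.2 ≤ R * x.1 ∧ orough T x.1 ∧ (bn = 1 → orough T x.2) ∧
      (bs = 1 → orough T (x.1 + x.2))) (a c : ℕ) :
    ∑ x ∈ Q0.filter (fun x => Nat.log 2 x.1 = a ∧ Nat.log 2 x.2 = c),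
      zm ^ Om T y x.1 * zn ^ Om T y x.2 * zs ^ Om T y (x.1 + x.2) / ((x.1 : ℝ) * (x.2 : ℝ))
    ≤ 9 * Real.exp (1 - ∑ p ∈ oddP z, (if p ≤ T then 2 else 3 - zm - zn - zs) / (p : ℝ)) := by
  classical
  set Q := Q0.filter (fun x => Nat.log 2 x.1 = a ∧ Nat.log 2 x.2 = c) with hQ
  rcases Q.eq_empty_or_nonempty with hemp | ⟨x0, hx0⟩
  · rw [hemp, Finset.sum_empty]; positivity
  have hmem : ∀ x ∈ Q, 1 ≤ x.1 ∧ 1 ≤ x.2 ∧ Nat.Coprime x.1 x.2 ∧ y < x.1 + x.2 ∧ x.1 ≤ R * x.2 ∧ x.2 ≤ R * x.1 ∧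
      orough T x.1 ∧ ((bn = 1 → orough T x.2) ∧ (bs = 1 → orough T (x.1 + x.2))) ∧
      2 ^ a ≤ x.1 ∧ x.1 < 2 ^ (a + 1) ∧ 2 ^ c ≤ x.2 ∧ x.2 < 2 ^ (c + 1) := by
    intro x hx
    rw [hQ, Finset.mem_filter] at hx
    obtain ⟨hx1, h10, h11⟩ := hx
    obtain ⟨h1, h2, h3, h4, h5, h6, h7, h8, h9, h9'⟩ := hQ0 x hx1
    refine ⟨h1, h2, h3, h4, h6, h7, h8, ⟨h9, h9'⟩, ?_, ?_, ?_, ?_⟩
    · rw [← h10]; exact Nat.pow_log_le_self 2 (by omega)
    · rw [← h10]; exact Nat.lt_pow_succ_log_self (by norm_num) _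
    · rw [← h11]; exact Nat.pow_log_le_self 2 (by omega)
    · rw [← h11]; exact Nat.lt_pow_succ_log_self (by norm_num) _
  have hea : 0 < Real.exp (-(2 * s)) := Real.exp_pos _
  obtain ⟨g1, g2, g3, g4, g5, g6, g7, g8, g9, g10, g11, g12⟩ := hmem x0 hx0
  have hyR1 : (y : ℝ) ≤ 2 ^ a * (2 * (R + 1)) := by
    have : y ≤ 2 ^ a * (2 * (R + 1)) := by
      have e1 : x0.1 + x0.2 ≤ (R + 1) * x0.1 := by nlinarith
      have e2 : x0.1 ≤ 2 ^ a * 2 := by rw [← pow_succ]; exact g10.le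
      nlinarith
    exact_mod_cast this
  have hyR2 : (y : ℝ) ≤ 2 ^ c * (2 * (R + 1)) := by
    have : y ≤ 2 ^ c * (2 * (R + 1)) := by
      have e1 : x0.1 + x0.2 ≤ (R + 1) * x0.2 := by nlinarith
      have e2 : x0.2 ≤ 2 ^ c * 2 := by rw [← pow_succ]; exact g12.le
      nlinarith
    exact_mod_cast this
  have hR2 : (0 : ℝ) < 2 * (R + 1) := by positivity
  have hcA : z ^ r * Real.exp 1 ≤ ((2 ^ a : ℕ) : ℝ) * Real.exp (-(2 * s)) := by
    have h1 : z ^ r * Real.exp 1 * (2 * (R + 1)) ≤ (2 ^ a * Real.exp (-(2 * s))) * (2 * (R + 1)) := by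
      refine hc2.trans ?_
      calc (y : ℝ) * Real.exp (-(2 * s)) ≤ 2 ^ a * (2 * (R + 1)) * Real.exp (-(2 * s)) :=
            mul_le_mul_of_nonneg_right hyR1 hea.le
        _ = _ := by ring
    push_cast
    exact le_of_mul_le_mul_right h1 hR2
  have hcB : z ^ r * Real.exp 1 ≤ ((2 ^ c : ℕ) : ℝ) * Real.exp (-(2 * s)) := by
    have h1 : z ^ r * Real.exp 1 * (2 * (R + 1)) ≤ (2 ^ c * Real.exp (-(2 * s))) * (2 * (R + 1)) := by
      refine hc2.trans ?_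
      calc (y : ℝ) * Real.exp (-(2 * s)) ≤ 2 ^ c * (2 * (R + 1)) * Real.exp (-(2 * s)) :=
            mul_le_mul_of_nonneg_right hyR2 hea.le
        _ = _ := by ring
    push_cast
    exact le_of_mul_le_mul_right h1 hR2
  have hbn0 : 0 ≤ bn := by rcases hb with h | h <;> linarith [h.1]
  have hbs0 : 0 ≤ bs := by rcases hb with h | h <;> linarith [h.2]
  have hbsum : bn + bs = 1 := by rcases hb with h | h <;> linarith [h.1, h.2]
  set α : ℕ → ℝ := fun p => if p ≤ T then 1 else 1 - zm with hα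
  set β : ℕ → ℝ := fun p => if p ≤ T then bn else 1 - zn with hβ
  set γ : ℕ → ℝ := fun p => if p ≤ T then bs else 1 - zs with hγ
  have hPp : ∀ p ∈ oddP z, p.Prime := fun p hp => (Finset.mem_filter.1 hp).2
  have hP3 : ∀ p ∈ oddP z, 3 ≤ p := fun p hp => (Finset.mem_Icc.1 (Finset.mem_filter.1 hp).1).1
  have hPz : ∀ p ∈ oddP z, p ≤ z := fun p hp => (Finset.mem_Icc.1 (Finset.mem_filter.1 hp).1).2
  have hcard : (oddP z).card ≤ z := by
    refine (Finset.card_filter_le _ _).trans ?_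
    simp
  have hsieve := sieve2 (oddP z) hPp hP3 α β γ
    (by intro p _; simp only [hα]; split_ifs <;> linarith)
    (by intro p _; simp only [hβ]; split_ifs <;> linarith)
    (by intro p _; simp only [hγ]; split_ifs <;> linarith)
    (by intro p _; simp only [hβ, hγ]; split_ifs <;> linarith)
    (by
      intro p hp
      have h3 : (3 : ℝ) ≤ p := by exact_mod_cast hP3 p hp
      simp only [hα, hβ, hγ]
      split_ifs
      · rw [div_le_iff₀ (by linarith)]; linarith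
      · rw [div_le_iff₀ (by linarith)]
        have : 0 ≤ 1 - zm := by linarith
        nlinarith)
    z hcard hz1 r hr (2 ^ a) (2 ^ c) (2 ^ a) (2 ^ c) s hs hc1 hcA hcB
  -- pointwise bound
  have hpt : ∀ x ∈ Q, zm ^ Om T y x.1 * zn ^ Om T y x.2 * zs ^ Om T y (x.1 + x.2) /
      ((x.1 : ℝ) * (x.2 : ℝ)) ≤ (1 / (2 ^ a * 2 ^ c)) *
      (if Nat.Coprime x.1 x.2 then ∏ p ∈ oddP z, ((if p ∣ x.1 then 1 - α p else 1) *
        ((if p ∣ x.2 then 1 - β p else 1) * (if p ∣ x.1 + x.2 then 1 - γ p else 1))) else 0) := by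
    intro x hx
    obtain ⟨g1, g2, g3, g4, g5, g6, g7, g8, g9, g10, g11, g12⟩ := hmem x hx
    rw [if_pos g3, Finset.prod_mul_distrib, Finset.prod_mul_distrib]
    have e1 : zm ^ Om T y x.1 ≤ ∏ p ∈ oddP z, (if p ∣ x.1 then 1 - α p else 1) := by
      apply pow_Om_le zm hm0 hm1 T y x.1 (by omega) (oddP z) hPp (fun p hp => (hPz p hp).trans hzy)
      · intro p _ hT
        simp only [hα]
        rw [if_neg (by omega)]; ring
      · intro p hp hT hd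
        exfalso
        rcases g7 p (hPp p hp) hd with h | h
        · have := hP3 p hp; omega
        · omega
    have e2 : zn ^ Om T y x.2 ≤ ∏ p ∈ oddP z, (if p ∣ x.2 then 1 - β p else 1) := by
      apply pow_Om_le zn hn0 hn1 T y x.2 (by omega) (oddP z) hPp (fun p hp => (hPz p hp).trans hzy)
      · intro p _ hT
        simp only [hβ]
        rw [if_neg (by omega)]; ring
      · intro p hp hT hd
        rcases hb with h | h
        · exfalso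
          rcases g8.1 h.1 p (hPp p hp) hd with h' | h'
          · have := hP3 p hp; omega
          · omega
        · simp only [hβ]
          rw [if_pos hT, h.1]; ring
    have e3 : zs ^ Om T y (x.1 + x.2) ≤ ∏ p ∈ oddP z, (if p ∣ x.1 + x.2 then 1 - γ p else 1) := by
      apply pow_Om_le zs hs0 hs1 T y (x.1 + x.2) (by omega) (oddP z) hPp
        (fun p hp => (hPz p hp).trans hzy)
      · intro p _ hT
        simp only [hγ]
        rw [if_neg (by omega)]; ring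
      · intro p hp hT hd
        rcases hb with h | h
        · simp only [hγ]
          rw [if_pos hT, h.2]; ring
        · exfalso
          rcases g8.2 h.2 p (hPp p hp) hd with h' | h'
          · have := hP3 p hp; omega
          · omega
    have f1 : 0 ≤ zm ^ Om T y x.1 := by positivity
    have f2 : 0 ≤ zn ^ Om T y x.2 := by positivity
    have f3 : 0 ≤ zs ^ Om T y (x.1 + x.2) := by positivity
    have e4 : zm ^ Om T y x.1 * zn ^ Om T y x.2 * zs ^ Om T y (x.1 + x.2) ≤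
        (∏ p ∈ oddP z, (if p ∣ x.1 then 1 - α p else 1)) *
        ((∏ p ∈ oddP z, (if p ∣ x.2 then 1 - β p else 1)) *
          ∏ p ∈ oddP z, (if p ∣ x.1 + x.2 then 1 - γ p else 1)) := by
      rw [mul_assoc]
      exact mul_le_mul e1 (mul_le_mul e2 e3 f3 (f2.trans e2)) (by positivity) (f1.trans e1)
    have hx1 : ((2 : ℝ) ^ a) ≤ x.1 := by exact_mod_cast g9
    have hx2 : ((2 : ℝ) ^ c) ≤ x.2 := by exact_mod_cast g11
    have hden : (2 : ℝ) ^ a * 2 ^ c ≤ (x.1 : ℝ) * (x.2 : ℝ) := by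
      have h2a : (0 : ℝ) ≤ 2 ^ a := by positivity
      exact mul_le_mul hx1 hx2 (by positivity) (h2a.trans hx1)
    rw [div_eq_mul_one_div, mul_comm]
    apply mul_le_mul _ e4 (by positivity) (by positivity)
    exact one_div_le_one_div_of_le (by positivity) hden
  have hnn : ∀ m n : ℕ, 0 ≤ (if Nat.Coprime m n then ∏ p ∈ oddP z, ((if p ∣ m then 1 - α p else 1) *
        ((if p ∣ n then 1 - β p else 1) * (if p ∣ m + n then 1 - γ p else 1))) else 0) := by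
    intro m n
    split_ifs
    · apply Finset.prod_nonneg
      intro p _
      apply mul_nonneg
      · simp only [hα]; split_ifs <;> linarith
      · apply mul_nonneg
        · simp only [hβ]; split_ifs <;> linarith
        · simp only [hγ]; split_ifs <;> linarith
    · exact le_refl _
  have hsubset : Q ⊆ (Ico (2 ^ a) (2 ^ a + 2 ^ a)) ×ˢ (Ico (2 ^ c) (2 ^ c + 2 ^ c)) := by
    intro x hx
    obtain ⟨g1, g2, g3, g4, g5, g6, g7, g8, g9, g10, g11, g12⟩ := hmem x hx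
    rw [Finset.mem_product, Finset.mem_Ico, Finset.mem_Ico]
    rw [pow_succ] at g10 g12
    refine ⟨⟨g9, by omega⟩, ⟨g11, by omega⟩⟩
  calc _ ≤ ∑ x ∈ Q, (1 / ((2 : ℝ) ^ a * 2 ^ c)) *
      (if Nat.Coprime x.1 x.2 then ∏ p ∈ oddP z, ((if p ∣ x.1 then 1 - α p else 1) *
        ((if p ∣ x.2 then 1 - β p else 1) * (if p ∣ x.1 + x.2 then 1 - γ p else 1))) else 0) :=
        Finset.sum_le_sum hpt
    _ ≤ ∑ x ∈ (Ico (2 ^ a) (2 ^ a + 2 ^ a)) ×ˢ (Ico (2 ^ c) (2 ^ c + 2 ^ c)), (1 / ((2 : ℝ) ^ a * 2 ^ c)) *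
      (if Nat.Coprime x.1 x.2 then ∏ p ∈ oddP z, ((if p ∣ x.1 then 1 - α p else 1) *
        ((if p ∣ x.2 then 1 - β p else 1) * (if p ∣ x.1 + x.2 then 1 - γ p else 1))) else 0) := by
        apply Finset.sum_le_sum_of_subset_of_nonneg hsubset
        intro x _ _
        exact mul_nonneg (by positivity) (hnn _ _)
    _ = (1 / ((2 : ℝ) ^ a * 2 ^ c)) * ∑ m ∈ Ico (2 ^ a) (2 ^ a + 2 ^ a), ∑ n ∈ Ico (2 ^ c) (2 ^ c + 2 ^ c),
      (if Nat.Coprime m n then ∏ p ∈ oddP z, ((if p ∣ m then 1 - α p else 1) *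
        ((if p ∣ n then 1 - β p else 1) * (if p ∣ m + n then 1 - γ p else 1))) else 0) := by
        rw [← Finset.mul_sum, Finset.sum_product]
    _ ≤ (1 / ((2 : ℝ) ^ a * 2 ^ c)) * (9 * (2 ^ a : ℕ) * (2 ^ c : ℕ) *
        Real.exp (- ∑ p ∈ oddP z, (α p + β p + γ p) / p + ∑ p ∈ oddP z, (1 : ℝ) / p ^ 2)) :=
        mul_le_mul_of_nonneg_left hsieve (by positivity)
    _ = 9 * Real.exp (- ∑ p ∈ oddP z, (α p + β p + γ p) / p + ∑ p ∈ oddP z, (1 : ℝ) / p ^ 2) := by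
        push_cast
        field_simp
    _ ≤ _ := by
        apply mul_le_mul_of_nonneg_left _ (by norm_num)
        apply Real.exp_le_exp.2
        have h1 := sum_primes_inv_sq_le (oddP z) hPp
        have h2 : ∑ p ∈ oddP z, (α p + β p + γ p) / (p : ℝ) =
            ∑ p ∈ oddP z, (if p ≤ T then 2 else 3 - zm - zn - zs) / (p : ℝ) := by
          apply Finset.sum_congr rfl
          intro p _
          congr 1
          simp only [hα, hβ, hγ]
          split_ifs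
          · linarith
          · ring
        rw [h2]
        linarith

lemma gmn_sum (zm zn zs : ℝ) (hm0 : 0 < zm) (hm1 : zm ≤ 1) (hn0 : 0 < zn) (hn1 : zn ≤ 1) (hs0 : 0 < zs)
    (hs1 : zs ≤ 1) (hz12 : 1 ≤ zn + zs) (hz12' : (2 - zn - zs) ≤ 3 * (1 - zm))
    (bn bs : ℝ) (hb : (bn = 1 ∧ bs = 0) ∨ (bn = 0 ∧ bs = 1))
    (T y R z r : ℕ) (s : ℝ) (hzy : z ≤ y) (hz1 : 1 ≤ z) (hr : Even r)
    (hs : ∑ p ∈ oddP z, (1 : ℝ) / p ≤ s) (hc1 : Real.exp (8 * s) / 8 ^ r ≤ Real.exp (-(2 * s)))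
    (hc2 : z ^ r * Real.exp 1 * (2 * (R + 1)) ≤ y * Real.exp (-(2 * s)))
    (Q0 : Finset (ℕ × ℕ))
    (hQ0 : ∀ x ∈ Q0, 1 ≤ x.1 ∧ 1 ≤ x.2 ∧ Nat.Coprime x.1 x.2 ∧ y < x.1 + x.2 ∧ x.1 + x.2 ≤ y ^ 2 ∧
      x.1 ≤ R * x.2 ∧ x.2 ≤ R * x.1 ∧ orough T x.1 ∧ (bn = 1 → orough T x.2) ∧
      (bs = 1 → orough T (x.1 + x.2))) :
    ∑ x ∈ Q0,
      zm ^ Om T y x.1 * zn ^ Om T y x.2 * zs ^ Om T y (x.1 + x.2) / ((x.1 : ℝ) * (x.2 : ℝ))
    ≤ ((Nat.log 2 (y ^ 2) + 1 : ℕ) : ℝ) * ((2 * (Nat.log 2 R + 1) + 1 : ℕ) : ℝ) *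
      (9 * Real.exp (1 - ∑ p ∈ oddP z, (if p ≤ T then 2 else 3 - zm - zn - zs) / (p : ℝ))) := by
  classical
  set b := Nat.log 2 R + 1 with hb_def
  set A := Nat.log 2 (y ^ 2) with hA
  set F : ℕ × ℕ → ℝ := fun x => zm ^ Om T y x.1 * zn ^ Om T y x.2 * zs ^ Om T y (x.1 + x.2) /
    ((x.1 : ℝ) * (x.2 : ℝ)) with hF
  have hF0 : ∀ x, 0 ≤ F x := by
    intro x
    simp only [hF]
    positivity
  have hmaps : ∀ x ∈ Q0, (Nat.log 2 x.1, Nat.log 2 x.2 + b - Nat.log 2 x.1) ∈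
      (range (A + 1)) ×ˢ (range (2 * b + 1)) := by
    intro x hx
    obtain ⟨h1, h2, h3, h4, h5, h6, h7, h8, h9, h9'⟩ := hQ0 x hx
    have h1' : x.1 ≤ y ^ 2 := by omega
    rw [Finset.mem_product, Finset.mem_range, Finset.mem_range]
    have e1 : Nat.log 2 x.1 ≤ A := Nat.log_mono_right h1'
    have e2 := log_le_log_add R x.1 x.2 h1 h6
    have e3 := log_le_log_add R x.2 x.1 h2 h7
    simp only
    constructor <;> omega
  rw [← Finset.sum_fiberwise_of_maps_to hmaps]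
  have hfib : ∀ j ∈ (range (A + 1)) ×ˢ (range (2 * b + 1)),
      ∑ x ∈ (Q0).filter (fun x => (Nat.log 2 x.1, Nat.log 2 x.2 + b - Nat.log 2 x.1) = j), F x ≤
      9 * Real.exp (1 - ∑ p ∈ oddP z, (if p ≤ T then 2 else 3 - zm - zn - zs) / (p : ℝ)) := by
    rintro ⟨a, t⟩ _
    refine le_trans ?_ (gbox_sum zm zn zs hm0 hm1 hn0 hn1 hs0 hs1 hz12 hz12' bn bs hb T y R z r s hzy hz1 hr hs hc1 hc2 Q0 hQ0 a (t + a - b))
    apply Finset.sum_le_sum_of_subset_of_nonneg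
    · intro x hx
      rw [Finset.mem_filter, Prod.mk.injEq] at hx
      rw [Finset.mem_filter]
      obtain ⟨hx1, hx2, hx3⟩ := hx
      refine ⟨hx1, hx2, ?_⟩
      obtain ⟨h1, h2, h3, h4, h5, h6, h7, h8, h9, h9'⟩ := hQ0 x hx1
      have e2 := log_le_log_add R x.1 x.2 h1 h6
      omega
    · intro x _ _
      exact hF0 x
  refine (Finset.sum_le_sum hfib).trans (le_of_eq ?_)
  rw [Finset.sum_const, Finset.card_product, Finset.card_range, Finset.card_range, nsmul_eq_mul]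
  push_cast
  ring

end Pool.Agent.Helper559
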