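import Mathlib

set_option autoImplicit false

namespace Pool.Agent.Helper559

open Finset

lemma log_a : Real.log (5 / 2) ≤ 9163 / 10000 := by
  rw [Real.log_le_iff_le_exp (by norm_num)]
  refine le_trans ?_ (Real.sum_le_exp_of_nonneg (x := 9163 / 10000) (by norm_num) 10)
  simp only [Finset.sum_range_succ, Finset.sum_range_zero, Nat.factorial]
  norm_num

lemma log_b : Real.log (4 / 3) ≤ 28769 / 100000 := by
  rw [Real.log_le_iff_le_exp (by norm_num)]
  refine le_trans ?_ (Real.sum_le_exp_of_nonneg (x := 28769 / 100000) (by norm_num) 8)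
  simp only [Finset.sum_range_succ, Finset.sum_range_zero, Nat.factorial]
  norm_num

lemma log_c : 2889 / 10000 ≤ Real.log (267 / 200) := by
  rw [Real.le_log_iff_exp_le (by norm_num)]
  refine le_trans (Real.exp_bound' (x := 2889 / 10000) (by norm_num) (by norm_num) (n := 8) (by norm_num)) ?_
  simp only [Finset.sum_range_succ, Finset.sum_range_zero, Nat.factorial]
  norm_num

end Pool.Agent.Helper559
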