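import Mathlib
import Pool.Agent.Helper559.Cover
import Pool.Agent.Helper559.Scale

set_option autoImplicit false
set_option maxHeartbeats 4000000

namespace Pool.Agent.Helper559

open Finset

lemma LM_cover {J : Type*} [DecidableEq J] (X : Set ℕ) (M : ℕ) (t : Finset J) (g : J → ℝ) (φ : J → ℕ)
    (hg : ∀ j ∈ t, 0 ≤ g j) (h : ∀ b ∈ X, 1 ≤ b → b ≤ M → ∃ j ∈ t, φ j = b ∧ (1 : ℝ) / b ≤ g j) :
    LM X M ≤ ∑ j ∈ t, g j := by
  classical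
  rw [LM]
  apply sum_cover _ t _ g φ hg
  intro b hb
  rw [Finset.mem_filter, Finset.mem_Icc] at hb
  exact h b hb.2 hb.1.1 hb.1.2

open scoped Classical in
lemma DB_sum (T R : ℕ) (hT : 2 ≤ T) (κ c : ℕ → ℝ) (M : ℕ) :
    LM (Dset T R κ \ Bset T c) M ≤ ∑ i ∈ (range M).filter (fun i => T ^ (2 ^ i) ≤ M),
      (2 / 5 : ℝ) ^ (-(κ i)) * (3 / 4 : ℝ) ^ (-(c i)) *
      ((∑ k ∈ (Icc 1 M).filter (fun k => orough T k), (2 / 5 * (3 / 4) : ℝ) ^ Om T (T ^ (2 ^ i)) k / k) *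
      (∑ x ∈ Qs T (T ^ (2 ^ i)) R, (2 / 5 : ℝ) ^ Om T (T ^ (2 ^ i)) x.1 * (3 / 4) ^ Om T (T ^ (2 ^ i)) x.2 *
        (2 / 5 * (3 / 4)) ^ Om T (T ^ (2 ^ i)) (x.1 + x.2) / ((x.2 : ℝ) * ((x.1 : ℝ) + x.2)))) := by
  set J := (_ : ℕ) × (ℕ × (ℕ × ℕ)) with hJ
  set t : Finset J := ((range M).filter (fun i => T ^ (2 ^ i) ≤ M)).sigma
    (fun i => ((Icc 1 M).filter (fun k => orough T k)) ×ˢ (Qs T (T ^ (2 ^ i)) R)) with ht
  set g : J → ℝ := fun j => (2 / 5 : ℝ) ^ (-(κ j.1)) * (3 / 4 : ℝ) ^ (-(c j.1)) *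
      (((2 / 5 * (3 / 4) : ℝ) ^ Om T (T ^ (2 ^ j.1)) j.2.1 / j.2.1) *
       ((2 / 5 : ℝ) ^ Om T (T ^ (2 ^ j.1)) j.2.2.1 * (3 / 4) ^ Om T (T ^ (2 ^ j.1)) j.2.2.2 *
        (2 / 5 * (3 / 4)) ^ Om T (T ^ (2 ^ j.1)) (j.2.2.1 + j.2.2.2) /
          ((j.2.2.2 : ℝ) * ((j.2.2.1 : ℝ) + j.2.2.2)))) with hg
  have hgn : ∀ j ∈ t, 0 ≤ g j := by
    intro j _
    simp only [hg]
    positivity
  have hmain : LM (Dset T R κ \ Bset T c) M ≤ ∑ j ∈ t, g j := by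
    apply LM_cover _ M t g (fun j => j.2.1 * (j.2.2.2 * (j.2.2.1 + j.2.2.2))) hgn
    intro b hb _ hbM
    obtain ⟨i, k, m, n, hiM, hyM, hbk, hk, hmn, hκ, hc⟩ := cover T R hT κ c M b hbM hb.1 hb.2
    refine ⟨⟨i, (k, (m, n))⟩, ?_, hbk.symm, ?_⟩
    · rw [ht, Finset.mem_sigma, Finset.mem_filter, Finset.mem_product, Finset.mem_range]
      exact ⟨⟨hiM, hyM⟩, hk, hmn⟩
    · simp only [hg]
      have hk0 : (0 : ℝ) < k := by
        rw [Finset.mem_filter, Finset.mem_Icc] at hk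
        exact_mod_cast hk.1.1
      have hn0 : (0 : ℝ) < n := by
        rw [Qs, Finset.mem_filter, Finset.mem_product, Finset.mem_Icc, Finset.mem_Icc] at hmn
        exact_mod_cast hmn.1.2.1
      have hm0 : (0 : ℝ) < m := by
        rw [Qs, Finset.mem_filter, Finset.mem_product, Finset.mem_Icc, Finset.mem_Icc] at hmn
        exact_mod_cast hmn.1.1.1
      have e1 := one_le_rpow_mul_pow (2 / 5) (by norm_num) (by norm_num) _ (κ i) hκ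
      have e2 := one_le_rpow_mul_pow (3 / 4) (by norm_num) (by norm_num) _ (c i) hc
      set ok := Om T (T ^ (2 ^ i)) k
      set om := Om T (T ^ (2 ^ i)) m
      set on := Om T (T ^ (2 ^ i)) n
      set os := Om T (T ^ (2 ^ i)) (m + n)
      have e3 := one_le_mul_of_one_le_of_one_le e1 e2
      rw [hbk]
      push_cast
      have e4 : (2 / 5 : ℝ) ^ (-(κ i)) * (3 / 4 : ℝ) ^ (-(c i)) * (((2 / 5 * (3 / 4) : ℝ) ^ ok / k) *
       ((2 / 5 : ℝ) ^ om * (3 / 4) ^ on * (2 / 5 * (3 / 4)) ^ os / ((n : ℝ) * ((m : ℝ) + n)))) =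
        ((2 / 5 : ℝ) ^ (-(κ i)) * (2 / 5) ^ (ok + om + os) * ((3 / 4 : ℝ) ^ (-(c i)) * (3 / 4) ^ (ok + on + os))) *
          (1 / ((k : ℝ) * ((n : ℝ) * ((m : ℝ) + n)))) := by
        rw [pow_add, pow_add, pow_add, pow_add, mul_pow, mul_pow]
        field_simp
      rw [e4]
      have h0 : 0 ≤ 1 / ((k : ℝ) * ((n : ℝ) * ((m : ℝ) + n))) := by positivity
      exact le_mul_of_one_le_left h0 e3
  refine hmain.trans (le_of_eq ?_)
  rw [ht, Finset.sum_sigma]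
  apply Finset.sum_congr rfl
  intro i _
  simp only [hg]
  rw [Finset.sum_mul_sum, Finset.mul_sum, Finset.sum_product]
  apply Finset.sum_congr rfl
  intro k _
  rw [Finset.mul_sum]

lemma Om_stable (T y y' n : ℕ) (hn0 : n ≠ 0) (hn : n ≤ y) (hyy : y ≤ y') : Om T y n = Om T y' n := by
  rw [Om, Om]
  apply Finset.sum_subset
  · intro p hp
    rw [Finset.mem_filter, Finset.mem_Ioc] at hp ⊢
    exact ⟨⟨hp.1.1, hp.1.2.trans hyy⟩, hp.2⟩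
  · intro p hp hp'
    rw [Finset.mem_filter, Finset.mem_Ioc] at hp hp'
    apply Nat.factorization_eq_zero_of_not_dvd
    intro h
    have h1 := Nat.le_of_dvd (by omega) h
    exact hp' ⟨⟨hp.1.1, by omega⟩, hp.2⟩

lemma one_le_rpow_mul_pow' (ρ : ℝ) (h1 : 1 ≤ ρ) (N : ℕ) (κ : ℝ) (h : κ ≤ (N : ℝ)) :
    1 ≤ ρ ^ (-κ) * ρ ^ N := by
  rw [← Real.rpow_natCast ρ N, ← Real.rpow_add (by linarith)]
  exact Real.one_le_rpow h1 (by linarith)

lemma exists_witness (T n M : ℕ) (hT : 2 ≤ T) (hn0 : n ≠ 0) (hnM : n ≤ M) (c : ℕ → ℝ) (hc : Monotone c)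
    (h : ∃ i : ℕ, c i < (Om T (T ^ (2 ^ i)) n : ℝ)) :
    ∃ i ∈ range (M + 1), c i < (Om T (T ^ (2 ^ i)) n : ℝ) := by
  obtain ⟨i, hi⟩ := h
  rcases Nat.lt_or_ge M i with h | h
  · refine ⟨M, Finset.mem_range.2 (by omega), ?_⟩
    have h1 : Om T (T ^ (2 ^ M)) n = Om T (T ^ (2 ^ i)) n := by
      apply Om_stable T _ _ n hn0
      · exact hnM.trans (le_pow_two_pow T M hT).le
      · exact Nat.pow_le_pow_right (by omega) (Nat.pow_le_pow_right (by norm_num) h.le)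
    rw [h1]
    exact (hc h.le).trans_lt hi
  · exact ⟨i, Finset.mem_range.2 (by omega), hi⟩

open scoped Classical in
lemma atyp_sum (T : ℕ) (hT : 2 ≤ T) (ρ : ℝ) (hρ : 1 ≤ ρ) (c : ℕ → ℝ) (hc : Monotone c) (M : ℕ)
    (F : Finset ℕ) (hF : F ⊆ Icc 1 M) :
    ∑ n ∈ F.filter (fun n => ∃ i : ℕ, c i < (Om T (T ^ (2 ^ i)) n : ℝ)), (1 : ℝ) / n ≤
      ∑ i ∈ range (M + 1), ρ ^ (-(c i)) * ∑ n ∈ F, ρ ^ Om T (T ^ (2 ^ i)) n / n := by
  have h1 : ∀ n ∈ F.filter (fun n => ∃ i : ℕ, c i < (Om T (T ^ (2 ^ i)) n : ℝ)),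
      (1 : ℝ) / n ≤ ∑ i ∈ range (M + 1), ρ ^ (-(c i)) * (ρ ^ Om T (T ^ (2 ^ i)) n / n) := by
    intro n hn
    rw [Finset.mem_filter] at hn
    have hnM := Finset.mem_Icc.1 (hF hn.1)
    obtain ⟨i, hi, hci⟩ := exists_witness T n M hT (by omega) hnM.2 c hc hn.2
    have h2 : (1 : ℝ) / n ≤ ρ ^ (-(c i)) * (ρ ^ Om T (T ^ (2 ^ i)) n / n) := by
      have e1 := one_le_rpow_mul_pow' ρ hρ _ (c i) hci.le
      have e2 : ρ ^ (-(c i)) * (ρ ^ Om T (T ^ (2 ^ i)) n / n) = (ρ ^ (-(c i)) * ρ ^ Om T (T ^ (2 ^ i)) n) * (1 / n) := by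
        ring
      rw [e2]
      exact le_mul_of_one_le_left (by positivity) e1
    refine h2.trans ?_
    apply Finset.single_le_sum (f := fun i => ρ ^ (-(c i)) * (ρ ^ Om T (T ^ (2 ^ i)) n / n)) _ hi
    intro j _
    have : 0 < ρ := by linarith
    positivity
  refine (Finset.sum_le_sum h1).trans ?_
  rw [Finset.sum_comm]
  apply Finset.sum_le_sum
  intro i _
  rw [← Finset.mul_sum]
  have hρ0 : 0 < ρ := by linarith
  apply mul_le_mul_of_nonneg_left _ (by positivity)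
  apply Finset.sum_le_sum_of_subset_of_nonneg (Finset.filter_subset _ _)
  intro n _ _
  positivity

end Pool.Agent.Helper559
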