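import Mathlib
import Pool.Agent.Helper559.Sums

set_option autoImplicit false
set_option maxHeartbeats 4000000

namespace Pool.Agent.Helper559

open Finset

lemma smooth_rough (T n : ℕ) (hn : n ≠ 0) :
    ∃ a u : ℕ, n = a * u ∧ (∀ p : ℕ, p.Prime → p ∣ a → p ≤ T) ∧ rough T u := by
  induction n using induction_on_primes with
  | zero => exact absurd rfl hn
  | one =>
    refine ⟨1, 1, rfl, ?_, ?_⟩
    · intro p hp h; exact absurd (Nat.dvd_one.1 h) hp.one_lt.ne'
    · intro p hp h; exact absurd (Nat.dvd_one.1 h) hp.one_lt.ne'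
  | prime_mul p n hp ih =>
    have hn' : n ≠ 0 := by
      intro h; apply hn; rw [h]; simp
    obtain ⟨a, u, h1, h2, h3⟩ := ih hn'
    rcases Nat.lt_or_ge T p with h | h
    · refine ⟨a, p * u, by rw [h1]; ring, h2, ?_⟩
      intro q hq hqd
      rcases (hq.dvd_mul).1 hqd with h4 | h4
      · rw [(Nat.prime_dvd_prime_iff_eq hq hp).1 h4]; exact h
      · exact h3 q hq h4
    · refine ⟨p * a, u, by rw [h1]; ring, ?_, h3⟩
      intro q hq hqd
      rcases (hq.dvd_mul).1 hqd with h4 | h4
      · rw [(Nat.prime_dvd_prime_iff_eq hq hp).1 h4]; exact h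
      · exact h2 q hq h4

open scoped Classical in
lemma smooth_sum (T N : ℕ) (hT : 2 ≤ T) :
    ∑ a ∈ (Icc 1 N).filter (fun a => ∀ p : ℕ, p.Prime → p ∣ a → p ≤ T), (1 : ℝ) / a ≤ Real.exp (S T + 9 / 4) := by
  set g : ℕ → ℝ := fun p => if p ≤ T then 1 else 0 with hg
  have hg0 : ∀ p, 0 ≤ g p := by intro p; simp only [hg]; split_ifs <;> norm_num
  have hg1 : ∀ p, g p ≤ 3 / 2 := by intro p; simp only [hg]; split_ifs <;> norm_num
  have hg2 : g 2 ≤ 1 := by simp only [hg]; split_ifs <;> norm_num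
  have e1 := euler_bound g hg0 hg1 hg2 N
  calc ∑ a ∈ (Icc 1 N).filter (fun a => ∀ p : ℕ, p.Prime → p ∣ a → p ≤ T), (1 : ℝ) / a
      = ∑ a ∈ (Icc 1 N).filter (fun a => ∀ p : ℕ, p.Prime → p ∣ a → p ≤ T), wt g a / a := by
        apply Finset.sum_congr rfl
        intro a ha
        rw [Finset.mem_filter] at ha
        have : wt g a = 1 := by
          rw [wt, Finsupp.prod]
          apply Finset.prod_eq_one
          intro p hp
          rw [Nat.support_factorization] at hp
          have := ha.2 p (Nat.prime_of_mem_primeFactors hp) (Nat.dvd_of_mem_primeFactors hp)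
          simp only [hg]
          rw [if_pos this, one_pow]
        rw [this]
    _ ≤ ∑ a ∈ Icc 1 N, wt g a / a := by
        apply Finset.sum_le_sum_of_subset_of_nonneg (Finset.filter_subset _ _)
        intro k _ _
        exact div_nonneg (wt_nonneg _ hg0 k) (by positivity)
    _ ≤ _ := by
        refine e1.trans ?_
        apply Real.exp_le_exp.2
        have : ∑ p ∈ (Icc 1 N).filter Nat.Prime, g p / p ≤ S T := by
          rw [S]
          have h2 : ∑ p ∈ (Icc 1 N).filter Nat.Prime, g p / (p : ℝ) =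
              ∑ p ∈ ((Icc 1 N).filter Nat.Prime).filter (fun p => p ≤ T), (1 : ℝ) / p := by
            rw [Finset.sum_filter (p := fun p => p ≤ T)]
            apply Finset.sum_congr rfl
            intro p _
            simp only [hg]
            split_ifs <;> simp
          rw [h2]
          apply Finset.sum_le_sum_of_subset_of_nonneg
          · intro p hp
            rw [Finset.mem_filter, Finset.mem_filter, Finset.mem_Icc] at hp
            rw [Finset.mem_filter, Finset.mem_Icc]
            exact ⟨⟨hp.1.1.1, hp.2⟩, hp.1.2⟩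
          · intro p _ _; positivity
        linarith

open scoped Classical in
lemma rough_lower (T N : ℕ) (hT : 2 ≤ T) :
    Real.log (N + 1) * Real.exp (-(S T + 9 / 4)) ≤
      ∑ u ∈ (Icc 1 N).filter (fun u => rough T u), (1 : ℝ) / u := by
  have h1 := harm_lower N
  have h2 : ∑ n ∈ Icc 1 N, (1 : ℝ) / n ≤
      (∑ a ∈ (Icc 1 N).filter (fun a => ∀ p : ℕ, p.Prime → p ∣ a → p ≤ T), (1 : ℝ) / a) *
      ∑ u ∈ (Icc 1 N).filter (fun u => rough T u), (1 : ℝ) / u := by
    rw [Finset.sum_mul_sum, ← Finset.sum_product']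
    apply sum_cover (Icc 1 N) _ (fun n => (1 : ℝ) / n) _ (fun j : ℕ × ℕ => j.1 * j.2)
    · intro j _; positivity
    · intro n hn
      rw [Finset.mem_Icc] at hn
      obtain ⟨a, u, h3, h4, h5⟩ := smooth_rough T n (by omega)
      have ha0 : a ≠ 0 := by intro h; rw [h] at h3; simp at h3; omega
      have hu0 : u ≠ 0 := by intro h; rw [h] at h3; simp at h3; omega
      refine ⟨(a, u), ?_, h3.symm, ?_⟩
      · rw [Finset.mem_product, Finset.mem_filter, Finset.mem_filter, Finset.mem_Icc, Finset.mem_Icc]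
        have ha : a ≤ n := Nat.le_of_dvd (by omega) ⟨u, h3⟩
        have hu : u ≤ n := Nat.le_of_dvd (by omega) ⟨a, by rw [h3]; ring⟩
        exact ⟨⟨⟨by omega, by omega⟩, h4⟩, ⟨⟨by omega, by omega⟩, h5⟩⟩
      · simp only
        rw [h3]
        push_cast
        apply le_of_eq
        field_simp
  have h3 := smooth_sum T N hT
  have h4 : 0 ≤ ∑ u ∈ (Icc 1 N).filter (fun u => rough T u), (1 : ℝ) / u :=
    Finset.sum_nonneg fun u _ => by positivity
  have h5 : Real.log (N + 1) ≤ Real.exp (S T + 9 / 4) * ∑ u ∈ (Icc 1 N).filter (fun u => rough T u), (1 : ℝ) / u :=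
    h1.trans (h2.trans (mul_le_mul_of_nonneg_right h3 h4))
  rw [Real.exp_neg, ← div_eq_mul_inv, div_le_iff₀ (Real.exp_pos _), mul_comm]
  exact h5

lemma geom_bound (δ : ℝ) (hδ : 0 < δ) : ∃ G : ℝ, 0 < G ∧ ∀ n : ℕ,
    ∑ i ∈ range n, ((i : ℝ) + 1) ^ 2 * Real.exp (-(δ * i)) ≤ G := by
  set q := Real.exp (-δ) with hq
  have hq0 : 0 < q := Real.exp_pos _
  have hq1 : q < 1 := by
    have := Real.exp_lt_exp.2 (show -δ < 0 by linarith)
    rwa [Real.exp_zero] at this
  have hs : Summable (fun i : ℕ => ((i : ℝ) + 1) ^ 2 * Real.exp (-(δ * i))) := by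
    have h2 := summable_pow_mul_geometric_of_norm_lt_one 2 (r := q) (by rw [Real.norm_of_nonneg hq0.le]; exact hq1)
    have h1 := summable_pow_mul_geometric_of_norm_lt_one 1 (r := q) (by rw [Real.norm_of_nonneg hq0.le]; exact hq1)
    have h0 := summable_pow_mul_geometric_of_norm_lt_one 0 (r := q) (by rw [Real.norm_of_nonneg hq0.le]; exact hq1)
    have h3 := (h2.add (h1.mul_left 2)).add h0
    refine h3.congr ?_
    intro i
    have : Real.exp (-(δ * i)) = q ^ i := by
      rw [hq, ← Real.exp_nat_mul]; congr 1; ring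
    rw [this]
    ring
  refine ⟨∑' i : ℕ, ((i : ℝ) + 1) ^ 2 * Real.exp (-(δ * i)) + 1, ?_, ?_⟩
  · have : 0 ≤ ∑' i : ℕ, ((i : ℝ) + 1) ^ 2 * Real.exp (-(δ * i)) := tsum_nonneg fun i => by positivity
    linarith
  · intro n
    have := hs.sum_le_tsum (range n) (fun i _ => by positivity)
    linarith

lemma log_one_add_bound (ε : ℝ) (h0 : 0 < ε) (h1 : ε ≤ 1) : ε + ε ^ 2 / 3 ≤ (1 + ε) * Real.log (1 + ε) := by
  have h := Real.le_log_one_add_of_nonneg h0.le
  have h2 : (1 + ε) * (2 * ε / (ε + 2)) ≤ (1 + ε) * Real.log (1 + ε) := mul_le_mul_of_nonneg_left h (by linarith)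
  refine le_trans ?_ h2
  rw [← mul_div_assoc, le_div_iff₀ (by linarith)]
  nlinarith [mul_pos h0 h0, mul_pos (mul_pos h0 h0) h0]

open scoped Classical in
lemma W_lower (C : ℝ) (hC : ∀ x : ℕ, 2 ≤ x → |S x - Real.log (Real.log x)| ≤ C) (ε : ℝ)
    (hε0 : 0 < ε) (hε1 : ε ≤ 1 / 2) :
    ∃ K : ℝ, 0 ≤ K ∧ ∀ T N : ℕ, 3 ≤ Real.log T → T ≤ N →
      1 / 2 * (Real.log N * Real.exp (-(Real.log (Real.log T)) - C - 9 / 4)) ≤
      ∑ u ∈ (Icc 1 N).filter (fun u => rough T u ∧ ∀ i : ℕ, (Om T (T ^ (2 ^ i)) u : ℝ) ≤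
        K + (1 + ε) * (i * Real.log 2)), (1 : ℝ) / u := by
  have hl2a := Real.log_two_gt_d9
  have hl2b := Real.log_two_lt_d9
  obtain ⟨G, hG0, hG⟩ := geom_bound (ε ^ 2 / 3 * Real.log 2) (by positivity)
  have hlr : 0 < Real.log (1 + ε) := Real.log_pos (by linarith)
  -- choice of K
  obtain ⟨K, hK0, hK⟩ : ∃ K : ℝ, 0 ≤ K ∧ Real.exp (11 / 4 + 2 * C + 2 * C * ε) * G * Real.exp (-(K * Real.log (1 + ε))) ≤
      1 / 2 * Real.exp (- C - 9 / 4) := by
    set X := Real.exp (11 / 4 + 2 * C + 2 * C * ε) * G / (1 / 2 * Real.exp (- C - 9 / 4)) with hX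
    have hX0 : 0 < X := by positivity
    refine ⟨max 0 (Real.log X / Real.log (1 + ε)), le_max_left _ _, ?_⟩
    have h1 : Real.log X ≤ max 0 (Real.log X / Real.log (1 + ε)) * Real.log (1 + ε) := by
      have := le_max_right 0 (Real.log X / Real.log (1 + ε))
      calc Real.log X = Real.log X / Real.log (1 + ε) * Real.log (1 + ε) := by field_simp
        _ ≤ _ := mul_le_mul_of_nonneg_right this hlr.le
    have h2 : Real.exp (-(max 0 (Real.log X / Real.log (1 + ε)) * Real.log (1 + ε))) ≤ X⁻¹ := by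
      rw [← Real.exp_log (inv_pos.2 hX0), Real.log_inv]
      exact Real.exp_le_exp.2 (by linarith)
    calc Real.exp (11 / 4 + 2 * C + 2 * C * ε) * G * Real.exp (-(max 0 (Real.log X / Real.log (1 + ε)) * Real.log (1 + ε)))
        ≤ Real.exp (11 / 4 + 2 * C + 2 * C * ε) * G * X⁻¹ := mul_le_mul_of_nonneg_left h2 (by positivity)
      _ = _ := by rw [hX]; field_simp
  refine ⟨K, hK0, ?_⟩
  intro T N hτ hTN
  set τ := Real.log T with hτdef
  set L := Real.log τ with hL
  have hT2 : 2 ≤ T := by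
    by_contra h
    have h2 : (T : ℝ) ≤ 1 := by
      have : T ≤ 1 := by omega
      exact_mod_cast this
    have h3 : τ ≤ 0 := Real.log_nonpos (by positivity) h2
    linarith
  have hN2 : 2 ≤ N := hT2.trans hTN
  have hlogN : 0 < Real.log N := Real.log_pos (by exact_mod_cast (by omega : 1 < N))
  have hST := hC T hT2
  rw [abs_le] at hST
  have hSN := hC N hN2
  rw [abs_le] at hSN
  set κ : ℕ → ℝ := fun i => K + (1 + ε) * (i * Real.log 2) with hκ
  have hκmono : Monotone κ := by
    intro i j hij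
    simp only [hκ]
    have : (i : ℝ) ≤ j := by exact_mod_cast hij
    gcongr
  set F := (Icc 1 N).filter (fun u => rough T u) with hF
  have hrl := rough_lower T N hT2
  have hatyp := atyp_sum T hT2 (1 + ε) (by linarith) κ hκmono N F (Finset.filter_subset _ _)
  -- bound each term
  have hterm : ∀ i ∈ range (N + 1), (1 + ε) ^ (-(κ i)) * ∑ n ∈ F, (1 + ε) ^ Om T (T ^ (2 ^ i)) n / n ≤
      (Real.exp (11 / 4 + 2 * C + 2 * C * ε) * Real.exp (-(K * Real.log (1 + ε))) * (Real.log N * Real.exp (-L))) *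
        (((i : ℝ) + 1) ^ 2 * Real.exp (-(ε ^ 2 / 3 * Real.log 2 * i))) := by
    intro i _
    set y := T ^ (2 ^ i) with hy
    have hTy : T ≤ y := by
      rw [hy]
      exact Nat.le_self_pow (by positivity) T
    have hK1 := Ksum T y N hT2 hTy hTN (1 + ε) (by linarith) (by linarith)
    have hsub : ∑ n ∈ F, (1 + ε) ^ Om T y n / n ≤
        ∑ k ∈ (Icc 1 N).filter (fun k => orough T k), (1 + ε) ^ Om T y k / k := by
      apply Finset.sum_le_sum_of_subset_of_nonneg
      · intro u hu
        rw [hF, Finset.mem_filter] at hu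
        rw [Finset.mem_filter]
        exact ⟨hu.1, fun p hp hd => Or.inr (hu.2 p hp hd)⟩
      · intro u _ _; positivity
    have hSy : S (min y N) ≤ i * Real.log 2 + L + C := by
      have h1 : S (min y N) ≤ S y := S_mono (min_le_left _ _)
      have h2 := hC y (by omega)
      rw [abs_le] at h2
      have h3 : Real.log (Real.log (y : ℝ)) = i * Real.log 2 + L := by
        rw [hy]; push_cast
        rw [Real.log_pow, Real.log_mul (by positivity) (by linarith)]
        push_cast
        rw [Real.log_pow]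
      linarith [h2.2]
    have hb : Real.exp (11 / 4 + (1 + ε) * (S (min y N) - S T) + (S N - S (min y N))) ≤
        Real.exp (11 / 4 + 2 * C + ε * (i * Real.log 2 + 2 * C) + Real.log (Real.log N) - L) := by
      apply Real.exp_le_exp.2
      have h4 : ε * (S (min y N) - S T) ≤ ε * (i * Real.log 2 + 2 * C) := by
        apply mul_le_mul_of_nonneg_left _ hε0.le
        linarith [hST.1]
      linarith [hST.1, hSN.2]
    have hρ : (1 + ε) ^ (-(κ i)) = Real.exp (-(κ i) * Real.log (1 + ε)) := by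
      rw [Real.rpow_def_of_pos (by linarith)]; congr 1; ring
    have hpos : 0 ≤ (1 + ε) ^ (-(κ i)) := by
      rw [hρ]; exact (Real.exp_pos _).le
    calc (1 + ε) ^ (-(κ i)) * ∑ n ∈ F, (1 + ε) ^ Om T y n / n
        ≤ (1 + ε) ^ (-(κ i)) * Real.exp (11 / 4 + 2 * C + ε * (i * Real.log 2 + 2 * C) + Real.log (Real.log N) - L) :=
          mul_le_mul_of_nonneg_left (hsub.trans (hK1.trans hb)) hpos
      _ ≤ (Real.exp (11 / 4 + 2 * C + 2 * C * ε) * Real.exp (-(K * Real.log (1 + ε))) * (Real.log N * Real.exp (-L))) *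
        (1 * Real.exp (-(ε ^ 2 / 3 * Real.log 2 * i))) := by
          rw [hρ, one_mul]
          conv_rhs => rw [← Real.exp_log hlogN]
          rw [← Real.exp_add, ← Real.exp_add, ← Real.exp_add, ← Real.exp_add, ← Real.exp_add]
          apply Real.exp_le_exp.2
          simp only [hκ]
          have h5 := log_one_add_bound ε hε0 (by linarith)
          have h6 : 0 ≤ (i : ℝ) * Real.log 2 := by positivity
          have h7 := mul_le_mul_of_nonneg_left h5 h6
          linarith
      _ ≤ _ := by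
          apply mul_le_mul_of_nonneg_left _ (by positivity)
          apply mul_le_mul_of_nonneg_right _ (by positivity)
          have : (0 : ℝ) ≤ i := by positivity
          nlinarith
  have hsumterm := (Finset.sum_le_sum hterm)
  rw [← Finset.mul_sum] at hsumterm
  have hGN := hG (N + 1)
  have hbad : ∑ n ∈ F.filter (fun n => ∃ i : ℕ, κ i < (Om T (T ^ (2 ^ i)) n : ℝ)), (1 : ℝ) / n ≤
      1 / 2 * Real.exp (- C - 9 / 4) * (Real.log N * Real.exp (-L)) := by
    refine hatyp.trans (hsumterm.trans ?_)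
    have h9 : 0 ≤ Real.log N * Real.exp (-L) := by positivity
    calc _ ≤ (Real.exp (11 / 4 + 2 * C + 2 * C * ε) * Real.exp (-(K * Real.log (1 + ε))) * (Real.log N * Real.exp (-L))) * G :=
          mul_le_mul_of_nonneg_left hGN (by positivity)
      _ = (Real.exp (11 / 4 + 2 * C + 2 * C * ε) * G * Real.exp (-(K * Real.log (1 + ε)))) * (Real.log N * Real.exp (-L)) := by ring
      _ ≤ _ := mul_le_mul_of_nonneg_right hK h9
  have hsplit : ∑ u ∈ F, (1 : ℝ) / u =
      ∑ n ∈ F.filter (fun n => ∃ i : ℕ, κ i < (Om T (T ^ (2 ^ i)) n : ℝ)), (1 : ℝ) / n +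
      ∑ u ∈ (Icc 1 N).filter (fun u => rough T u ∧ ∀ i : ℕ, (Om T (T ^ (2 ^ i)) u : ℝ) ≤ κ i), (1 : ℝ) / u := by
    rw [← Finset.sum_filter_add_sum_filter_not F (fun n => ∃ i : ℕ, κ i < (Om T (T ^ (2 ^ i)) n : ℝ))]
    congr 1
    apply Finset.sum_congr _ (fun _ _ => rfl)
    ext u
    simp only [hF, Finset.mem_filter]
    push Not
    tauto
  have hlow : Real.log N * Real.exp (-L - C - 9 / 4) ≤ ∑ u ∈ F, (1 : ℝ) / u := by
    refine le_trans ?_ hrl
    apply mul_le_mul
    · apply Real.log_le_log (by positivity); linarith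
    · apply Real.exp_le_exp.2; linarith [hST.2]
    · positivity
    · apply Real.log_nonneg; have : (0 : ℝ) ≤ N := by positivity
      linarith
  have hexp : Real.exp (- C - 9 / 4) * Real.exp (-L) = Real.exp (-L - C - 9 / 4) := by
    rw [← Real.exp_add]; congr 1; ring
  have hbad' : 1 / 2 * Real.exp (- C - 9 / 4) * (Real.log N * Real.exp (-L)) =
      1 / 2 * (Real.log N * Real.exp (-L - C - 9 / 4)) := by
    rw [← hexp]; ring
  rw [hbad'] at hbad
  simp only [hκ] at hsplit hbad ⊢
  linarith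

end Pool.Agent.Helper559
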