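import Mathlib
import Pool.Agent.Helper559.Wlower
import Pool.Agent.Helper559.Ebound
import Pool.Agent.Helper559.Numeric

set_option autoImplicit false
set_option maxHeartbeats 4000000

namespace Pool.Agent.Helper559

open Finset

lemma LM_eq (X : Set ℕ) (M : ℕ) : LM X M = ∑ n ∈ Icc 1 M, Set.indicator X (fun n => (1 : ℝ) / n) n := by
  classical
  rw [LM, Finset.sum_filter]
  apply Finset.sum_congr rfl
  intro n _
  by_cases h : n ∈ X
  · rw [if_pos h, Set.indicator_of_mem h]
  · rw [if_neg h, Set.indicator_of_notMem h]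

lemma LM_nonneg (X : Set ℕ) (M : ℕ) : 0 ≤ LM X M := by
  rw [LM]
  exact Finset.sum_nonneg fun n _ => by positivity

lemma LM_split (D B : Set ℕ) (M : ℕ) : LM D M ≤ LM B M + LM (D \ B) M := by
  rw [LM_eq, LM_eq, LM_eq, ← Finset.sum_add_distrib]
  apply Finset.sum_le_sum
  intro n _
  have h0 : (0 : ℝ) ≤ 1 / n := by positivity
  by_cases hD : n ∈ D
  · by_cases hB : n ∈ B
    · have h3 : n ∉ D \ B := fun h => h.2 hB
      rw [Set.indicator_of_mem hD, Set.indicator_of_mem hB, Set.indicator_of_notMem h3]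
      linarith
    · have h3 : n ∈ D \ B := ⟨hD, hB⟩
      rw [Set.indicator_of_mem hD, Set.indicator_of_notMem hB, Set.indicator_of_mem h3]
      linarith
  · have h3 : n ∉ D \ B := fun h => hD h.1
    rw [Set.indicator_of_notMem hD, Set.indicator_of_notMem h3]
    have : 0 ≤ Set.indicator B (fun n => (1 : ℝ) / n) n := Set.indicator_nonneg (fun n _ => by positivity) n
    linarith

lemma LM_A (T R : ℕ) (κ : ℕ → ℝ) (M : ℕ) :
    LM {n | Odd n} M + LM (Wset T κ) M ≤ LM (Aset T R κ) M + LM (Dset T R κ) M := by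
  rw [LM_eq, LM_eq, LM_eq, LM_eq, ← Finset.sum_add_distrib, ← Finset.sum_add_distrib]
  apply Finset.sum_le_sum
  intro n _
  have h0 : (0 : ℝ) ≤ 1 / n := by positivity
  have hdis : ¬ (n ∈ {n : ℕ | Odd n} ∧ n ∈ Wset T κ) := by
    rintro ⟨h1, u, h2, _⟩
    have h1 : Odd n := h1
    rw [h2] at h1
    exact (Nat.not_odd_iff_even.2 (even_two_mul u)) h1
  have hA : 0 ≤ Set.indicator (Aset T R κ) (fun n => (1 : ℝ) / n) n := Set.indicator_nonneg (fun n _ => by positivity) n
  have hDn : 0 ≤ Set.indicator (Dset T R κ) (fun n => (1 : ℝ) / n) n := Set.indicator_nonneg (fun n _ => by positivity) n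
  by_cases hD : n ∈ Dset T R κ
  · rw [Set.indicator_of_mem hD]
    by_cases h1 : n ∈ {n : ℕ | Odd n}
    · have h2 : n ∉ Wset T κ := fun h => hdis ⟨h1, h⟩
      rw [Set.indicator_of_mem h1, Set.indicator_of_notMem h2]
      linarith
    · rw [Set.indicator_of_notMem h1]
      have : Set.indicator (Wset T κ) (fun n => (1 : ℝ) / n) n ≤ 1 / n := by
        by_cases h2 : n ∈ Wset T κ
        · rw [Set.indicator_of_mem h2]
        · rw [Set.indicator_of_notMem h2]; exact h0
      linarith
  · by_cases h1 : n ∈ {n : ℕ | Odd n}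
    · have h2 : n ∉ Wset T κ := fun h => hdis ⟨h1, h⟩
      have h3 : n ∈ Aset T R κ := ⟨Or.inl h1, hD⟩
      rw [Set.indicator_of_mem h1, Set.indicator_of_notMem h2, Set.indicator_of_mem h3]
      linarith
    · rw [Set.indicator_of_notMem h1]
      by_cases h2 : n ∈ Wset T κ
      · have h3 : n ∈ Aset T R κ := ⟨Or.inr h2, hD⟩
        rw [Set.indicator_of_mem h2, Set.indicator_of_mem h3]
        linarith
      · rw [Set.indicator_of_notMem h2]
        linarith

lemma LM_odd (M : ℕ) (hM : 1 ≤ M) : 1 / 2 * Real.log M - 1 / 2 ≤ LM {n | Odd n} M := by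
  have hM' : (1 : ℝ) ≤ M := by exact_mod_cast hM
  have h1 : LM {n : ℕ | Even n} M ≤ ∑ k ∈ Icc 1 (M / 2), (1 / 2 * (1 / (k : ℝ))) := by
    apply LM_cover _ M (Icc 1 (M / 2)) _ (fun k => 2 * k)
    · intro j _; positivity
    · intro b hb hb1 hbM
      obtain ⟨k, hk⟩ := hb
      refine ⟨k, ?_, by omega, ?_⟩
      · rw [Finset.mem_Icc]; omega
      · rw [hk]; push_cast
        apply le_of_eq
        have : (k : ℝ) ≠ 0 := by
          have : 0 < k := by omega
          positivity
        field_simp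
        ring
  rw [← Finset.mul_sum] at h1
  have h2 := harm_bound (M / 2)
  have h3 : Real.log ((M / 2 : ℕ) : ℝ) ≤ Real.log M := by
    rcases Nat.eq_zero_or_pos (M / 2) with h | h
    · rw [h]; simp; exact Real.log_nonneg hM'
    · apply Real.log_le_log (by exact_mod_cast h)
      exact_mod_cast Nat.div_le_self M 2
  have h4 := harm_lower M
  have h5 : Real.log M ≤ Real.log (M + 1) := Real.log_le_log (by linarith) (by linarith)
  have h6 : ∑ n ∈ Icc 1 M, (1 : ℝ) / n ≤ LM {n : ℕ | Odd n} M + LM {n : ℕ | Even n} M := by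
    rw [LM_eq, LM_eq, ← Finset.sum_add_distrib]
    apply Finset.sum_le_sum
    intro n _
    rcases Nat.even_or_odd n with h | h
    · have h' : n ∉ {n : ℕ | Odd n} := fun h2 => (Nat.not_odd_iff_even.2 h) h2
      rw [Set.indicator_of_notMem h', Set.indicator_of_mem (show n ∈ {n : ℕ | Even n} from h)]
      linarith
    · have h' : n ∉ {n : ℕ | Even n} := fun h2 => (Nat.not_even_iff_odd.2 h) h2
      rw [Set.indicator_of_notMem h', Set.indicator_of_mem (show n ∈ {n : ℕ | Odd n} from h)]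
      linarith
  linarith

open scoped Classical in
lemma LM_W (T : ℕ) (κ : ℕ → ℝ) (M : ℕ) :
    1 / 2 * ∑ u ∈ (Icc 1 (M / 2)).filter (fun u => rough T u ∧ ∀ i : ℕ, (Om T (T ^ (2 ^ i)) u : ℝ) ≤ κ i),
      (1 : ℝ) / u ≤ LM (Wset T κ) M := by
  rw [Finset.mul_sum, LM]
  apply sum_cover _ _ (fun u : ℕ => 1 / 2 * ((1 : ℝ) / u)) (fun w : ℕ => (1 : ℝ) / w) (fun w => w / 2)
  · intro j _; positivity
  · intro u hu
    rw [Finset.mem_filter, Finset.mem_Icc] at hu
    refine ⟨2 * u, ?_, by omega, ?_⟩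
    · rw [Finset.mem_filter, Finset.mem_Icc]
      exact ⟨by omega, u, rfl, by omega, hu.2.1, hu.2.2⟩
    · push_cast
      apply le_of_eq
      have : (u : ℝ) ≠ 0 := by
        have : 0 < u := by omega
        positivity
      field_simp

lemma rpow_neg_eq (z w κ : ℝ) (hz : 0 < z) (hw : z = w⁻¹) : z ^ (-κ) = Real.exp (κ * Real.log w) := by
  rw [Real.rpow_def_of_pos hz, hw, Real.log_inv]
  congr 1; ring

theorem main_bound : ∃ (T R : ℕ) (κ : ℕ → ℝ) (η : ℝ), 0 < R ∧ 0 < η ∧ 1 / (R : ℝ) ≤ η / 2 ∧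
    ∃ C : ℝ, ∀ M : ℕ, 1 ≤ M → (1 / 2 + η) * Real.log M - C ≤ LM (Aset T R κ) M := by
  classical
  obtain ⟨C₀, hC₀0, hC₀⟩ := mertens
  set C := max C₀ 1 with hCdef
  have hC1 : 1 ≤ C := le_max_right _ _
  have hC : ∀ x : ℕ, 2 ≤ x → |S x - Real.log (Real.log x)| ≤ C := fun x hx => (hC₀ x hx).trans (le_max_left _ _)
  obtain ⟨K, hK0, hK⟩ := W_lower C hC (1 / 25000) (by norm_num) (by norm_num)
  obtain ⟨C3, τ0, hC30, hτ03, hE⟩ := E_bound C hC1 hC
  obtain ⟨G, hG0, hG⟩ := geom_bound (1 / 100000) (by norm_num)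
  have hl2a := Real.log_two_gt_d9
  have hl2b := Real.log_two_lt_d9
  set κ : ℕ → ℝ := fun i => K + (1 + 1 / 25000) * (i * Real.log 2) with hκ
  set C4 : ℝ := Real.exp (K * Real.log (5 / 2)) * C3 * G with hC4
  set C5 : ℝ := Real.exp (11 / 4 + 2 * C) * G with hC5
  have hC40 : 0 < C4 := by positivity
  have hC50 : 0 < C5 := by positivity
  set c1 : ℝ := 1 / 4 * Real.exp (-C - 9 / 4) with hc1
  have hc10 : 0 < c1 := by positivity
  -- choice of T
  obtain ⟨T, hTτ0, hTc1, hTL, hTbig⟩ : ∃ T : ℕ, τ0 ≤ Real.log T ∧ 4 / c1 ≤ Real.log T ∧ 1 ≤ Real.log (Real.log T) ∧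
      (C4 * (Real.log (Real.log T) + 2) ^ 3 + C5) * Real.exp (-(1 / 100000 * Real.log (Real.log T))) ≤ c1 / 2 := by
    have t1 : Filter.Tendsto (fun T : ℕ => Real.log (T : ℝ)) Filter.atTop Filter.atTop :=
      Real.tendsto_log_atTop.comp tendsto_natCast_atTop_atTop
    have t2 : Filter.Tendsto (fun T : ℕ => Real.log (Real.log (T : ℝ))) Filter.atTop Filter.atTop :=
      Real.tendsto_log_atTop.comp t1
    have h := tendsto_exp_mul_div_rpow_atTop 3 (1 / 100000) (by norm_num)
    have ev : ∀ᶠ x : ℝ in Filter.atTop, (C4 * (x + 2) ^ 3 + C5) * Real.exp (-(1 / 100000 * x)) ≤ c1 / 2 := by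
      filter_upwards [h.eventually_ge_atTop ((27 * C4 + C5) / (c1 / 2)), Filter.eventually_ge_atTop 1] with x hx hx1
      have e : x ^ (3 : ℝ) = x ^ 3 := by
        rw [← Real.rpow_natCast]; norm_num
      rw [e, div_le_div_iff₀ (by positivity) (by positivity)] at hx
      rw [Real.exp_neg, ← div_eq_mul_inv, div_le_iff₀ (Real.exp_pos _)]
      have h3 : (x + 2) ^ 3 ≤ 27 * x ^ 3 := by
        have : x + 2 ≤ 3 * x := by linarith
        calc (x + 2) ^ 3 ≤ (3 * x) ^ 3 := pow_le_pow_left₀ (by linarith) this 3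
          _ = _ := by ring
      have h4 : 1 ≤ x ^ 3 := one_le_pow₀ hx1
      have h5 : C4 * (x + 2) ^ 3 ≤ C4 * (27 * x ^ 3) := mul_le_mul_of_nonneg_left h3 hC40.le
      have h6 : C5 * 1 ≤ C5 * x ^ 3 := mul_le_mul_of_nonneg_left h4 hC50.le
      linarith
    have := ((t1.eventually_ge_atTop τ0).and ((t1.eventually_ge_atTop (4 / c1)).and
      ((t2.eventually_ge_atTop 1).and (t2.eventually ev)))).exists
    exact this
  set τ := Real.log T with hτ
  set L := Real.log τ with hL
  have hτ3 : 3 ≤ τ := hτ03.trans hTτ0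
  have hT2 : 2 ≤ T := by
    by_contra h
    have h2 : (T : ℝ) ≤ 1 := by
      have : T ≤ 1 := by omega
      exact_mod_cast this
    have h3 : τ ≤ 0 := Real.log_nonpos (by positivity) h2
    linarith
  set R : ℕ := ⌈τ ^ 2⌉₊ with hR
  have hRle : (R : ℝ) ≤ τ ^ 2 + 1 := (Nat.ceil_lt_add_one (by positivity)).le
  have hRge : τ ^ 2 ≤ R := Nat.le_ceil _
  set Λ : ℕ := ⌈L⌉₊ + 1 with hΛ
  have hΛ1 : 1 ≤ Λ := by omega
  have hΛ2 : L ≤ Λ := by
    have := Nat.le_ceil L
    rw [hΛ]; push_cast; linarith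
  have hΛ3 : (Λ : ℝ) ≤ L + 2 := by
    have := Nat.ceil_lt_add_one (show 0 ≤ L by linarith)
    rw [hΛ]; push_cast; linarith
  set c : ℕ → ℝ := fun i => 347 / 100 * L + 11597 / 10000 * (i * Real.log 2) with hc
  have hcmono : Monotone c := by
    intro i j hij
    simp only [hc]
    have : (i : ℝ) ≤ j := by exact_mod_cast hij
    gcongr
  have hexpL : Real.exp (-L) = 1 / τ := by
    rw [Real.exp_neg, hL, Real.exp_log (by linarith), one_div]
  -- bound for B
  have hBbound : ∀ M : ℕ, T ≤ M → LM (Bset T c) M ≤ C5 * (Real.log M * Real.exp (-((1 + 1 / 100000) * L))) := by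
    intro M hM
    have hM2 : 2 ≤ M := hT2.trans hM
    have hlogM : 0 < Real.log M := Real.log_pos (by exact_mod_cast (by omega : 1 < M))
    have h1 : LM (Bset T c) M ≤ ∑ i ∈ range (M + 1), (267 / 200 : ℝ) ^ (-(c i)) *
        ∑ n ∈ Icc 1 M, (267 / 200 : ℝ) ^ Om T (T ^ (2 ^ i)) n / n := by
      refine le_trans (le_of_eq ?_) (atyp_sum T hT2 (267 / 200) (by norm_num) c hcmono M (Icc 1 M) (Finset.Subset.refl _))
      rw [LM]
      apply Finset.sum_congr _ (fun _ _ => rfl)
      ext n
      simp only [Finset.mem_filter]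
      rfl
    refine h1.trans ?_
    have hterm : ∀ i ∈ range (M + 1), (267 / 200 : ℝ) ^ (-(c i)) *
        ∑ n ∈ Icc 1 M, (267 / 200 : ℝ) ^ Om T (T ^ (2 ^ i)) n / n ≤
        (Real.exp (11 / 4 + 2 * C) * (Real.log M * Real.exp (-((1 + 1 / 100000) * L)))) *
          (((i : ℝ) + 1) ^ 2 * Real.exp (-(1 / 100000 * i))) := by
      intro i _
      set y := T ^ (2 ^ i) with hy
      have hTy : T ≤ y := by
        rw [hy]
        exact Nat.le_self_pow (by positivity) T
      have hB := Bsum T y M hT2 hTy hM (267 / 200) (by norm_num) (by norm_num)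
      have hST := hC T hT2
      rw [abs_le] at hST
      have hSM := hC M hM2
      rw [abs_le] at hSM
      have hSy : S (min y M) ≤ i * Real.log 2 + L + C := by
        have h1 : S (min y M) ≤ S y := S_mono (min_le_left _ _)
        have h2 := hC y (by omega)
        rw [abs_le] at h2
        have h3 : Real.log (Real.log (y : ℝ)) = i * Real.log 2 + L := by
          rw [hy]; push_cast
          rw [Real.log_pow, Real.log_mul (by positivity) (by linarith)]
          push_cast
          rw [Real.log_pow]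
        linarith [h2.2]
      have hb : Real.exp (11 / 4 + S T + 267 / 200 * (S (min y M) - S T) + (S M - S (min y M))) ≤
          Real.exp (11 / 4 + 2 * C + 67 / 200 * (i * Real.log 2) + Real.log (Real.log M)) := by
        apply Real.exp_le_exp.2
        linarith [hST.1, hSM.2]
      have hρ : (267 / 200 : ℝ) ^ (-(c i)) = Real.exp (-(c i) * Real.log (267 / 200)) := by
        rw [Real.rpow_def_of_pos (by norm_num)]; congr 1; ring
      have hi0 : (0 : ℝ) ≤ i := by positivity
      have hci : 0 ≤ c i := by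
        simp only [hc]; positivity
      calc (267 / 200 : ℝ) ^ (-(c i)) * ∑ n ∈ Icc 1 M, (267 / 200 : ℝ) ^ Om T y n / n
          ≤ Real.exp (-(c i) * Real.log (267 / 200)) *
            Real.exp (11 / 4 + 2 * C + 67 / 200 * (i * Real.log 2) + Real.log (Real.log M)) := by
            rw [hρ]
            exact mul_le_mul_of_nonneg_left (hB.trans hb) (Real.exp_pos _).le
        _ ≤ (Real.exp (11 / 4 + 2 * C) * (Real.log M * Real.exp (-((1 + 1 / 100000) * L)))) *
          (1 * Real.exp (-(1 / 100000 * i))) := by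
            rw [one_mul]
            conv_rhs => rw [← Real.exp_log hlogM]
            rw [← Real.exp_add, ← Real.exp_add, ← Real.exp_add, ← Real.exp_add]
            apply Real.exp_le_exp.2
            have h5 := mul_le_mul_of_nonneg_left log_c hci
            have h6 : c i = 347 / 100 * L + 11597 / 10000 * (i * Real.log 2) := rfl
            have h7 : (i : ℝ) * 0.6931471803 ≤ i * Real.log 2 := mul_le_mul_of_nonneg_left hl2a.le hi0
            rw [h6] at h5 ⊢
            nlinarith
        _ ≤ _ := by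
            apply mul_le_mul_of_nonneg_left _ (by positivity)
            apply mul_le_mul_of_nonneg_right _ (by positivity)
            nlinarith
    refine (Finset.sum_le_sum hterm).trans ?_
    rw [← Finset.mul_sum]
    calc _ ≤ (Real.exp (11 / 4 + 2 * C) * (Real.log M * Real.exp (-((1 + 1 / 100000) * L)))) * G :=
          mul_le_mul_of_nonneg_left (hG (M + 1)) (by positivity)
      _ = _ := by rw [hC5]; ring
  -- bound for D minus B
  have hDBbound : ∀ M : ℕ, T ≤ M → LM (Dset T R κ \ Bset T c) M ≤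
      C4 * (Λ : ℝ) ^ 3 * (Real.log M * Real.exp (-((1 + 1 / 100000) * L))) := by
    intro M hM
    have hM2 : 2 ≤ M := hT2.trans hM
    have hlogM : 0 < Real.log M := Real.log_pos (by exact_mod_cast (by omega : 1 < M))
    refine (DB_sum T R hT2 κ c M).trans ?_
    have hterm : ∀ i ∈ (range M).filter (fun i => T ^ (2 ^ i) ≤ M),
      (2 / 5 : ℝ) ^ (-(κ i)) * (3 / 4 : ℝ) ^ (-(c i)) *
      ((∑ k ∈ (Icc 1 M).filter (fun k => orough T k), (2 / 5 * (3 / 4) : ℝ) ^ Om T (T ^ (2 ^ i)) k / k) *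
      (∑ x ∈ Qs T (T ^ (2 ^ i)) R, (2 / 5 : ℝ) ^ Om T (T ^ (2 ^ i)) x.1 * (3 / 4) ^ Om T (T ^ (2 ^ i)) x.2 *
        (2 / 5 * (3 / 4)) ^ Om T (T ^ (2 ^ i)) (x.1 + x.2) / ((x.2 : ℝ) * ((x.1 : ℝ) + x.2)))) ≤
      (Real.exp (K * Real.log (5 / 2)) * C3 * (Λ : ℝ) ^ 3 * (Real.log M * Real.exp (-((1 + 1 / 100000) * L)))) *
        (((i : ℝ) + 1) ^ 2 * Real.exp (-(1 / 100000 * i))) := by
      intro i hi
      rw [Finset.mem_filter] at hi
      have h1 := hE T R hTτ0 hRle Λ hΛ2 hΛ1 hΛ3 i M hi.2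
      have e1 : (2 / 5 : ℝ) ^ (-(κ i)) = Real.exp (κ i * Real.log (5 / 2)) :=
        rpow_neg_eq (2 / 5) (5 / 2) (κ i) (by norm_num) (by norm_num)
      have e2 : (3 / 4 : ℝ) ^ (-(c i)) = Real.exp (c i * Real.log (4 / 3)) :=
        rpow_neg_eq (3 / 4) (4 / 3) (c i) (by norm_num) (by norm_num)
      have hi0 : (0 : ℝ) ≤ i := by positivity
      have hu0 : (0 : ℝ) ≤ i * Real.log 2 := by positivity
      have hL0 : 0 ≤ L := by linarith
      rw [e1, e2]
      calc _ ≤ Real.exp (κ i * Real.log (5 / 2)) * Real.exp (c i * Real.log (4 / 3)) *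
          (C3 * Real.log M * (Λ : ℝ) ^ 3 * ((i : ℝ) + 1) ^ 2 *
            Real.exp (-(2 * L) - 5 / 4 * (i * Real.log 2))) :=
            mul_le_mul_of_nonneg_left h1 (by positivity)
        _ = C3 * Real.log M * (Λ : ℝ) ^ 3 * ((i : ℝ) + 1) ^ 2 * Real.exp (κ i * Real.log (5 / 2) + c i * Real.log (4 / 3) +
            (-(2 * L) - 5 / 4 * (i * Real.log 2))) := by
            rw [Real.exp_add (κ i * Real.log (5 / 2) + c i * Real.log (4 / 3)),
              Real.exp_add (κ i * Real.log (5 / 2)) (c i * Real.log (4 / 3))]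
            ring
        _ ≤ C3 * Real.log M * (Λ : ℝ) ^ 3 * ((i : ℝ) + 1) ^ 2 * Real.exp (K * Real.log (5 / 2) +
            -((1 + 1 / 100000) * L) + -(1 / 100000 * i)) := by
            apply mul_le_mul_of_nonneg_left _ (by positivity)
            apply Real.exp_le_exp.2
            have h5 : (i * Real.log 2) * Real.log (5 / 2) ≤ (i * Real.log 2) * (9163 / 10000) :=
              mul_le_mul_of_nonneg_left log_a hu0
            have h6 : (i * Real.log 2) * Real.log (4 / 3) ≤ (i * Real.log 2) * (28769 / 100000) :=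
              mul_le_mul_of_nonneg_left log_b hu0
            have h7 : L * Real.log (4 / 3) ≤ L * (28769 / 100000) := mul_le_mul_of_nonneg_left log_b hL0
            have h8 : (i : ℝ) * 0.6931471803 ≤ i * Real.log 2 := mul_le_mul_of_nonneg_left hl2a.le hi0
            have h9 : κ i = K + (1 + 1 / 25000) * (i * Real.log 2) := rfl
            have h10 : c i = 347 / 100 * L + 11597 / 10000 * (i * Real.log 2) := rfl
            rw [h9, h10]
            nlinarith
        _ = _ := by
            rw [Real.exp_add (K * Real.log (5 / 2) + -((1 + 1 / 100000) * L)),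
              Real.exp_add (K * Real.log (5 / 2))]
            ring
    refine (Finset.sum_le_sum hterm).trans ?_
    rw [← Finset.mul_sum]
    have hsub : ∑ i ∈ (range M).filter (fun i => T ^ (2 ^ i) ≤ M), ((i : ℝ) + 1) ^ 2 * Real.exp (-(1 / 100000 * i)) ≤ G := by
      refine le_trans ?_ (hG M)
      apply Finset.sum_le_sum_of_subset_of_nonneg (Finset.filter_subset _ _)
      intro i _ _; positivity
    calc _ ≤ (Real.exp (K * Real.log (5 / 2)) * C3 * (Λ : ℝ) ^ 3 * (Real.log M * Real.exp (-((1 + 1 / 100000) * L)))) * G :=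
          mul_le_mul_of_nonneg_left hsub (by positivity)
      _ = _ := by rw [hC4]; ring
  -- final
  have hX0 : 0 < Real.exp (-L) := Real.exp_pos _
  refine ⟨T, R, κ, c1 / 2 * Real.exp (-L), ?_, by positivity, ?_, ?_⟩
  · have : (0 : ℝ) < R := lt_of_lt_of_le (by positivity) hRge
    exact_mod_cast this
  · have hR0 : (0 : ℝ) < R := lt_of_lt_of_le (by positivity) hRge
    rw [hexpL]
    have h1 : 1 / (R : ℝ) ≤ 1 / τ ^ 2 := one_div_le_one_div_of_le (by positivity) hRge
    refine h1.trans ?_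
    rw [div_le_iff₀ hc10] at hTc1
    have hτ0' : 0 < τ := by linarith
    rw [div_le_iff₀ (by positivity)]
    have : c1 / 2 * (1 / τ) / 2 * τ ^ 2 = c1 * τ / 4 := by field_simp; ring
    rw [this]; linarith
  · refine ⟨(1 / 2 + c1 / 2 * Real.exp (-L)) * Real.log (2 * T) + 1 / 2 + c1 * Real.exp (-L) * Real.log 4, ?_⟩
    intro M hM
    have hM' : (1 : ℝ) ≤ M := by exact_mod_cast hM
    have hT2' : (2 : ℝ) ≤ T := by exact_mod_cast hT2
    have hlog4 : 0 < Real.log 4 := Real.log_pos (by norm_num)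
    rcases Nat.lt_or_ge M (2 * T) with hlt | hge
    · have h1 := LM_nonneg (Aset T R κ) M
      have h2 : Real.log M ≤ Real.log (2 * T) := by
        apply Real.log_le_log (by linarith)
        exact_mod_cast hlt.le
      have h3 := mul_le_mul_of_nonneg_left h2 (show 0 ≤ 1 / 2 + c1 / 2 * Real.exp (-L) by positivity)
      have h4 : 0 ≤ c1 * Real.exp (-L) * Real.log 4 := by positivity
      linarith
    · have hTM : T ≤ M := by omega
      have hTM2 : T ≤ M / 2 := by omega
      have hA := LM_A T R κ M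
      have hD := LM_split (Dset T R κ) (Bset T c) M
      have hB := hBbound M hTM
      have hDB := hDBbound M hTM
      have hO := LM_odd M hM
      have hW1 := LM_W T κ M
      have hW2 := hK T (M / 2) hτ3 hTM2
      rw [← hτ, ← hL] at hW2
      have hW3 : 1 / 2 * (1 / 2 * (Real.log ((M / 2 : ℕ) : ℝ) * Real.exp (-L - C - 9 / 4))) ≤ LM (Wset T κ) M := by
        refine le_trans ?_ hW1
        apply mul_le_mul_of_nonneg_left _ (by norm_num)
        exact hW2
      have hexp : Real.exp (-L - C - 9 / 4) = Real.exp (-L) * Real.exp (-C - 9 / 4) := by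
        rw [← Real.exp_add]; congr 1; ring
      have hlogM2 : Real.log M - Real.log 4 ≤ Real.log ((M / 2 : ℕ) : ℝ) := by
        rw [← Real.log_div (by positivity) (by norm_num)]
        apply Real.log_le_log (by positivity)
        have : M ≤ 4 * (M / 2) := by omega
        rw [div_le_iff₀ (by norm_num)]
        have h : (M : ℝ) ≤ 4 * ((M / 2 : ℕ) : ℝ) := by exact_mod_cast this
        linarith
      have hW4 : c1 * Real.exp (-L) * (Real.log M - Real.log 4) ≤ LM (Wset T κ) M := by
        refine le_trans ?_ hW3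
        rw [hexp, hc1]
        have h5 : 0 ≤ 1 / 4 * Real.exp (-C - 9 / 4) * Real.exp (-L) := by positivity
        have h6 := mul_le_mul_of_nonneg_left hlogM2 h5
        linarith
      have hlogM : 0 ≤ Real.log M := Real.log_nonneg hM'
      have hΛ3' : (Λ : ℝ) ^ 3 ≤ (L + 2) ^ 3 := pow_le_pow_left₀ (by positivity) hΛ3 3
      have hsplit : Real.exp (-((1 + 1 / 100000) * L)) = Real.exp (-(1 / 100000 * L)) * Real.exp (-L) := by
        rw [← Real.exp_add]; congr 1; ring
      have hDtot : LM (Dset T R κ) M ≤ c1 / 2 * Real.exp (-L) * Real.log M := by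
        calc LM (Dset T R κ) M ≤ C5 * (Real.log M * Real.exp (-((1 + 1 / 100000) * L))) +
              C4 * (Λ : ℝ) ^ 3 * (Real.log M * Real.exp (-((1 + 1 / 100000) * L))) := by linarith
          _ = (C4 * (Λ : ℝ) ^ 3 + C5) * Real.exp (-(1 / 100000 * L)) * (Real.exp (-L) * Real.log M) := by
              rw [hsplit]; ring
          _ ≤ (C4 * (L + 2) ^ 3 + C5) * Real.exp (-(1 / 100000 * L)) * (Real.exp (-L) * Real.log M) := by
              gcongr
          _ ≤ c1 / 2 * (Real.exp (-L) * Real.log M) := by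
              apply mul_le_mul_of_nonneg_right hTbig (by positivity)
          _ = _ := by ring
      have h7 : 0 ≤ (1 / 2 + c1 / 2 * Real.exp (-L)) * Real.log (2 * T) := by
        apply mul_nonneg (by positivity)
        apply Real.log_nonneg; linarith
      linarith

theorem final : ¬ (∀ ε : ℝ, 0 < ε → ∃ N : ℕ, ∀ n : ℕ, N ≤ n → ∀ A : Finset ℕ,
      A ⊆ Finset.Icc 1 n →
      (∀ a ∈ A, ∀ b ∈ A, a ≠ b → ¬ (a + b ∣ a * b)) →
      (A.card : ℝ) ≤ (1 / 2 + ε) * (n : ℝ)) := by
  obtain ⟨T, R, κ, η, hR, hη, hRη, hLM⟩ := main_bound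
  exact contradiction_lemma (Aset T R κ) R η hR hη hRη (Aset_adm T R κ) hLM

end Pool.Agent.Helper559
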