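import Mathlib
import Pool.Agent.Helper559.Sums

set_option autoImplicit false
set_option maxHeartbeats 4000000

namespace Pool.Agent.Helper559

open Finset

lemma unit2 (a b b' : ℕ) (hb : 0 < b) (hb' : 0 < b') (hbb : b ≠ b') (h : a * (b + b') = b * b') :
    ∃ k m n : ℕ, 0 < k ∧ 0 < m ∧ 0 < n ∧ Nat.Coprime m n ∧ m ≠ n ∧
      a = k * m * n ∧ b = k * m * (m + n) ∧ b' = k * n * (m + n) := by
  obtain ⟨k, m, n, hk, hm, hn, hco, hmn, h1, h2⟩ := edge b b' hb hb' hbb ⟨a, by rw [← h]; ring⟩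
  refine ⟨k, m, n, hk, hm, hn, hco, hmn, ?_, h1, h2⟩
  rw [h1, h2] at h
  have h3 : (k * (m + n) ^ 2) * a = (k * (m + n) ^ 2) * (k * m * n) := by
    calc (k * (m + n) ^ 2) * a = a * (k * m * (m + n) + k * n * (m + n)) := by ring
      _ = k * m * (m + n) * (k * n * (m + n)) := h
      _ = _ := by ring
  exact Nat.eq_of_mul_eq_mul_left (by positivity) h3

/-- The added rough typical numbers. -/
def Wtwo (T : ℕ) (κ : ℕ → ℝ) : Set ℕ :=
  {u | rough T u ∧ ∀ i : ℕ, (Om T (T ^ (2 ^ i)) u : ℝ) ≤ κ i}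

/-- Numbers taking part in a representation. -/
def Dtwo (T : ℕ) (κ : ℕ → ℝ) : Set ℕ :=
  {b | ∃ a ∈ Wtwo T κ, ∃ b' : ℕ, 0 < b ∧ 0 < b' ∧ b ≠ b' ∧ a * (b + b') = b * b' ∧ b ≤ 3 * a ∧ b' ≤ 3 * a}

open scoped Classical in
/-- The set of pairs at scale `y`. -/
noncomputable def Qtwo (T y : ℕ) : Finset (ℕ × ℕ) :=
  ((Icc 1 (y ^ 2)) ×ˢ (Icc 1 (y ^ 2))).filter (fun x => Nat.Coprime x.1 x.2 ∧ y < x.1 + x.2 ∧ x.1 + x.2 ≤ y ^ 2 ∧
    x.1 ≤ 2 * x.2 ∧ x.2 ≤ 2 * x.1 ∧ orough T x.1 ∧ orough T x.2)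

open scoped Classical in
lemma cover2 (T : ℕ) (hT : 2 ≤ T) (κ c : ℕ → ℝ) (M b : ℕ) (hbM : b ≤ M) (hb : b ∈ Dtwo T κ)
    (hbB : b ∉ Bset T c) :
    ∃ i k m n : ℕ, i < M ∧ T ^ (2 ^ i) ≤ M ∧ b = k * (m * (m + n)) ∧ k ∈ (Icc 1 M).filter (fun k => orough T k) ∧
      (m, n) ∈ Qtwo T (T ^ (2 ^ i)) ∧
      ((Om T (T ^ (2 ^ i)) k + Om T (T ^ (2 ^ i)) m + Om T (T ^ (2 ^ i)) n : ℕ) : ℝ) ≤ κ i ∧
      ((Om T (T ^ (2 ^ i)) k + Om T (T ^ (2 ^ i)) m + Om T (T ^ (2 ^ i)) (m + n) : ℕ) : ℝ) ≤ c i := by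
  obtain ⟨a, ⟨hru, hκ⟩, b', hb0, hb0', hbb, heq, hb3, hb3'⟩ := hb
  obtain ⟨k, m, n, hk0, hm0, hn0, hco, hmn, ha, hbk, hbk'⟩ := unit2 a b b' hb0 hb0' hbb heq
  have hdk : k ∣ a := ⟨m * n, by rw [ha]; ring⟩
  have hdm : m ∣ a := ⟨k * n, by rw [ha]; ring⟩
  have hdn : n ∣ a := ⟨k * m, by rw [ha]; ring⟩
  have hok : orough T k := fun p hp h => Or.inr (hru p hp (h.trans hdk))
  have hom : orough T m := fun p hp h => Or.inr (hru p hp (h.trans hdm))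
  have hon : orough T n := fun p hp h => Or.inr (hru p hp (h.trans hdn))
  -- s > T
  have big : ∀ x : ℕ, 2 ≤ x → x ∣ a → T < x := by
    intro x hx hxa
    have h1 := Nat.minFac_prime (by omega : x ≠ 1)
    have h2 := hru _ h1 ((Nat.minFac_dvd x).trans hxa)
    have h3 := Nat.minFac_le (by omega : 0 < x)
    omega
  have hsT : T < m + n := by
    rcases Nat.lt_or_ge m 2 with h | h
    · have : T < n := big n (by omega) hdn
      omega
    · have : T < m := big m h hdm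
      omega
  -- the scale
  have hex : ∃ j : ℕ, m + n ≤ T ^ (2 ^ j) := ⟨m + n, (le_pow_two_pow T (m + n) hT).le⟩
  classical
  set j := Nat.find hex with hj
  have hj1 : m + n ≤ T ^ (2 ^ j) := Nat.find_spec hex
  have hj0 : j ≠ 0 := by
    intro h
    rw [h] at hj1
    simp at hj1
    omega
  obtain ⟨i, hi⟩ : ∃ i, j = i + 1 := ⟨j - 1, by omega⟩
  have hi1 : T ^ (2 ^ i) < m + n := by
    have := Nat.find_min hex (m := i) (by omega)
    exact not_le.1 this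
  have hi2 : m + n ≤ (T ^ (2 ^ i)) ^ 2 := by
    rw [hi] at hj1
    rw [← pow_mul, ← pow_succ]
    exact hj1
  have hsM : m + n ≤ M := by
    have : m + n ≤ b := by
      rw [hbk]
      exact Nat.le_mul_of_pos_left _ (by positivity)
    omega
  have hiM : i < M := by
    have h1 : i < 2 ^ i := Nat.lt_two_pow_self
    have h2 : 2 ^ i < T ^ (2 ^ i) := by
      calc 2 ^ i < 2 ^ (2 ^ i) := Nat.lt_two_pow_self
        _ ≤ T ^ (2 ^ i) := Nat.pow_le_pow_left hT _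
    omega
  refine ⟨i, k, m, n, hiM, by omega, by rw [hbk]; ring, ?_, ?_, ?_, ?_⟩
  · rw [Finset.mem_filter, Finset.mem_Icc]
    refine ⟨⟨hk0, ?_⟩, hok⟩
    have : k ≤ b := Nat.le_of_dvd hb0 ⟨m * (m + n), by rw [hbk]; ring⟩
    omega
  · rw [Qtwo, Finset.mem_filter, Finset.mem_product, Finset.mem_Icc, Finset.mem_Icc]
    refine ⟨⟨⟨hm0, by omega⟩, ⟨hn0, by omega⟩⟩, hco, hi1, hi2, ?_, ?_, hom, hon⟩
    · -- b ≤ 3a : k m (m+n) ≤ 3 k m n => m + n ≤ 3 n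
      have h1 : (k * m) * (m + n) ≤ (k * m) * (3 * n) := by
        calc (k * m) * (m + n) = b := by rw [hbk]
          _ ≤ 3 * a := hb3
          _ = (k * m) * (3 * n) := by rw [ha]; ring
      have := Nat.le_of_mul_le_mul_left h1 (by positivity)
      simp only
      omega
    · have h1 : (k * n) * (m + n) ≤ (k * n) * (3 * m) := by
        calc (k * n) * (m + n) = b' := by rw [hbk']
          _ ≤ 3 * a := hb3'
          _ = (k * n) * (3 * m) := by rw [ha]; ring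
      have := Nat.le_of_mul_le_mul_left h1 (by positivity)
      simp only
      omega
  · have h2 : Om T (T ^ (2 ^ i)) a = Om T (T ^ (2 ^ i)) k + Om T (T ^ (2 ^ i)) m + Om T (T ^ (2 ^ i)) n := by
      rw [ha, Om_mul _ _ _ _ (by positivity) (by positivity), Om_mul _ _ _ _ (by positivity) (by positivity)]
    rw [← h2]
    exact hκ i
  · have h2 : Om T (T ^ (2 ^ i)) b = Om T (T ^ (2 ^ i)) k + Om T (T ^ (2 ^ i)) m + Om T (T ^ (2 ^ i)) (m + n) := by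
      rw [hbk, Om_mul _ _ _ _ (by positivity) (by positivity), Om_mul _ _ _ _ (by positivity) (by positivity)]
    rw [← h2]
    by_contra hcon
    exact hbB ⟨i, not_le.1 hcon⟩

open scoped Classical in
lemma DB_sum2 (T : ℕ) (hT : 2 ≤ T) (κ c : ℕ → ℝ) (M : ℕ) :
    LM (Dtwo T κ \ Bset T c) M ≤ ∑ i ∈ (range M).filter (fun i => T ^ (2 ^ i) ≤ M),
      (2 / 5 : ℝ) ^ (-(κ i)) * (3 / 4 : ℝ) ^ (-(c i)) *
      ((∑ k ∈ (Icc 1 M).filter (fun k => orough T k), (2 / 5 * (3 / 4) : ℝ) ^ Om T (T ^ (2 ^ i)) k / k) *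
      (∑ x ∈ Qtwo T (T ^ (2 ^ i)), (2 / 5 * (3 / 4) : ℝ) ^ Om T (T ^ (2 ^ i)) x.1 * (2 / 5) ^ Om T (T ^ (2 ^ i)) x.2 *
        (3 / 4) ^ Om T (T ^ (2 ^ i)) (x.1 + x.2) / ((x.1 : ℝ) * (x.2 : ℝ)))) := by
  set J := (_ : ℕ) × (ℕ × (ℕ × ℕ)) with hJ
  set t : Finset J := ((range M).filter (fun i => T ^ (2 ^ i) ≤ M)).sigma
    (fun i => ((Icc 1 M).filter (fun k => orough T k)) ×ˢ (Qtwo T (T ^ (2 ^ i)))) with ht
  set g : J → ℝ := fun j => (2 / 5 : ℝ) ^ (-(κ j.1)) * (3 / 4 : ℝ) ^ (-(c j.1)) *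
      (((2 / 5 * (3 / 4) : ℝ) ^ Om T (T ^ (2 ^ j.1)) j.2.1 / j.2.1) *
       ((2 / 5 * (3 / 4) : ℝ) ^ Om T (T ^ (2 ^ j.1)) j.2.2.1 * (2 / 5) ^ Om T (T ^ (2 ^ j.1)) j.2.2.2 *
        (3 / 4) ^ Om T (T ^ (2 ^ j.1)) (j.2.2.1 + j.2.2.2) /
          ((j.2.2.1 : ℝ) * (j.2.2.2 : ℝ)))) with hg
  have hgn : ∀ j ∈ t, 0 ≤ g j := by
    intro j _
    simp only [hg]
    positivity
  have hmain : LM (Dtwo T κ \ Bset T c) M ≤ ∑ j ∈ t, g j := by
    apply LM_cover _ M t g (fun j => j.2.1 * (j.2.2.1 * (j.2.2.1 + j.2.2.2))) hgn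
    intro b hb _ hbM
    obtain ⟨i, k, m, n, hiM, hyM, hbk, hk, hmn, hκ, hc⟩ := cover2 T hT κ c M b hbM hb.1 hb.2
    refine ⟨⟨i, (k, (m, n))⟩, ?_, hbk.symm, ?_⟩
    · rw [ht, Finset.mem_sigma, Finset.mem_filter, Finset.mem_product, Finset.mem_range]
      exact ⟨⟨hiM, hyM⟩, hk, hmn⟩
    · simp only [hg]
      have hk0 : (0 : ℝ) < k := by
        rw [Finset.mem_filter, Finset.mem_Icc] at hk
        exact_mod_cast hk.1.1
      have hn0 : (0 : ℝ) < n := by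
        rw [Qtwo, Finset.mem_filter, Finset.mem_product, Finset.mem_Icc, Finset.mem_Icc] at hmn
        exact_mod_cast hmn.1.2.1
      have hm0 : (0 : ℝ) < m := by
        rw [Qtwo, Finset.mem_filter, Finset.mem_product, Finset.mem_Icc, Finset.mem_Icc] at hmn
        exact_mod_cast hmn.1.1.1
      have e1 := one_le_rpow_mul_pow (2 / 5) (by norm_num) (by norm_num) _ (κ i) hκ
      have e2 := one_le_rpow_mul_pow (3 / 4) (by norm_num) (by norm_num) _ (c i) hc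
      set ok := Om T (T ^ (2 ^ i)) k
      set om := Om T (T ^ (2 ^ i)) m
      set on := Om T (T ^ (2 ^ i)) n
      set os := Om T (T ^ (2 ^ i)) (m + n)
      have e3 := one_le_mul_of_one_le_of_one_le e1 e2
      rw [hbk]
      push_cast
      have e4 : (2 / 5 : ℝ) ^ (-(κ i)) * (3 / 4 : ℝ) ^ (-(c i)) * (((2 / 5 * (3 / 4) : ℝ) ^ ok / k) *
       ((2 / 5 * (3 / 4) : ℝ) ^ om * (2 / 5) ^ on * (3 / 4) ^ os / ((m : ℝ) * (n : ℝ)))) =
        ((2 / 5 : ℝ) ^ (-(κ i)) * (2 / 5) ^ (ok + om + on) * ((3 / 4 : ℝ) ^ (-(c i)) * (3 / 4) ^ (ok + om + os))) *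
          (1 / ((k : ℝ) * ((m : ℝ) * (n : ℝ)))) := by
        rw [pow_add, pow_add, pow_add, pow_add, mul_pow, mul_pow]
        field_simp
      rw [e4]
      have h0 : 0 ≤ 1 / ((k : ℝ) * ((m : ℝ) * (n : ℝ))) := by positivity
      have h1 : 1 / ((k : ℝ) * ((m : ℝ) * ((m : ℝ) + n))) ≤ 1 / ((k : ℝ) * ((m : ℝ) * (n : ℝ))) := by
        apply one_div_le_one_div_of_le (by positivity)
        apply mul_le_mul_of_nonneg_left _ hk0.le
        apply mul_le_mul_of_nonneg_left _ hm0.le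
        linarith
      exact h1.trans (le_mul_of_one_le_left h0 e3)
  refine hmain.trans (le_of_eq ?_)
  rw [ht, Finset.sum_sigma]
  apply Finset.sum_congr rfl
  intro i _
  simp only [hg]
  rw [Finset.sum_mul_sum, Finset.mul_sum, Finset.sum_product]
  apply Finset.sum_congr rfl
  intro k _
  rw [Finset.mul_sum]

end Pool.Agent.Helper559
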