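import Mathlib
import Pool.Agent.Helper559.Main

set_option autoImplicit false
set_option maxHeartbeats 4000000

namespace Pool.Agent.Helper559

open Finset

open scoped Classical in
/-- The admissible set at level `N`. -/
noncomputable def AN (W D : Set ℕ) (N : ℕ) : Finset ℕ :=
  (Ioc (N / 2) N).filter (fun b => b ∉ D) ∪ (Icc 1 (N / 2)).filter (fun a => a ∈ W ∧ N < 3 * a)

lemma mem_AN_bounds (W D : Set ℕ) (N b : ℕ) (h : b ∈ AN W D N) : 1 ≤ b ∧ b ≤ N ∧ N < 3 * b := by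
  classical
  rw [AN, Finset.mem_union, Finset.mem_filter, Finset.mem_filter, Finset.mem_Ioc, Finset.mem_Icc] at h
  rcases h with h | h <;> omega

lemma mem_AN_low (W D : Set ℕ) (N b : ℕ) (h : b ∈ AN W D N) (h2 : 2 * b ≤ N) : b ∈ W := by
  classical
  rw [AN, Finset.mem_union, Finset.mem_filter, Finset.mem_filter, Finset.mem_Ioc, Finset.mem_Icc] at h
  rcases h with h | h
  · omega
  · exact h.2.1

lemma mem_AN_high (W D : Set ℕ) (N b : ℕ) (h : b ∈ AN W D N) (h2 : N < 2 * b) : b ∉ D := by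
  classical
  rw [AN, Finset.mem_union, Finset.mem_filter, Finset.mem_filter, Finset.mem_Ioc, Finset.mem_Icc] at h
  rcases h with h | h
  · exact h.2
  · omega

lemma AN_good (W D : Set ℕ)
    (hgood : ∀ a ∈ W, ∀ b b' : ℕ, 0 < b → 0 < b' → b ≠ b' → a * (b + b') = b * b' → b ≤ 3 * a → b' ≤ 3 * a → b ∈ D)
    (N : ℕ) : ∀ a ∈ AN W D N, ∀ S : Finset ℕ, S ⊆ AN W D N → a ∉ S →
      ∑ b ∈ S, (1 : ℚ) / (b : ℚ) ≠ (1 : ℚ) / (a : ℚ) := by
  intro a ha S hS haS heq
  obtain ⟨ha1, haN, ha3⟩ := mem_AN_bounds W D N a ha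
  have hN0 : (0 : ℚ) < N := by
    have : 0 < N := by omega
    exact_mod_cast this
  have ha0 : (0 : ℚ) < a := by exact_mod_cast ha1
  have hlow : ∀ b ∈ S, (1 : ℚ) / N ≤ 1 / b := by
    intro b hb
    obtain ⟨h1, h2, _⟩ := mem_AN_bounds W D N b (hS hb)
    apply one_div_le_one_div_of_le
    · exact_mod_cast h1
    · exact_mod_cast h2
  have haup : (1 : ℚ) / a < 3 / N := by
    rw [div_lt_div_iff₀ ha0 hN0]
    have : (N : ℚ) < 3 * a := by exact_mod_cast ha3
    linarith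
  have hcard : (S.card : ℚ) * (1 / N) ≤ ∑ b ∈ S, (1 : ℚ) / (b : ℚ) := by
    have := Finset.card_nsmul_le_sum S (fun b : ℕ => (1 : ℚ) / (b : ℚ)) (1 / N) hlow
    rwa [nsmul_eq_mul] at this
  have hc3 : S.card < 3 := by
    by_contra h
    push Not at h
    have h3 : (3 : ℚ) ≤ S.card := by exact_mod_cast h
    have h4 : (3 : ℚ) * (1 / N) ≤ S.card * (1 / N) := mul_le_mul_of_nonneg_right h3 (by positivity)
    have h5 : (3 : ℚ) / N = 3 * (1 / N) := by ring
    linarith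
  interval_cases hc : S.card
  · rw [Finset.card_eq_zero] at hc
    rw [hc, Finset.sum_empty] at heq
    have : (0 : ℚ) < 1 / a := by positivity
    linarith
  · obtain ⟨b, hb⟩ := Finset.card_eq_one.1 hc
    rw [hb, Finset.sum_singleton] at heq
    apply haS
    rw [hb, Finset.mem_singleton]
    obtain ⟨h1, _, _⟩ := mem_AN_bounds W D N b (hS (by rw [hb]; simp))
    have hb0 : (0 : ℚ) < b := by exact_mod_cast h1
    rw [div_eq_div_iff hb0.ne' ha0.ne'] at heq
    have : (a : ℚ) = b := by linarith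
    exact_mod_cast this
  · obtain ⟨b, b', hbb, hSb⟩ := Finset.card_eq_two.1 hc
    have hbm := hS (show b ∈ S by rw [hSb]; simp)
    have hbm' := hS (show b' ∈ S by rw [hSb]; simp)
    obtain ⟨h1, h2, h3⟩ := mem_AN_bounds W D N b hbm
    obtain ⟨h1', h2', h3'⟩ := mem_AN_bounds W D N b' hbm'
    have hb0 : (0 : ℚ) < b := by exact_mod_cast h1
    have hb0' : (0 : ℚ) < b' := by exact_mod_cast h1'
    rw [hSb, Finset.sum_pair hbb] at heq
    have hle : (1 : ℚ) / N ≤ 1 / b := one_div_le_one_div_of_le hb0 (by exact_mod_cast h2)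
    have hle' : (1 : ℚ) / N ≤ 1 / b' := one_div_le_one_div_of_le hb0' (by exact_mod_cast h2')
    have key : ∀ x : ℕ, 1 ≤ x → 2 * x ≤ N → (2 : ℚ) / N ≤ 1 / x := by
      intro x hx1 hx2
      have hx0 : (0 : ℚ) < x := by exact_mod_cast hx1
      rw [div_le_div_iff₀ hN0 hx0]
      have : (2 : ℚ) * x ≤ N := by exact_mod_cast hx2
      linarith
    have h3N : (3 : ℚ) / N = 1 / N + 2 / N := by ring
    have h2N : (2 : ℚ) / N = 1 / N + 1 / N := by ring
    -- a is low
    have halow : 2 * a ≤ N := by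
      by_contra h
      push Not at h
      have : (1 : ℚ) / a < 2 / N := by
        rw [div_lt_div_iff₀ ha0 hN0]
        have : (N : ℚ) < 2 * a := by exact_mod_cast h
        linarith
      linarith
    have hbhigh : N < 2 * b := by
      by_contra h
      push Not at h
      have := key b h1 h
      linarith
    have haW := mem_AN_low W D N a ha halow
    have hbD := mem_AN_high W D N b hbm hbhigh
    apply hbD
    apply hgood a haW b b' h1 h1' hbb _ (by omega) (by omega)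
    have : (a : ℚ) * (b + b') = b * b' := by
      field_simp at heq
      linarith
    exact_mod_cast this

open scoped Classical in
lemma wsum (W : Set ℕ) (M : ℕ) :
    1 / 9 * LM W (M / 3) ≤ ∑ N ∈ Icc 1 M,
      (((Icc 1 (N / 2)).filter (fun a => a ∈ W ∧ N < 3 * a)).card : ℝ) / (N : ℝ) ^ 2 := by
  have h1 : ∀ N ∈ Icc 1 M, (((Icc 1 (N / 2)).filter (fun a => a ∈ W ∧ N < 3 * a)).card : ℝ) / (N : ℝ) ^ 2 =
      ∑ a ∈ (Icc 1 M).filter (fun a => a ∈ W ∧ 2 * a ≤ N ∧ N < 3 * a), 1 / (N : ℝ) ^ 2 := by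
    intro N hN
    rw [Finset.mem_Icc] at hN
    rw [Finset.sum_const, nsmul_eq_mul]
    have : (Icc 1 (N / 2)).filter (fun a => a ∈ W ∧ N < 3 * a) =
        (Icc 1 M).filter (fun a => a ∈ W ∧ 2 * a ≤ N ∧ N < 3 * a) := by
      ext a
      simp only [Finset.mem_filter, Finset.mem_Icc]
      constructor
      · rintro ⟨⟨h1, h2⟩, h3, h4⟩
        exact ⟨⟨h1, by omega⟩, h3, by omega, h4⟩
      · rintro ⟨⟨h1, h2⟩, h3, h4, h5⟩
        exact ⟨⟨h1, by omega⟩, h3, h5⟩
    rw [this]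
    ring
  rw [Finset.sum_congr rfl h1]
  have h2 : ∑ N ∈ Icc 1 M, ∑ a ∈ (Icc 1 M).filter (fun a => a ∈ W ∧ 2 * a ≤ N ∧ N < 3 * a), 1 / (N : ℝ) ^ 2 =
      ∑ a ∈ (Icc 1 M).filter (fun a => a ∈ W), ∑ N ∈ (Icc 1 M).filter (fun N => 2 * a ≤ N ∧ N < 3 * a),
        1 / (N : ℝ) ^ 2 := by
    apply Finset.sum_comm'
    intro N a
    simp only [Finset.mem_filter, Finset.mem_Icc]
    tauto
  rw [h2, LM, Finset.mul_sum]
  have h3 : ∀ a ∈ (Icc 1 (M / 3)).filter (fun a => a ∈ W), 1 / 9 * (1 / (a : ℝ)) ≤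
      ∑ N ∈ (Icc 1 M).filter (fun N => 2 * a ≤ N ∧ N < 3 * a), 1 / (N : ℝ) ^ 2 := by
    intro a ha
    rw [Finset.mem_filter, Finset.mem_Icc] at ha
    have ha1 : (1 : ℝ) ≤ a := by exact_mod_cast ha.1.1
    have hsub : Ico (2 * a) (3 * a) ⊆ (Icc 1 M).filter (fun N => 2 * a ≤ N ∧ N < 3 * a) := by
      intro N hN
      rw [Finset.mem_Ico] at hN
      rw [Finset.mem_filter, Finset.mem_Icc]
      omega
    calc 1 / 9 * (1 / (a : ℝ)) = ∑ N ∈ Ico (2 * a) (3 * a), 1 / (9 * (a : ℝ) ^ 2) := by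
          rw [Finset.sum_const, Nat.card_Ico, nsmul_eq_mul]
          have : 3 * a - 2 * a = a := by omega
          rw [this]
          field_simp
      _ ≤ ∑ N ∈ Ico (2 * a) (3 * a), 1 / (N : ℝ) ^ 2 := by
          apply Finset.sum_le_sum
          intro N hN
          rw [Finset.mem_Ico] at hN
          have hN0 : (0 : ℝ) < N := by
            have : 0 < N := by omega
            exact_mod_cast this
          apply one_div_le_one_div_of_le (by positivity)
          have : (N : ℝ) ≤ 3 * a := by exact_mod_cast hN.2.le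
          calc (N : ℝ) ^ 2 ≤ (3 * a) ^ 2 := pow_le_pow_left₀ hN0.le this 2
            _ = _ := by ring
      _ ≤ _ := Finset.sum_le_sum_of_subset_of_nonneg hsub (fun N _ _ => by positivity)
  refine (Finset.sum_le_sum h3).trans ?_
  apply Finset.sum_le_sum_of_subset_of_nonneg
  · intro a ha
    rw [Finset.mem_filter, Finset.mem_Icc] at ha ⊢
    exact ⟨⟨ha.1.1, by omega⟩, ha.2⟩
  · intro a _ _
    exact Finset.sum_nonneg fun N _ => by positivity

open scoped Classical in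
lemma dsum (D : Set ℕ) (M : ℕ) :
    ∑ N ∈ Icc 1 M, (((Ioc (N / 2) N).filter (fun b => b ∈ D)).card : ℝ) / (N : ℝ) ^ 2 ≤ LM D M := by
  have h1 : ∀ N ∈ Icc 1 M, (((Ioc (N / 2) N).filter (fun b => b ∈ D)).card : ℝ) / (N : ℝ) ^ 2 =
      ∑ b ∈ (Icc 1 M).filter (fun b => b ∈ D ∧ b ≤ N ∧ N < 2 * b), 1 / (N : ℝ) ^ 2 := by
    intro N hN
    rw [Finset.mem_Icc] at hN
    rw [Finset.sum_const, nsmul_eq_mul]
    have : (Ioc (N / 2) N).filter (fun b => b ∈ D) =
        (Icc 1 M).filter (fun b => b ∈ D ∧ b ≤ N ∧ N < 2 * b) := by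
      ext b
      simp only [Finset.mem_filter, Finset.mem_Icc, Finset.mem_Ioc]
      constructor
      · rintro ⟨⟨h1, h2⟩, h3⟩
        exact ⟨⟨by omega, by omega⟩, h3, by omega, by omega⟩
      · rintro ⟨⟨h1, h2⟩, h3, h4, h5⟩
        exact ⟨⟨by omega, by omega⟩, h3⟩
    rw [this]
    ring
  rw [Finset.sum_congr rfl h1]
  have h2 : ∑ N ∈ Icc 1 M, ∑ b ∈ (Icc 1 M).filter (fun b => b ∈ D ∧ b ≤ N ∧ N < 2 * b), 1 / (N : ℝ) ^ 2 =
      ∑ b ∈ (Icc 1 M).filter (fun b => b ∈ D), ∑ N ∈ (Icc 1 M).filter (fun N => b ≤ N ∧ N < 2 * b),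
        1 / (N : ℝ) ^ 2 := by
    apply Finset.sum_comm'
    intro N b
    simp only [Finset.mem_filter, Finset.mem_Icc]
    tauto
  rw [h2, LM]
  apply Finset.sum_le_sum
  intro b hb
  rw [Finset.mem_filter, Finset.mem_Icc] at hb
  have hb1 : (1 : ℝ) ≤ b := by exact_mod_cast hb.1.1
  calc ∑ N ∈ (Icc 1 M).filter (fun N => b ≤ N ∧ N < 2 * b), 1 / (N : ℝ) ^ 2
      ≤ ∑ N ∈ Ico b (2 * b), 1 / (N : ℝ) ^ 2 := by
        apply Finset.sum_le_sum_of_subset_of_nonneg
        · intro N hN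
          rw [Finset.mem_filter] at hN
          rw [Finset.mem_Ico]; exact hN.2
        · intro N _ _; positivity
    _ ≤ ∑ N ∈ Ico b (2 * b), 1 / (b : ℝ) ^ 2 := by
        apply Finset.sum_le_sum
        intro N hN
        rw [Finset.mem_Ico] at hN
        apply one_div_le_one_div_of_le (by positivity)
        have : (b : ℝ) ≤ N := by exact_mod_cast hN.1
        exact pow_le_pow_left₀ (by positivity) this 2
    _ = 1 / b := by
        rw [Finset.sum_const, Nat.card_Ico, nsmul_eq_mul]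
        have : 2 * b - b = b := by omega
        rw [this]
        field_simp

lemma sum_inv_sq' (M : ℕ) : ∑ N ∈ Icc 1 M, (1 : ℝ) / (N : ℝ) ^ 2 ≤ 2 := by
  rcases Nat.eq_zero_or_pos M with h | h
  · rw [h]; simp
  have h1 : Icc 1 M = insert 1 (Icc 2 M) := by
    ext x; simp only [Finset.mem_Icc, Finset.mem_insert]; omega
  rw [h1, Finset.sum_insert (by simp)]
  have := sum_inv_sq M
  norm_num
  norm_num at this
  linarith

open scoped Classical in
theorem contradiction2 (W D : Set ℕ) (w0 d0 C : ℝ) (hw0 : 0 ≤ w0) (hw : ∀ M : ℕ, 1 ≤ M → w0 * Real.log M - C ≤ LM W M)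
    (hd : ∀ M : ℕ, 1 ≤ M → LM D M ≤ d0 * Real.log M + C) (hd0 : d0 < w0 / 9)
    (hgood : ∀ a ∈ W, ∀ b b' : ℕ, 0 < b → 0 < b' → b ≠ b' → a * (b + b') = b * b' → b ≤ 3 * a → b' ≤ 3 * a → b ∈ D) :
    ¬ (∀ ε : ℝ, 0 < ε → ∃ N₀ : ℕ, ∀ N : ℕ, N₀ ≤ N →
      (∃ A : Finset ℕ, A ⊆ Finset.Icc 1 N ∧
          (∀ a ∈ A, ∀ S : Finset ℕ, S ⊆ A → a ∉ S →
              ∑ b ∈ S, (1 : ℚ) / (b : ℚ) ≠ (1 : ℚ) / (a : ℚ)) ∧
          (1 / 2 - ε) * (N : ℝ) ≤ (A.card : ℝ)) ∧
      (∀ A : Finset ℕ, A ⊆ Finset.Icc 1 N →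
          (∀ a ∈ A, ∀ S : Finset ℕ, S ⊆ A → a ∉ S →
              ∑ b ∈ S, (1 : ℚ) / (b : ℚ) ≠ (1 : ℚ) / (a : ℚ)) →
          (A.card : ℝ) ≤ (1 / 2 + ε) * (N : ℝ))) := by
  intro hconj
  set ε := (w0 / 9 - d0) / 2 with hε
  have hε0 : 0 < ε := by rw [hε]; linarith
  obtain ⟨N0, hN0⟩ := hconj ε hε0
  have hmain : ∀ N : ℕ, 1 ≤ N → (((Icc 1 (N / 2)).filter (fun a => a ∈ W ∧ N < 3 * a)).card : ℝ) ≤
      ε * N + (((Ioc (N / 2) N).filter (fun b => b ∈ D)).card : ℝ) + N0 := by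
    intro N hN1
    have hd0' : (0 : ℝ) ≤ (((Ioc (N / 2) N).filter (fun b => b ∈ D)).card : ℝ) := by positivity
    have hNr : (0 : ℝ) ≤ N := by positivity
    rcases Nat.lt_or_ge N N0 with hlt | hge
    · have h1 : ((Icc 1 (N / 2)).filter (fun a => a ∈ W ∧ N < 3 * a)).card ≤ N0 := by
        refine (Finset.card_filter_le _ _).trans ?_
        rw [Nat.card_Icc]; omega
      have h1' : (((Icc 1 (N / 2)).filter (fun a => a ∈ W ∧ N < 3 * a)).card : ℝ) ≤ N0 := by exact_mod_cast h1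
      have h2 : 0 ≤ ε * N := by positivity
      linarith
    · have hsub : AN W D N ⊆ Icc 1 N := by
        intro b hb
        obtain ⟨h1, h2, _⟩ := mem_AN_bounds W D N b hb
        rw [Finset.mem_Icc]; exact ⟨h1, h2⟩
      have h1 := (hN0 N hge).2 (AN W D N) hsub (AN_good W D hgood N)
      have hcard : (AN W D N).card = ((Ioc (N / 2) N).filter (fun b => b ∉ D)).card +
          ((Icc 1 (N / 2)).filter (fun a => a ∈ W ∧ N < 3 * a)).card := by
        rw [AN]
        apply Finset.card_union_of_disjoint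
        rw [Finset.disjoint_left]
        intro a ha ha'
        rw [Finset.mem_filter, Finset.mem_Ioc] at ha
        rw [Finset.mem_filter, Finset.mem_Icc] at ha'
        omega
      have hcard2 : ((Ioc (N / 2) N).filter (fun b => b ∈ D)).card + ((Ioc (N / 2) N).filter (fun b => b ∉ D)).card =
          N - N / 2 := by
        rw [Finset.card_filter_add_card_filter_not, Nat.card_Ioc]
      have h3 : (N : ℝ) ≤ 2 * ((N - N / 2 : ℕ) : ℝ) := by
        have : N ≤ 2 * (N - N / 2) := by omega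
        exact_mod_cast this
      rw [← hcard2] at h3
      rw [hcard] at h1
      push_cast at h1 h3
      have : (0 : ℝ) ≤ N0 := by positivity
      linarith
  -- sum over N
  have hsum : ∀ M : ℕ, 3 ≤ M → 1 / 9 * LM W (M / 3) ≤ ε * (1 + Real.log M) + LM D M + N0 * 2 := by
    intro M hM
    refine (wsum W M).trans ?_
    have h1 : ∀ N ∈ Icc 1 M, (((Icc 1 (N / 2)).filter (fun a => a ∈ W ∧ N < 3 * a)).card : ℝ) / (N : ℝ) ^ 2 ≤
        ε * (1 / (N : ℝ)) + (((Ioc (N / 2) N).filter (fun b => b ∈ D)).card : ℝ) / (N : ℝ) ^ 2 + N0 * (1 / (N : ℝ) ^ 2) := by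
      intro N hN
      rw [Finset.mem_Icc] at hN
      have hN0' : (0 : ℝ) < N := by exact_mod_cast hN.1
      have h2 := hmain N hN.1
      have h3 : ε * (1 / (N : ℝ)) + (((Ioc (N / 2) N).filter (fun b => b ∈ D)).card : ℝ) / (N : ℝ) ^ 2 + N0 * (1 / (N : ℝ) ^ 2) =
          (ε * N + (((Ioc (N / 2) N).filter (fun b => b ∈ D)).card : ℝ) + N0) / (N : ℝ) ^ 2 := by
        field_simp
      rw [h3]
      exact div_le_div_of_nonneg_right h2 (by positivity)
    refine (Finset.sum_le_sum h1).trans ?_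
    rw [Finset.sum_add_distrib, Finset.sum_add_distrib, ← Finset.mul_sum, ← Finset.mul_sum]
    have h4 := mul_le_mul_of_nonneg_left (harm_bound M) hε0.le
    have h5 := dsum D M
    have h6 := mul_le_mul_of_nonneg_left (sum_inv_sq' M) (show (0 : ℝ) ≤ N0 by positivity)
    linarith
  have hall : ∀ M : ℕ, 3 ≤ M → ε * Real.log M ≤ w0 / 9 * Real.log 6 + C / 9 + ε + C + N0 * 2 := by
    intro M hM
    have h1 := hsum M hM
    have h2 := hw (M / 3) (by omega)
    have h3 := hd M (by omega)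
    have hMr : (3 : ℝ) ≤ M := by exact_mod_cast hM
    have h4 : Real.log M - Real.log 6 ≤ Real.log ((M / 3 : ℕ) : ℝ) := by
      rw [← Real.log_div (by positivity) (by norm_num)]
      apply Real.log_le_log (by positivity)
      have : M ≤ 6 * (M / 3) := by omega
      rw [div_le_iff₀ (by norm_num)]
      have h : (M : ℝ) ≤ 6 * ((M / 3 : ℕ) : ℝ) := by exact_mod_cast this
      linarith
    have h5 := mul_le_mul_of_nonneg_left h4 hw0
    have h6 : ε * Real.log M = (w0 / 9 - d0 - ε) * Real.log M := by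
      rw [hε]; ring
    rw [h6]
    linarith
  have t1 : Filter.Tendsto (fun M : ℕ => ε * Real.log (M : ℝ)) Filter.atTop Filter.atTop :=
    Filter.Tendsto.const_mul_atTop hε0 (Real.tendsto_log_atTop.comp tendsto_natCast_atTop_atTop)
  obtain ⟨M, hM1, hM2⟩ := ((t1.eventually_gt_atTop (w0 / 9 * Real.log 6 + C / 9 + ε + C + N0 * 2)).and
    (Filter.eventually_ge_atTop 3)).exists
  exact absurd (hall M hM2) (not_le.2 hM1)

end Pool.Agent.Helper559
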