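import Mathlib
import Pool.Agent.Helper559.Main
import Pool.Agent.Helper559.Gebound
import Pool.Agent.Helper559.UfCover
import Pool.Agent.Helper559.UfFinal

set_option autoImplicit false
set_option maxHeartbeats 4000000

namespace Pool.Agent.Helper559

open Finset

lemma LM_le_log (X : Set ℕ) (M : ℕ) : LM X M ≤ 1 + Real.log M := by
  refine le_trans ?_ (harm_bound M)
  rw [LM_eq]
  apply Finset.sum_le_sum
  intro n _
  have h0 : (0 : ℝ) ≤ 1 / n := by positivity
  by_cases h : n ∈ X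
  · rw [Set.indicator_of_mem h]
  · rw [Set.indicator_of_notMem h]
    exact h0

theorem main_bound2 : ∃ (T : ℕ) (κ : ℕ → ℝ) (w0 d0 Cf : ℝ), 0 ≤ w0 ∧ d0 < w0 / 9 ∧
    (∀ M : ℕ, 1 ≤ M → w0 * Real.log M - Cf ≤ LM (Wtwo T κ) M) ∧
    (∀ M : ℕ, 1 ≤ M → LM (Dtwo T κ) M ≤ d0 * Real.log M + Cf) := by
  classical
  obtain ⟨C₀, hC₀0, hC₀⟩ := mertens
  set C := max C₀ 1 with hCdef
  have hC1 : 1 ≤ C := le_max_right _ _
  have hC : ∀ x : ℕ, 2 ≤ x → |S x - Real.log (Real.log x)| ≤ C := fun x hx => (hC₀ x hx).trans (le_max_left _ _)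
  obtain ⟨K, hK0, hK⟩ := W_lower C hC (1 / 25000) (by norm_num) (by norm_num)
  obtain ⟨C3, τ0, hC30, hτ03, hE⟩ := gE_bound C hC1 hC (2 / 5 * (3 / 4)) (2 / 5) (3 / 4) (by norm_num) (by norm_num)
    (by norm_num) (by norm_num) (by norm_num) (by norm_num) (by norm_num) (by norm_num) (by norm_num) 1 0 (Or.inl ⟨rfl, rfl⟩)
  obtain ⟨G, hG0, hG⟩ := geom_bound (1 / 100000) (by norm_num)
  have hl2a := Real.log_two_gt_d9
  have hl2b := Real.log_two_lt_d9
  set κ : ℕ → ℝ := fun i => K + (1 + 1 / 25000) * (i * Real.log 2) with hκ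
  set C4 : ℝ := Real.exp (K * Real.log (5 / 2)) * C3 * G with hC4
  set C5 : ℝ := Real.exp (11 / 4 + 2 * C) * G with hC5
  have hC40 : 0 < C4 := by positivity
  have hC50 : 0 < C5 := by positivity
  set c1 : ℝ := 1 / 2 * Real.exp (-C - 9 / 4) with hc1
  have hc10 : 0 < c1 := by positivity
  -- choice of T
  obtain ⟨T, hTτ0, hTL, hTbig⟩ : ∃ T : ℕ, τ0 ≤ Real.log T ∧ 1 ≤ Real.log (Real.log T) ∧
      (C4 * (Real.log (Real.log T) + 2) ^ 3 + C5) * Real.exp (-(1 / 100000 * Real.log (Real.log T))) ≤ c1 / 18 := by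
    have t1 : Filter.Tendsto (fun T : ℕ => Real.log (T : ℝ)) Filter.atTop Filter.atTop :=
      Real.tendsto_log_atTop.comp tendsto_natCast_atTop_atTop
    have t2 : Filter.Tendsto (fun T : ℕ => Real.log (Real.log (T : ℝ))) Filter.atTop Filter.atTop :=
      Real.tendsto_log_atTop.comp t1
    have h := tendsto_exp_mul_div_rpow_atTop 3 (1 / 100000) (by norm_num)
    have ev : ∀ᶠ x : ℝ in Filter.atTop, (C4 * (x + 2) ^ 3 + C5) * Real.exp (-(1 / 100000 * x)) ≤ c1 / 18 := by
      filter_upwards [h.eventually_ge_atTop ((27 * C4 + C5) / (c1 / 18)), Filter.eventually_ge_atTop 1] with x hx hx1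
      have e : x ^ (3 : ℝ) = x ^ 3 := by
        rw [← Real.rpow_natCast]; norm_num
      rw [e, div_le_div_iff₀ (by positivity) (by positivity)] at hx
      rw [Real.exp_neg, ← div_eq_mul_inv, div_le_iff₀ (Real.exp_pos _)]
      have h3 : (x + 2) ^ 3 ≤ 27 * x ^ 3 := by
        have : x + 2 ≤ 3 * x := by linarith
        calc (x + 2) ^ 3 ≤ (3 * x) ^ 3 := pow_le_pow_left₀ (by linarith) this 3
          _ = _ := by ring
      have h4 : 1 ≤ x ^ 3 := one_le_pow₀ hx1
      have h5 : C4 * (x + 2) ^ 3 ≤ C4 * (27 * x ^ 3) := mul_le_mul_of_nonneg_left h3 hC40.le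
      have h6 : C5 * 1 ≤ C5 * x ^ 3 := mul_le_mul_of_nonneg_left h4 hC50.le
      linarith
    have := ((t1.eventually_ge_atTop τ0).and
      ((t2.eventually_ge_atTop 1).and (t2.eventually ev))).exists
    exact this
  set τ := Real.log T with hτ
  set L := Real.log τ with hL
  have hτ3 : 3 ≤ τ := hτ03.trans hTτ0
  have hT2 : 2 ≤ T := by
    by_contra h
    have h2 : (T : ℝ) ≤ 1 := by
      have : T ≤ 1 := by omega
      exact_mod_cast this
    have h3 : τ ≤ 0 := Real.log_nonpos (by positivity) h2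
    linarith
  have hRle : ((2 : ℕ) : ℝ) ≤ τ ^ 2 + 1 := by
    push_cast
    nlinarith
  set Λ : ℕ := ⌈L⌉₊ + 1 with hΛ
  have hΛ1 : 1 ≤ Λ := by omega
  have hΛ2 : L ≤ Λ := by
    have := Nat.le_ceil L
    rw [hΛ]; push_cast; linarith
  have hΛ3 : (Λ : ℝ) ≤ L + 2 := by
    have := Nat.ceil_lt_add_one (show 0 ≤ L by linarith)
    rw [hΛ]; push_cast; linarith
  set c : ℕ → ℝ := fun i => 347 / 100 * L + 11597 / 10000 * (i * Real.log 2) with hc
  have hcmono : Monotone c := by
    intro i j hij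
    simp only [hc]
    have : (i : ℝ) ≤ j := by exact_mod_cast hij
    gcongr
  -- bound for B
  have hBbound : ∀ M : ℕ, T ≤ M → LM (Bset T c) M ≤ C5 * (Real.log M * Real.exp (-((1 + 1 / 100000) * L))) := by
    intro M hM
    have hM2 : 2 ≤ M := hT2.trans hM
    have hlogM : 0 < Real.log M := Real.log_pos (by exact_mod_cast (by omega : 1 < M))
    have h1 : LM (Bset T c) M ≤ ∑ i ∈ range (M + 1), (267 / 200 : ℝ) ^ (-(c i)) *
        ∑ n ∈ Icc 1 M, (267 / 200 : ℝ) ^ Om T (T ^ (2 ^ i)) n / n := by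
      refine le_trans (le_of_eq ?_) (atyp_sum T hT2 (267 / 200) (by norm_num) c hcmono M (Icc 1 M) (Finset.Subset.refl _))
      rw [LM]
      apply Finset.sum_congr _ (fun _ _ => rfl)
      ext n
      simp only [Finset.mem_filter]
      rfl
    refine h1.trans ?_
    have hterm : ∀ i ∈ range (M + 1), (267 / 200 : ℝ) ^ (-(c i)) *
        ∑ n ∈ Icc 1 M, (267 / 200 : ℝ) ^ Om T (T ^ (2 ^ i)) n / n ≤
        (Real.exp (11 / 4 + 2 * C) * (Real.log M * Real.exp (-((1 + 1 / 100000) * L)))) *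
          (((i : ℝ) + 1) ^ 2 * Real.exp (-(1 / 100000 * i))) := by
      intro i _
      set y := T ^ (2 ^ i) with hy
      have hTy : T ≤ y := by
        rw [hy]
        exact Nat.le_self_pow (by positivity) T
      have hB := Bsum T y M hT2 hTy hM (267 / 200) (by norm_num) (by norm_num)
      have hST := hC T hT2
      rw [abs_le] at hST
      have hSM := hC M hM2
      rw [abs_le] at hSM
      have hSy : S (min y M) ≤ i * Real.log 2 + L + C := by
        have h1 : S (min y M) ≤ S y := S_mono (min_le_left _ _)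
        have h2 := hC y (by omega)
        rw [abs_le] at h2
        have h3 : Real.log (Real.log (y : ℝ)) = i * Real.log 2 + L := by
          rw [hy]; push_cast
          rw [Real.log_pow, Real.log_mul (by positivity) (by linarith)]
          push_cast
          rw [Real.log_pow]
        linarith [h2.2]
      have hb : Real.exp (11 / 4 + S T + 267 / 200 * (S (min y M) - S T) + (S M - S (min y M))) ≤
          Real.exp (11 / 4 + 2 * C + 67 / 200 * (i * Real.log 2) + Real.log (Real.log M)) := by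
        apply Real.exp_le_exp.2
        linarith [hST.1, hSM.2]
      have hρ : (267 / 200 : ℝ) ^ (-(c i)) = Real.exp (-(c i) * Real.log (267 / 200)) := by
        rw [Real.rpow_def_of_pos (by norm_num)]; congr 1; ring
      have hi0 : (0 : ℝ) ≤ i := by positivity
      have hci : 0 ≤ c i := by
        simp only [hc]; positivity
      calc (267 / 200 : ℝ) ^ (-(c i)) * ∑ n ∈ Icc 1 M, (267 / 200 : ℝ) ^ Om T y n / n
          ≤ Real.exp (-(c i) * Real.log (267 / 200)) *
            Real.exp (11 / 4 + 2 * C + 67 / 200 * (i * Real.log 2) + Real.log (Real.log M)) := by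
            rw [hρ]
            exact mul_le_mul_of_nonneg_left (hB.trans hb) (Real.exp_pos _).le
        _ ≤ (Real.exp (11 / 4 + 2 * C) * (Real.log M * Real.exp (-((1 + 1 / 100000) * L)))) *
          (1 * Real.exp (-(1 / 100000 * i))) := by
            rw [one_mul]
            conv_rhs => rw [← Real.exp_log hlogM]
            rw [← Real.exp_add, ← Real.exp_add, ← Real.exp_add, ← Real.exp_add]
            apply Real.exp_le_exp.2
            have h5 := mul_le_mul_of_nonneg_left log_c hci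
            have h6 : c i = 347 / 100 * L + 11597 / 10000 * (i * Real.log 2) := rfl
            have h7 : (i : ℝ) * 0.6931471803 ≤ i * Real.log 2 := mul_le_mul_of_nonneg_left hl2a.le hi0
            rw [h6] at h5 ⊢
            nlinarith
        _ ≤ _ := by
            apply mul_le_mul_of_nonneg_left _ (by positivity)
            apply mul_le_mul_of_nonneg_right _ (by positivity)
            nlinarith
    refine (Finset.sum_le_sum hterm).trans ?_
    rw [← Finset.mul_sum]
    calc _ ≤ (Real.exp (11 / 4 + 2 * C) * (Real.log M * Real.exp (-((1 + 1 / 100000) * L)))) * G :=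
          mul_le_mul_of_nonneg_left (hG (M + 1)) (by positivity)
      _ = _ := by rw [hC5]; ring
  -- bound for D minus B
  have hDBbound : ∀ M : ℕ, T ≤ M → LM (Dtwo T κ \ Bset T c) M ≤
      C4 * (Λ : ℝ) ^ 3 * (Real.log M * Real.exp (-((1 + 1 / 100000) * L))) := by
    intro M hM
    have hM2 : 2 ≤ M := hT2.trans hM
    have hlogM : 0 < Real.log M := Real.log_pos (by exact_mod_cast (by omega : 1 < M))
    refine (DB_sum2 T hT2 κ c M).trans ?_
    have hterm : ∀ i ∈ (range M).filter (fun i => T ^ (2 ^ i) ≤ M),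
      (2 / 5 : ℝ) ^ (-(κ i)) * (3 / 4 : ℝ) ^ (-(c i)) *
      ((∑ k ∈ (Icc 1 M).filter (fun k => orough T k), (2 / 5 * (3 / 4) : ℝ) ^ Om T (T ^ (2 ^ i)) k / k) *
      (∑ x ∈ Qtwo T (T ^ (2 ^ i)), (2 / 5 * (3 / 4) : ℝ) ^ Om T (T ^ (2 ^ i)) x.1 * (2 / 5) ^ Om T (T ^ (2 ^ i)) x.2 *
        (3 / 4) ^ Om T (T ^ (2 ^ i)) (x.1 + x.2) / ((x.1 : ℝ) * (x.2 : ℝ)))) ≤
      (Real.exp (K * Real.log (5 / 2)) * C3 * (Λ : ℝ) ^ 3 * (Real.log M * Real.exp (-((1 + 1 / 100000) * L)))) *
        (((i : ℝ) + 1) ^ 2 * Real.exp (-(1 / 100000 * i))) := by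
      intro i hi
      rw [Finset.mem_filter] at hi
      have hQ0 : ∀ x ∈ Qtwo T (T ^ (2 ^ i)), 1 ≤ x.1 ∧ 1 ≤ x.2 ∧ Nat.Coprime x.1 x.2 ∧ T ^ (2 ^ i) < x.1 + x.2 ∧
          x.1 + x.2 ≤ (T ^ (2 ^ i)) ^ 2 ∧ x.1 ≤ 2 * x.2 ∧ x.2 ≤ 2 * x.1 ∧ orough T x.1 ∧
          ((1 : ℝ) = 1 → orough T x.2) ∧ ((0 : ℝ) = 1 → orough T (x.1 + x.2)) := by
        intro x hx
        rw [Qtwo, Finset.mem_filter, Finset.mem_product, Finset.mem_Icc, Finset.mem_Icc] at hx
        obtain ⟨⟨⟨g1, _⟩, g2, _⟩, g3, g4, g5, g6, g7, g8, g9⟩ := hx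
        exact ⟨g1, g2, g3, g4, g5, g6, g7, g8, fun _ => g9, fun h => absurd h (by norm_num)⟩
      have h1 := hE T 2 hTτ0 hRle Λ hΛ2 hΛ1 hΛ3 i M hi.2 (Qtwo T (T ^ (2 ^ i))) hQ0
      have e1 : (2 / 5 : ℝ) ^ (-(κ i)) = Real.exp (κ i * Real.log (5 / 2)) :=
        rpow_neg_eq (2 / 5) (5 / 2) (κ i) (by norm_num) (by norm_num)
      have e2 : (3 / 4 : ℝ) ^ (-(c i)) = Real.exp (c i * Real.log (4 / 3)) :=
        rpow_neg_eq (3 / 4) (4 / 3) (c i) (by norm_num) (by norm_num)
      have hi0 : (0 : ℝ) ≤ i := by positivity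
      have hu0 : (0 : ℝ) ≤ i * Real.log 2 := by positivity
      have hL0 : 0 ≤ L := by linarith
      rw [e1, e2]
      calc _ ≤ Real.exp (κ i * Real.log (5 / 2)) * Real.exp (c i * Real.log (4 / 3)) *
          (C3 * Real.log M * (Λ : ℝ) ^ 3 * ((i : ℝ) + 1) ^ 2 *
            Real.exp (-(2 * L) - 5 / 4 * (i * Real.log 2))) :=
            mul_le_mul_of_nonneg_left h1 (by positivity)
        _ = C3 * Real.log M * (Λ : ℝ) ^ 3 * ((i : ℝ) + 1) ^ 2 * Real.exp (κ i * Real.log (5 / 2) + c i * Real.log (4 / 3) +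
            (-(2 * L) - 5 / 4 * (i * Real.log 2))) := by
            rw [Real.exp_add (κ i * Real.log (5 / 2) + c i * Real.log (4 / 3)),
              Real.exp_add (κ i * Real.log (5 / 2)) (c i * Real.log (4 / 3))]
            ring
        _ ≤ C3 * Real.log M * (Λ : ℝ) ^ 3 * ((i : ℝ) + 1) ^ 2 * Real.exp (K * Real.log (5 / 2) +
            -((1 + 1 / 100000) * L) + -(1 / 100000 * i)) := by
            apply mul_le_mul_of_nonneg_left _ (by positivity)
            apply Real.exp_le_exp.2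
            have h5 : (i * Real.log 2) * Real.log (5 / 2) ≤ (i * Real.log 2) * (9163 / 10000) :=
              mul_le_mul_of_nonneg_left log_a hu0
            have h6 : (i * Real.log 2) * Real.log (4 / 3) ≤ (i * Real.log 2) * (28769 / 100000) :=
              mul_le_mul_of_nonneg_left log_b hu0
            have h7 : L * Real.log (4 / 3) ≤ L * (28769 / 100000) := mul_le_mul_of_nonneg_left log_b hL0
            have h8 : (i : ℝ) * 0.6931471803 ≤ i * Real.log 2 := mul_le_mul_of_nonneg_left hl2a.le hi0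
            have h9 : κ i = K + (1 + 1 / 25000) * (i * Real.log 2) := rfl
            have h10 : c i = 347 / 100 * L + 11597 / 10000 * (i * Real.log 2) := rfl
            rw [h9, h10]
            nlinarith
        _ = _ := by
            rw [Real.exp_add (K * Real.log (5 / 2) + -((1 + 1 / 100000) * L)),
              Real.exp_add (K * Real.log (5 / 2))]
            ring
    refine (Finset.sum_le_sum hterm).trans ?_
    rw [← Finset.mul_sum]
    have hsub : ∑ i ∈ (range M).filter (fun i => T ^ (2 ^ i) ≤ M), ((i : ℝ) + 1) ^ 2 * Real.exp (-(1 / 100000 * i)) ≤ G := by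
      refine le_trans ?_ (hG M)
      apply Finset.sum_le_sum_of_subset_of_nonneg (Finset.filter_subset _ _)
      intro i _ _; positivity
    calc _ ≤ (Real.exp (K * Real.log (5 / 2)) * C3 * (Λ : ℝ) ^ 3 * (Real.log M * Real.exp (-((1 + 1 / 100000) * L)))) * G :=
          mul_le_mul_of_nonneg_left hsub (by positivity)
      _ = _ := by rw [hC4]; ring
  -- final
  have hX0 : 0 < Real.exp (-L) := Real.exp_pos _
  have hT2' : (2 : ℝ) ≤ T := by exact_mod_cast hT2
  have hlogT : 0 ≤ Real.log T := Real.log_nonneg (by linarith)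
  refine ⟨T, κ, c1 * Real.exp (-L), c1 / 18 * Real.exp (-L), (c1 * Real.exp (-L)) * Real.log T + (1 + Real.log T),
    by positivity, ?_, ?_, ?_⟩
  · have : 0 < c1 * Real.exp (-L) := by positivity
    linarith
  · intro M hM
    have hM' : (1 : ℝ) ≤ M := by exact_mod_cast hM
    rcases Nat.lt_or_ge M T with hlt | hge
    · have h1 := LM_nonneg (Wtwo T κ) M
      have h2 : Real.log M ≤ Real.log T := by
        apply Real.log_le_log (by linarith)
        exact_mod_cast hlt.le
      have h3 := mul_le_mul_of_nonneg_left h2 (show 0 ≤ c1 * Real.exp (-L) by positivity)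
      linarith
    · have hW2 := hK T M hτ3 hge
      rw [← hτ, ← hL] at hW2
      have hexp : Real.exp (-L - C - 9 / 4) = Real.exp (-L) * Real.exp (-C - 9 / 4) := by
        rw [← Real.exp_add]; congr 1; ring
      have hLMW : LM (Wtwo T κ) M = ∑ u ∈ (Icc 1 M).filter (fun u => rough T u ∧ ∀ i : ℕ, (Om T (T ^ (2 ^ i)) u : ℝ) ≤
        K + (1 + 1 / 25000) * (i * Real.log 2)), (1 : ℝ) / u := by
        rw [LM]
        apply Finset.sum_congr _ (fun _ _ => rfl)
        ext n
        simp only [Finset.mem_filter]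
        rfl
      rw [hLMW]
      refine le_trans ?_ hW2
      rw [hexp, hc1]
      have : 0 ≤ 1 / 2 * Real.exp (-C - 9 / 4) * Real.exp (-L) * Real.log T + (1 + Real.log T) := by positivity
      linarith
  · intro M hM
    have hM' : (1 : ℝ) ≤ M := by exact_mod_cast hM
    have hlogM : 0 ≤ Real.log M := Real.log_nonneg hM'
    rcases Nat.lt_or_ge M T with hlt | hge
    · have h1 := LM_le_log (Dtwo T κ) M
      have h2 : Real.log M ≤ Real.log T := by
        apply Real.log_le_log (by linarith)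
        exact_mod_cast hlt.le
      have h3 : 0 ≤ c1 / 18 * Real.exp (-L) * Real.log M := by positivity
      have h4 : 0 ≤ c1 * Real.exp (-L) * Real.log T := by positivity
      linarith
    · have hD := LM_split (Dtwo T κ) (Bset T c) M
      have hB := hBbound M hge
      have hDB := hDBbound M hge
      have hΛ3' : (Λ : ℝ) ^ 3 ≤ (L + 2) ^ 3 := pow_le_pow_left₀ (by positivity) hΛ3 3
      have hsplit : Real.exp (-((1 + 1 / 100000) * L)) = Real.exp (-(1 / 100000 * L)) * Real.exp (-L) := by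
        rw [← Real.exp_add]; congr 1; ring
      have hDtot : LM (Dtwo T κ) M ≤ c1 / 18 * Real.exp (-L) * Real.log M := by
        calc LM (Dtwo T κ) M ≤ C5 * (Real.log M * Real.exp (-((1 + 1 / 100000) * L))) +
              C4 * (Λ : ℝ) ^ 3 * (Real.log M * Real.exp (-((1 + 1 / 100000) * L))) := by linarith
          _ = (C4 * (Λ : ℝ) ^ 3 + C5) * Real.exp (-(1 / 100000 * L)) * (Real.exp (-L) * Real.log M) := by
              rw [hsplit]; ring
          _ ≤ (C4 * (L + 2) ^ 3 + C5) * Real.exp (-(1 / 100000 * L)) * (Real.exp (-L) * Real.log M) := by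
              gcongr
          _ ≤ c1 / 18 * (Real.exp (-L) * Real.log M) := by
              apply mul_le_mul_of_nonneg_right hTbig (by positivity)
          _ = _ := by ring
      have h4 : 0 ≤ c1 * Real.exp (-L) * Real.log T := by positivity
      linarith

theorem final2 : ¬ (∀ ε : ℝ, 0 < ε → ∃ N₀ : ℕ, ∀ N : ℕ, N₀ ≤ N →
      (∃ A : Finset ℕ, A ⊆ Finset.Icc 1 N ∧
          (∀ a ∈ A, ∀ S : Finset ℕ, S ⊆ A → a ∉ S →
              ∑ b ∈ S, (1 : ℚ) / (b : ℚ) ≠ (1 : ℚ) / (a : ℚ)) ∧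
          (1 / 2 - ε) * (N : ℝ) ≤ (A.card : ℝ)) ∧
      (∀ A : Finset ℕ, A ⊆ Finset.Icc 1 N →
          (∀ a ∈ A, ∀ S : Finset ℕ, S ⊆ A → a ∉ S →
              ∑ b ∈ S, (1 : ℚ) / (b : ℚ) ≠ (1 : ℚ) / (a : ℚ)) →
          (A.card : ℝ) ≤ (1 / 2 + ε) * (N : ℝ))) := by
  obtain ⟨T, κ, w0, d0, Cf, hw0, hd0, hW, hD⟩ := main_bound2
  apply contradiction2 (Wtwo T κ) (Dtwo T κ) w0 d0 Cf hw0 hW hD hd0
  intro a ha b b' hb hb' hbb heq h3 h3'
  exact ⟨a, ha, b', hb, hb', hbb, heq, h3, h3'⟩

end Pool.Agent.Helper559
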